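import Pool.Agent.Helper21.WD.StmtsQ

/-!
# Coprime Hodge numbers: the types `(a, b, a)` with `2 a ≥ b ^ 2 + b + 3`: exact statements (T16)
Proofs: /team-store/wv_helper21.md
-/

set_option autoImplicit false

namespace MT

open BND92

/-- REPK: additive functions of an element of degree zero, with the traces on all the pieces (see
REP). -/
def ST_REPK : Prop :=
  ∀ (K : Type) [Field K] [CharZero K] [IsAlgClosed K] (n : ℕ) (ε : K)
    (ψ : Matrix (Fin n) (Fin n) K) (s : Fin n → ℤ)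
    (a : Submodule K (Matrix (Fin n) (Fin n) K)), GrD ε ψ s a →
    ∀ x ∈ gr s 0 a, ¬ IsNilpotent x →
      ∃ w : Fin n → K, w ≠ 0 ∧ ∀ f : K →+ K, ∃ D ∈ gr s 0 a, ∀ k : ℤ,
        ∑ i ∈ Finset.univ.filter (fun i => s i = k), (x * D) i i =
          ∑ j ∈ Finset.univ.filter (fun j => s j = k), w j * f (w j)

/-- TOR5: a torus which acts trivially on the middle piece, and with two different weights on the top
piece; or the degree zero part is small (see REP, TOR, ENG). -/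
def ST_TOR5 : Prop :=
  ∀ (K : Type) [Field K] [CharZero K] [IsAlgClosed K] (n : ℕ) (ε : K)
    (ψ : Matrix (Fin n) (Fin n) K) (s : Fin n → ℤ)
    (a : Submodule K (Matrix (Fin n) (Fin n) K)), GrD ε ψ s a → (∀ j, |s j| ≤ 1) →
    (∃ (P : Matrix.GeneralLinearGroup (Fin n) K) (d : Fin n → ℤ),
      (∀ i j, (P : Matrix (Fin n) (Fin n) K) i j ≠ 0 → s i = s j) ∧
      (∃ i j, s i = 1 ∧ s j = 1 ∧ d i ≠ d j) ∧ (∀ i, s i = 0 → d i = 0) ∧
      (P : Matrix (Fin n) (Fin n) K) * Matrix.diagonal (fun j => (d j : K)) *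
        ((P⁻¹ : Matrix.GeneralLinearGroup (Fin n) K) : Matrix (Fin n) (Fin n) K) ∈ a) ∨
    2 * Module.finrank K (gr s 0 a) ≤ 2 + (Finset.univ.filter fun j => s j = 0).card *
      ((Finset.univ.filter fun j => s j = 0).card + 1)

/-- POS0: the inequality for the middle piece (from CAS, REPK, ENG, TNN1, TNN2, DIM). -/
def ST_POS0 : Prop :=
  ∀ (K : Type) [Field K] [CharZero K] [IsAlgClosed K] (n : ℕ) (ε : K)
    (ψ : Matrix (Fin n) (Fin n) K) (s : Fin n → ℤ)
    (a : Submodule K (Matrix (Fin n) (Fin n) K)), GrD ε ψ s a → (∀ j, |s j| ≤ 1) →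
    2 * (Finset.univ.filter fun j => s j = 1).card * Module.finrank K (gr s 1 a) ≤
      (Finset.univ.filter fun j => s j = 0).card * (Module.finrank K (gr s 0 a) +
        Module.finrank K (gr s 1 a) + 2 * Module.finrank K (gr s 2 a))

/-- V0I: a criterion for subspaces of the middle piece; `d` is the grading given by a torus which
acts trivially on the middle piece. -/
def ST_V0I : Prop :=
  ∀ (K : Type) [Field K] [CharZero K] (n : ℕ) (s d : Fin n → ℤ)
    (a : Submodule K (Matrix (Fin n) (Fin n) K)), Brk a → LIrr a →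
    (∀ A ∈ a, ∀ x : ℤ, cmp s x A ∈ a) → (∀ A ∈ a, ∀ x : ℤ, cmp d x A ∈ a) →
    (∀ j, |s j| ≤ 1) → (∀ j, s j = 0 → d j = 0) →
    ∀ U : Submodule K (Fin n → K), (∀ v ∈ U, ∀ j, v j ≠ 0 → s j = 0) →
      (∀ A ∈ a, cmp s 0 A = A → cmp d 0 A = A → ∀ v ∈ U, A.mulVec v ∈ U) →
      (∀ (z : ℤ), ∀ A ∈ a, ∀ B ∈ a, cmp s (-1) A = A → cmp d (-z) A = A → cmp s 1 B = B →
        cmp d z B = B → ∀ v ∈ U, A.mulVec (B.mulVec v) ∈ U) →
      U = ⊥ ∨ ∀ v : Fin n → K, (∀ j, v j ≠ 0 → s j = 0) → v ∈ U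

/-- GC5: coprime multiplicities and a torus on the top piece (from ALG, CNT, RK1, SPB, `ST_TPI`,
FIN, GRA, V0I; see GCD). -/
def ST_GC5 : Prop :=
  ∀ (K : Type) [Field K] [CharZero K] [IsAlgClosed K] (n : ℕ) (ε : K)
    (ψ : Matrix (Fin n) (Fin n) K) (s d : Fin n → ℤ)
    (a : Submodule K (Matrix (Fin n) (Fin n) K)), GrD ε ψ s a → GrD ε ψ d a →
    (∀ j, |s j| ≤ 1) → (∃ j, s j = 1) → (∃ j, s j = 0) → (∀ j, s j = 0 → d j = 0) →
    (∃ i j, s i = 1 ∧ s j = 1 ∧ d i ≠ d j) →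
    (∀ u : ℕ, u ∣ (Finset.univ.filter fun j => s j = 1).card →
      u ∣ (Finset.univ.filter fun j => s j = 0).card → u = 1) →
    ∀ A : Matrix (Fin n) (Fin n) K, A.transpose * ψ + ψ * A = 0 → A ∈ a

/-- WT5: the types `(α, β, α)` with `2 α ≥ β ^ 2 + β + 3` (from TOR5, POS0, GC5, SC2). -/
def ST_WT5 : Prop :=
  ∀ (K : Type) [Field K] [CharZero K] [IsAlgClosed K] (n : ℕ) (ε : K)
    (ψ : Matrix (Fin n) (Fin n) K) (s : Fin n → ℤ)
    (a : Submodule K (Matrix (Fin n) (Fin n) K)), GrD ε ψ s a → (∀ j, |s j| ≤ 1) →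
    (∃ j, s j = 0) →
    (Finset.univ.filter fun j => s j = 0).card ^ 2 +
      (Finset.univ.filter fun j => s j = 0).card + 3 ≤
        2 * (Finset.univ.filter fun j => s j = 1).card →
    (∀ u : ℕ, u ∣ (Finset.univ.filter fun j => s j = 1).card →
      u ∣ (Finset.univ.filter fun j => s j = 0).card → u = 1) →
    ∀ A : Matrix (Fin n) (Fin n) K, A.transpose * ψ + ψ * A = 0 → A ∈ a

end MT
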