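import Pool.Agent.Helper21.WD.WT2
import Pool.Agent.Helper21.WD.StmtsV
import Pool.Agent.Helper2.MT10.TOPG

/-!
# TOPW: the Lie theorem for coprime Hodge numbers
-/

set_option autoImplicit false

namespace MT

namespace Topw

theorem card_neg {n : ℕ} {d : Fin n → ℤ} (s : Equiv.Perm (Fin n)) (hs : ∀ i, d (s i) = - d i)
    (N : ℤ) : (Finset.univ.filter fun j => d j = -N).card =
      (Finset.univ.filter fun j => d j = N).card := by
  symm
  refine Finset.card_bij (fun j _ => s j) ?_ ?_ ?_
  · intro j hj
    simp only [Finset.mem_filter, Finset.mem_univ, true_and] at hj ⊢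
    rw [hs, hj]
  · intro i _ j _ h
    exact s.injective h
  · intro j hj
    simp only [Finset.mem_filter, Finset.mem_univ, true_and] at hj
    refine ⟨s.symm j, ?_, s.apply_symm_apply j⟩
    simp only [Finset.mem_filter, Finset.mem_univ, true_and]
    have h1 := hs (s.symm j)
    rw [s.apply_symm_apply] at h1
    omega

end Topw

open Top10 Topw in
/-- the Lie theorem, graded form -/
theorem graded_TOPW (hLIE : ST_LIE9) (hADD : ST_ADD) (hSHF : ST_SHF) (hONE : ST_ONE)
    (hGRA : ST_GRA) (hGCD : ST_GCD) (hWT4 : ST_WT4) (hWT5 : ST_WT5) (K : Type) [Field K]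
    [CharZero K] [IsAlgClosed K] (n w : ℕ) (h : Fin n → ℕ)
    (ψ : Matrix (Fin n) (Fin n) K) (a : Submodule K (Matrix (Fin n) (Fin n) K))
    (hwide : Wide w h) (hG : GrD ((-1 : K) ^ w) ψ (fun j => 2 * (h j : ℤ) - (w : ℤ)) a) :
    ∀ A : Matrix (Fin n) (Fin n) K, A.transpose * ψ + ψ * A = 0 → A ∈ a := by
  classical
  obtain ⟨m, hm, hin, hcase⟩ := hwide
  rcases hcase with ⟨hi, hone | hcase⟩ | hthin
  · exact graded_TOPG hLIE hADD hSHF hONE hGRA K n w h ψ a ⟨m, hm, hin, Or.inl ⟨hi, hone⟩⟩ hG
  · set d : Fin n → ℤ := fun j => 2 * (h j : ℤ) - (w : ℤ) with hd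
    have hdj : ∀ j, d j = 2 * (h j : ℤ) - (w : ℤ) := fun j => rfl
    obtain ⟨N, hN⟩ : ∃ N : ℤ, N = 2 * (m : ℤ) - (w : ℤ) := ⟨_, rfl⟩
    have hN0 : 0 < N := by omega
    have hInn : ∀ j, (d j ≠ N ∧ d j ≠ -N) → Inn w m (h j) := by
      intro j hj
      rw [hdj, hN] at hj
      exact ⟨by omega, by omega⟩
    have hInn' : ∀ j, Inn w m (h j) → d j ≠ N ∧ d j ≠ -N := by
      intro j hj
      obtain ⟨h1, h2⟩ := hj
      rw [hdj, hN]
      exact ⟨by omega, by omega⟩
    have hIso : IsoZ d N := by
      intro i j k h1 h2 h3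
      obtain ⟨e1, e2, e3⟩ := hi i j k (hInn i h1) (hInn j h2) (hInn k h3)
      rw [hdj, hdj, hdj, hN]
      exact ⟨by omega, by omega, by omega⟩
    obtain ⟨s, hs⟩ := Top9.exists_perm ψ d hG.unit hG.grad
    have hsym : ∀ i, ∃ j, d j = - d i := fun i => ⟨s i, hs i⟩
    obtain ⟨c, hc⟩ : ∃ c : ℤ → ℤ,
        ∀ x, c x = 0 * x + if x = N then 1 else if x = -N then -1 else 0 :=
      ⟨fun x => 0 * x + if x = N then 1 else if x = -N then -1 else 0, fun x => rfl⟩
    obtain ⟨hodd, hadd⟩ := hSHF n d N hN0 hsym hIso 0 1 c hc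
    have hgs := regrade hGRA hG c hodd (hADD K n _ ψ d a hG c hodd hadd)
    have hc1 : ∀ x, c x = 1 ↔ x = N := by
      intro x
      rw [hc]
      by_cases h1 : x = N
      · simp [h1]
      · rw [if_neg h1]
        by_cases h2 : x = -N
        · rw [if_pos h2]
          constructor
          · intro h3; omega
          · intro h3; exact absurd h3 h1
        · rw [if_neg h2]
          constructor
          · intro h3; omega
          · intro h3; exact absurd h3 h1
    have hc0 : ∀ x, c x = 0 ↔ x ≠ N ∧ x ≠ -N := by
      intro x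
      rw [hc]
      by_cases h1 : x = N
      · rw [if_pos h1]
        constructor
        · intro h3; omega
        · intro h3; exact absurd h1 h3.1
      · rw [if_neg h1]
        by_cases h2 : x = -N
        · rw [if_pos h2]
          constructor
          · intro h3; omega
          · intro h3; exact absurd h2 h3.2
        · rw [if_neg h2]
          constructor
          · intro _; exact ⟨h1, h2⟩
          · intro _; omega
    have hab : ∀ j, |c (d j)| ≤ 1 := by
      intro j
      rw [abs_le]
      rw [hc]
      split_ifs <;> constructor <;> omega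
    have hcard1 : (Finset.univ.filter fun j => c (d j) = 1) =
        (Finset.univ.filter fun j => h j = m) := by
      ext j
      simp only [Finset.mem_filter, Finset.mem_univ, true_and]
      rw [hc1, hdj, hN]
      omega
    rcases hcase with ⟨hcop, ⟨jm, hjm⟩, i₁, j₁, hI1, hJ1, hne, hne'⟩ | ⟨⟨jm, hjm⟩, hcop, hlt⟩
    · obtain ⟨c', hc'⟩ : ∃ c' : ℤ → ℤ,
          ∀ x, c' x = 1 * x + if x = N then -N else if x = -N then -(-N) else 0 :=
        ⟨fun x => 1 * x + if x = N then -N else if x = -N then -(-N) else 0, fun x => rfl⟩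
      obtain ⟨hodd', hadd'⟩ := hSHF n d N hN0 hsym hIso 1 (-N) c' hc'
      have hgd := regrade hGRA hG c' hodd' (hADD K n _ ψ d a hG c' hodd' hadd')
      have hc'0 : ∀ x, x ≠ N → x ≠ -N → c' x = x := by
        intro x h1 h2
        rw [hc', if_neg h1, if_neg h2]
        ring
      refine hGCD K n _ ψ (fun j => c (d j)) (fun j => c' (d j)) a hgs hgd hab ?_ ?_ ?_ ?_
      · exact ⟨jm, (hc1 _).mpr (by rw [hdj, hjm, hN])⟩
      · intro j hj
        rw [hc']
        by_cases h1 : d j = N
        · rw [if_pos h1]; omega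
        · by_cases h2 : d j = -N
          · rw [if_neg h1, if_pos h2]; omega
          · exact absurd ((hc0 _).mpr ⟨h1, h2⟩) hj
      · obtain ⟨a1, a2⟩ := hInn' i₁ hI1
        obtain ⟨b1, b2⟩ := hInn' j₁ hJ1
        refine ⟨i₁, j₁, (hc0 _).mpr ⟨a1, a2⟩, (hc0 _).mpr ⟨b1, b2⟩, ?_, ?_⟩
        · rw [hc'0 _ a1 a2, hc'0 _ b1 b2, hdj, hdj]
          omega
        · rw [hc'0 _ a1 a2, hc'0 _ b1 b2, hdj, hdj]
          omega
      · intro u hu1 hu0
        rw [hcard1] at hu1
        refine hcop u fun p => ?_
        by_cases h1 : p = m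
        · rw [h1]; exact hu1
        · by_cases h3 : p + m = w
          · have h2 : (Finset.univ.filter fun j => h j = p) =
                (Finset.univ.filter fun j => d j = -N) := by
              ext j
              simp only [Finset.mem_filter, Finset.mem_univ, true_and]
              rw [hdj, hN]
              omega
            have h4 : (Finset.univ.filter fun j => h j = m) =
                (Finset.univ.filter fun j => d j = N) := by
              ext j
              simp only [Finset.mem_filter, Finset.mem_univ, true_and]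
              rw [hdj, hN]
              omega
            rw [h2, card_neg s hs, ← h4]
            exact hu1
          · have h2 : (Finset.univ.filter fun j => h j = p) =
                (Finset.univ.filter fun j => c (d j) = 0 ∧ c' (d j) = 2 * (p : ℤ) - w) := by
              ext j
              simp only [Finset.mem_filter, Finset.mem_univ, true_and]
              constructor
              · intro h4
                have h5 : d j ≠ N ∧ d j ≠ -N := hInn' j ⟨by omega, by omega⟩
                exact ⟨(hc0 _).mpr h5, by rw [hc'0 _ h5.1 h5.2, hdj, h4]⟩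
              · rintro ⟨h4, h5⟩
                obtain ⟨h6, h7⟩ := (hc0 _).mp h4
                rw [hc'0 _ h6 h7, hdj] at h5
                omega
            rw [h2]
            exact hu0 _
    · have hcard0 : (Finset.univ.filter fun j => c (d j) = 0) =
          (Finset.univ.filter fun j => h j ≠ m ∧ h j + m ≠ w) := by
        ext j
        simp only [Finset.mem_filter, Finset.mem_univ, true_and]
        rw [hc0]
        exact ⟨hInn j, hInn' j⟩
      have hu' : ∀ u : ℕ, u ∣ (Finset.univ.filter fun j => c (d j) = 1).card →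
          u ∣ (Finset.univ.filter fun j => c (d j) = 0).card → u = 1 := by
        intro u hu1 hu0
        rw [hcard1] at hu1
        rw [hcard0] at hu0
        exact Nat.eq_one_of_dvd_coprimes hcop hu1 hu0
      rcases hlt with hlt | hlt
      · refine hWT4 K n _ ψ (fun j => c (d j)) a hgs hab ?_ ?_ hu'
        · exact ⟨jm, (hc1 _).mpr (by rw [hdj, hjm, hN])⟩
        · rw [hcard1, hcard0]; exact hlt
      · refine hWT5 K n _ ψ (fun j => c (d j)) a hgs hab ?_ ?_ hu'
        · obtain ⟨j, hj⟩ := hin
          exact ⟨j, (hc0 _).mpr (hInn' j hj)⟩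
        · rw [hcard1, hcard0]; exact hlt
  · exact graded_TOPG hLIE hADD hSHF hONE hGRA K n w h ψ a ⟨m, hm, hin, Or.inr hthin⟩ hG

open Wtx in
/-- the Lie theorem -/
theorem st_TOPW (hLIE : ST_LIE9) (hADD : ST_ADD) (hSHF : ST_SHF) (hONE : ST_ONE)
    (hGRA : ST_GRA) (hGCD : ST_GCD) (hWT4 : ST_WT4) (hWT5 : ST_WT5) : ST_TOPW := by
  intro K _ _ _ n w h ψ P a hwide hdet hsym hbrk hirr hiso hgr
  set d : Fin n → ℤ := fun j => 2 * (h j : ℤ) - (w : ℤ) with hd
  have hD : Matrix.diagonal (fun j => (d j : K)) ∈ a.comap (cjP P) := by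
    show cjP P _ ∈ a
    rw [cjP_apply]
    have : (fun j => (d j : K)) = fun j => 2 * (h j : K) - (w : K) := by
      funext j
      simp only [d]
      push_cast
      rfl
    rw [this]
    exact hgr
  have h0 : ∀ x : ℤ, (∀ A ∈ a.comap (cjP P), A.transpose *
      ((P : Matrix (Fin n) (Fin n) K).transpose * ψ * (P : Matrix (Fin n) (Fin n) K)) +
      (P : Matrix (Fin n) (Fin n) K).transpose * ψ * (P : Matrix (Fin n) (Fin n) K) * A = 0) := by
    intro _ A hA
    have h1 := chg (s := fun _ => 0) P hdet hsym (neg_one_pow_eq_or K w) hbrk hirr hiso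
      (fun _ _ _ => rfl) (by
        intro A hA x
        by_cases hx : x = 0
        · have : cmp (fun _ : Fin n => (0 : ℤ)) x A = A := by
            ext i j
            simp [cmp, hx]
          rw [this]
          exact hA
        · have : cmp (fun _ : Fin n => (0 : ℤ)) x A = 0 := by
            ext i j
            simp only [cmp, Matrix.of_apply, Matrix.zero_apply]
            rw [if_neg (by omega)]
          rw [this]
          exact Submodule.zero_mem _)
    exact h1.iso A hA
  have hbrk' : Brk (a.comap (cjP P)) := by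
    have h1 := chg (s := fun _ => 0) P hdet hsym (neg_one_pow_eq_or K w) hbrk hirr hiso
      (fun _ _ _ => rfl) (by
        intro A hA x
        by_cases hx : x = 0
        · have : cmp (fun _ : Fin n => (0 : ℤ)) x A = A := by
            ext i j
            simp [cmp, hx]
          rw [this]
          exact hA
        · have : cmp (fun _ : Fin n => (0 : ℤ)) x A = 0 := by
            ext i j
            simp only [cmp, Matrix.of_apply, Matrix.zero_apply]
            rw [if_neg (by omega)]
          rw [this]
          exact Submodule.zero_mem _)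
    exact h1.brk
  refine back P (graded_TOPW hLIE hADD hSHF hONE hGRA hGCD hWT4 hWT5 K n w h _ _ hwide
    (chg P hdet hsym (neg_one_pow_eq_or K w) hbrk hirr hiso ?_
      (hGRA K n _ d fun A hA => hbrk' _ hD _ hA)))
  intro i j hij
  have h1 := congrFun (congrFun (h0 0 _ hD) i) j
  rw [Matrix.diagonal_transpose, Matrix.add_apply, Matrix.diagonal_mul,
    Matrix.mul_diagonal, Matrix.zero_apply] at h1
  have h2 : ((d i + d j : ℤ) : K) * ((P : Matrix (Fin n) (Fin n) K).transpose * ψ *
      (P : Matrix (Fin n) (Fin n) K)) i j = 0 := by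
    rw [← h1]
    push_cast
    ring
  have h3 := (mul_eq_zero.mp h2).resolve_right hij
  exact Int.cast_eq_zero.mp h3

end MT
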