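import Pool.Agent.Helper21.WD.GC5b

/-!
# GC5, part 4: modules over the algebra of all matrices
-/

set_option autoImplicit false

open Matrix

namespace MT

namespace GC5x

variable {K : Type} [Field K]

/-- a matrix, as a sum of products through a given index -/
theorem dec {I J : Type} [Fintype I] [DecidableEq I] [Fintype J] [DecidableEq J] (p : I)
    (M : Matrix J J K) : M = ∑ j : J, Matrix.vecMulVec (fun i => M i j) (Pi.single p (1 : K)) *
      Matrix.vecMulVec (Pi.single p (1 : K)) (Pi.single j (1 : K)) := by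
  ext i k
  rw [Matrix.sum_apply, Finset.sum_eq_single k]
  · rw [Matrix.mul_apply, Finset.sum_eq_single p]
    · simp [Matrix.vecMulVec_apply]
    · intro b _ hb
      simp [Matrix.vecMulVec_apply, hb]
    · intro h; exact absurd (Finset.mem_univ _) h
  · intro b _ hb
    rw [Matrix.mul_apply]
    apply Finset.sum_eq_zero
    intro x _
    simp [Matrix.vecMulVec_apply, Pi.single_apply, hb.symm]
  · intro h; exact absurd (Finset.mem_univ _) h

theorem vmv {I J : Type} [Fintype I] [DecidableEq I] [Fintype J] [DecidableEq J] (q : I)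
    (v : J → K) : (Matrix.vecMulVec v (Pi.single q (1 : K))).mulVec (Pi.single q 1) = v := by
  funext i
  simp [Matrix.mulVec, dotProduct, Matrix.vecMulVec_apply, Pi.single_apply]

theorem dmv {I : Type} [Fintype I] [DecidableEq I] (q : I) (v : I → K) :
    (Matrix.diagonal (Pi.single q (1 : K))).mulVec v = Pi.single q (v q) := by
  funext i
  rw [Matrix.mulVec_diagonal]
  by_cases h : i = q
  · subst h; simp
  · simp [h]

/-- modules over the algebra of all matrices -/
theorem full (rk1 : ST_RK1) {I J : Type} [Fintype I] [DecidableEq I] [Fintype J] [DecidableEq J]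
    (q : I) :
    (∀ B : Submodule K (Matrix I J K), (∀ x : Matrix I I K, ∀ y ∈ B, x * y ∈ B) →
      (∀ v : J → K, (∀ y ∈ B, y.mulVec v = 0) → v = 0) → B = ⊤) ∧
    ∀ B : Submodule K (Matrix J I K), (∀ x : Matrix I I K, ∀ y ∈ B, y * x ∈ B) →
      (∀ v : J → K, v ∈ Submodule.span K {u | ∃ y ∈ B, ∃ u' : I → K, u = y.mulVec u'}) →
        B = ⊤ := by
  classical
  have h1 := rk1 K I J (Matrix.diagonal (Pi.single q 1)) ⊤ (by
    rw [Matrix.diagonal_mul_diagonal]
    congr 1
    funext i
    by_cases hi : i = q
    · subst hi; simp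
    · simp [hi]) (by
    rw [Matrix.rank_diagonal, Fintype.card_eq_one_iff]
    refine ⟨⟨q, by simp⟩, fun x => ?_⟩
    obtain ⟨x, hx⟩ := x
    have : x = q := by
      by_contra hne
      exact hx (Pi.single_eq_of_ne hne 1)
    subst this
    rfl) Submodule.mem_top (by
    intro v
    refine Submodule.subset_span ⟨Matrix.vecMulVec v (Pi.single q 1), Submodule.mem_top,
      Pi.single q 1, ?_⟩
    rw [← Matrix.mulVec_mulVec, dmv, Pi.single_eq_same, vmv]) (by
    intro v hv
    funext i
    have h2 := hv (Matrix.vecMulVec (Pi.single q 1) (Pi.single i 1)) Submodule.mem_top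
    rw [← Matrix.mulVec_mulVec, dmv] at h2
    have h3 := congrFun h2 q
    rw [Pi.single_eq_same, Pi.zero_apply] at h3
    rw [Pi.zero_apply, ← h3]
    simp [Matrix.mulVec, dotProduct, Matrix.vecMulVec_apply, Pi.single_apply])
  constructor
  · intro B hB hk
    refine h1.1 B (fun x _ y hy => hB x y hy) fun v hv => hk v fun y hy => ?_
    funext i
    have h2 := hv _ (hB (Matrix.vecMulVec (Pi.single q 1) (Pi.single i 1)) y hy)
    rw [← Matrix.mulVec_mulVec, dmv, ← Matrix.mulVec_mulVec] at h2
    have h3 := congrFun h2 q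
    rw [Pi.single_eq_same, Pi.zero_apply] at h3
    rw [Pi.zero_apply, ← h3]
    simp [Matrix.mulVec, dotProduct, Matrix.vecMulVec_apply, Pi.single_apply]
  · intro B hB hs
    refine h1.2 B (fun x _ y hy => hB x y hy) fun v => ?_
    refine Submodule.span_le.mpr ?_ (hs v)
    rintro _ ⟨y, hy, u', rfl⟩
    refine Submodule.subset_span ⟨y * Matrix.vecMulVec u' (Pi.single q 1), hB _ y hy,
      Pi.single q 1, ?_⟩
    rw [← Matrix.mulVec_mulVec, dmv, Pi.single_eq_same, ← Matrix.mulVec_mulVec, vmv]

end GC5x

end MT
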