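import Pool.Agent.Helper21.WD.GC5c
import Pool.Agent.Helper21.WD.GC5d

/-!
# GC5: coprime multiplicities and a torus on the top piece
-/

set_option autoImplicit false

open Matrix

namespace MT

namespace GC5x

open GCDx (blk_apply blk_mul blk_zero cmp_ne cmp_at Hom hom_cmp ex re ex_apply ex_ne re_ex ex_re
  blk_mulVec)

variable {K : Type} [Field K] {n : ℕ}

/-- the elements of bidegree `(0, 0)` act irreducibly on the piece of highest weight -/
theorem Lirr (tpi : ST_TPI) {s d : Fin n → ℤ} {a : Submodule K (Matrix (Fin n) (Fin n) K)}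
    (hb : Brk a) (hi : LIrr a) (M N : ℤ)
    (hc : ∀ A ∈ a, ∀ x, cmp (fun j => M * s j + d j) x A ∈ a)
    (u : ℤ) (hN : N = M + u) (hle : ∀ j, M * s j + d j ≤ N)
    (htop : ∀ j, M * s j + d j = N → s j = 1)
    (U : Submodule K ({j // P s d u j} → K))
    (hU : ∀ z ∈ (Ls s d a u : Set (Matrix {j // P s d u j} {j // P s d u j} K)), ∀ v ∈ U,
      z.mulVec v ∈ U) :
    U = ⊥ ∨ U = ⊤ := by
  have hP : ∀ j, M * s j + d j = N → P s d u j := by
    intro j hj
    have h1 := htop j hj
    rw [h1] at hj
    exact ⟨h1, by omega⟩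
  have hP' : ∀ j, P s d u j → M * s j + d j = N := by
    rintro j ⟨h1, h2⟩
    rw [h1, h2, hN]
    ring
  rcases tpi K n a (fun j => M * s j + d j) N hb hi hc hle (U.map (ex (P s d u))) (by
    rintro _ ⟨v, _, rfl⟩ j hj
    exact hP' j (ex_ne _ v hj)) (by
    rintro A hA hA0 _ ⟨v, hv, rfl⟩
    refine ⟨(GCDx.blk (P s d u) (P s d u) A).mulVec v,
      hU _ (Submodule.mem_map_of_mem hA) v hv, ?_⟩
    rw [blk_mulVec]
    apply ex_re
    intro i hi
    by_contra hc
    apply hi
    show ∑ j, A i j * ex (P s d u) v j = 0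
    apply Finset.sum_eq_zero
    intro j _
    by_contra hne
    have h3 := left_ne_zero_of_mul hne
    have h4 := hP' j (ex_ne _ v (right_ne_zero_of_mul hne))
    rw [← hA0] at h3
    have h5 := (cmp_ne h3).1
    exact hc (hP i (by linarith))) with h | h
  · left
    rw [eq_bot_iff]
    intro v hv
    have h1 : ex (P s d u) v ∈ U.map (ex (P s d u)) := Submodule.mem_map_of_mem hv
    rw [h, Submodule.mem_bot] at h1
    rw [Submodule.mem_bot, ← re_ex (P s d u) v, h1, map_zero]
  · right
    rw [eq_top_iff]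
    intro v _
    obtain ⟨w, hw, hw'⟩ := h (ex (P s d u) v) (fun j hj => hP' j (ex_ne _ v hj))
    rw [← re_ex (P s d u) v, ← hw', re_ex]
    exact hw

end GC5x

open GC5x

theorem st_GC5 (alg : ST_ALG) (cnt : ST_CNT) (rk1 : ST_RK1) (spb : ST_SPB) (tpi : ST_TPI)
    (fin : ST_FIN) (gra : ST_GRA) (v0i : ST_V0I) : ST_GC5 := by
  intro K _ _ _ n ε ψ s d a gs gd hs1 hex hex0 hsd htwo hcop
  classical
  have D : Dat s d a := ⟨gs.brk, gs.comp, gd.comp, fun j => abs_le.mp (hs1 j), hsd⟩
  obtain ⟨sp1, sp2⟩ := spb K n ε ψ s a gs hs1 hex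
  obtain ⟨i₀, j₀, hi₀, hj₀, hne⟩ := htwo
  -- the highest weight
  obtain ⟨i₁, hi₁, hmax⟩ : ∃ i, s i = 1 ∧ ∀ j, s j = 1 → d j ≤ d i := by
    obtain ⟨i, hi, hm⟩ := Finset.exists_max_image (Finset.univ.filter fun j => s j = 1) d
      ⟨i₀, by simpa using hi₀⟩
    refine ⟨i, by simpa using hi, fun j hj => hm j (by simpa using hj)⟩
  set u := d i₁ with hu
  obtain ⟨j₁, hj₁, hzu⟩ : ∃ j, s j = 1 ∧ u ≠ d j := by
    by_cases h : u = d i₀
    · exact ⟨j₀, hj₀, fun h' => hne (h.symm.trans h')⟩
    · exact ⟨i₀, hi₀, h⟩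
  set z := d j₁ with hz
  have hPu : ∃ j, P s d u j := ⟨i₁, hi₁, rfl⟩
  -- irreducibility
  obtain ⟨M, hM⟩ : ∃ M : ℤ, ∀ j, |d j| < M := by
    refine ⟨(∑ j, |d j|) + 1, fun j => ?_⟩
    have h1 : |d j| ≤ ∑ j, |d j| := Finset.single_le_sum (f := fun j => |d j|)
      (fun j _ => abs_nonneg (d j)) (Finset.mem_univ j)
    omega
  have hL := Lirr (s := s) (d := d) tpi gs.brk gs.irr (2 * M) (2 * M + u)
    (gra K n a (fun j => 2 * M * s j + d j) (by
      intro A hA
      have hsum : ∀ (e : Fin n → ℤ), (∀ x, cmp e x A ∈ a) →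
          Matrix.diagonal (fun j => (e j : K)) * A - A * Matrix.diagonal (fun j => (e j : K)) ∈
            a := by
        intro e he
        have h1 : Matrix.diagonal (fun j => (e j : K)) * A -
            A * Matrix.diagonal (fun j => (e j : K)) =
            ∑ x ∈ (Finset.univ.image fun p : Fin n × Fin n => e p.1 - e p.2),
              (x : K) • cmp e x A := by
          ext i j
          rw [Matrix.sub_apply, Matrix.diagonal_mul, Matrix.mul_diagonal, Matrix.sum_apply,
            Finset.sum_eq_single (e i - e j)]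
          · rw [Matrix.smul_apply, GCDx.cmp_at rfl, smul_eq_mul]
            push_cast
            ring
          · intro x _ hx
            rw [Matrix.smul_apply]
            unfold cmp
            rw [Matrix.of_apply, if_neg fun h => hx h.symm, smul_zero]
          · intro hc
            exact absurd (Finset.mem_image_of_mem (fun p : Fin n × Fin n => e p.1 - e p.2)
              (Finset.mem_univ (i, j))) hc
        rw [h1]
        exact Submodule.sum_mem _ fun x _ => Submodule.smul_mem _ _ (he x)
      have h2 := Submodule.add_mem _ (Submodule.smul_mem _ ((2 * M : ℤ) : K)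
        (hsum s (gs.comp A hA))) (hsum d (gd.comp A hA))
      convert h2 using 1
      ext i j
      simp only [Matrix.sub_apply, Matrix.add_apply, Matrix.smul_apply, Matrix.diagonal_mul,
        Matrix.mul_diagonal, smul_eq_mul]
      push_cast
      ring)) u (by ring) (by
      intro j
      have h1 := abs_lt.mp (hM j)
      have h2 := abs_lt.mp (hM i₁)
      rcases (show s j = 1 ∨ s j = 0 ∨ s j = -1 by have := D.s1 j; omega) with h | h | h
      · have := hmax j h
        rw [h]
        omega
      · rw [h]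
        omega
      · rw [h]
        omega) (by
      intro j hj
      have h1 := abs_lt.mp (hM j)
      have h2 := abs_lt.mp (hM i₁)
      rcases (show s j = 1 ∨ s j = 0 ∨ s j = -1 by have := D.s1 j; omega) with h | h | h
      · exact h
      · rw [h] at hj
        omega
      · rw [h] at hj
        omega)
  -- spanning and kernels
  have tS := top_span tpi gs.irr D sp2 hex0
  have tK := top_ker tpi gs.irr D sp1 hex0
  have mS := mid_span v0i tpi gs.irr D sp1 hex0 u hPu
  have mK := mid_ker v0i tpi gs.irr D sp2 hex0 u hPu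
  -- `V_1^v = G v u V_1^u`
  have gS : ∀ (v : ℤ) (w : {j // P s d v j} → K), w ∈ Submodule.span K
      {w | ∃ g ∈ G s d a v u, ∃ u' : {j // P s d u j} → K, w = g.mulVec u'} := by
    intro v w
    have h1 := tS v w
    induction h1 using Submodule.span_induction with
    | mem w hw =>
      obtain ⟨x, hx, w', rfl⟩ := hw
      have h2 := mS w'
      induction h2 using Submodule.span_induction with
      | mem w hw =>
        obtain ⟨y, hy, w'', rfl⟩ := hw
        refine Submodule.subset_span ⟨x * y, Submodule.subset_span ⟨x, hx, y, hy, rfl⟩, w'', ?_⟩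
        rw [Matrix.mulVec_mulVec]
      | zero => rw [Matrix.mulVec_zero]; exact Submodule.zero_mem _
      | add x y _ _ hx hy => rw [Matrix.mulVec_add]; exact Submodule.add_mem _ hx hy
      | smul c x _ hx => rw [Matrix.mulVec_smul]; exact Submodule.smul_mem _ c hx
    | zero => exact Submodule.zero_mem _
    | add x y _ _ hx hy => exact Submodule.add_mem _ hx hy
    | smul c x _ hx => exact Submodule.smul_mem _ c hx
  have gK : ∀ (v : ℤ) (w : {j // P s d v j} → K),
      (∀ g ∈ G s d a u v, g.mulVec w = 0) → w = 0 := by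
    intro v w hw
    refine tK v w fun y hy => mK _ fun x hx => ?_
    rw [Matrix.mulVec_mulVec]
    exact hw _ (Submodule.subset_span ⟨x, hx, y, hy, rfl⟩)
  have hF : F s d a u z ≠ ⊥ := by
    intro h
    have h1 : ∀ x ∈ G s d a u z, ∀ y ∈ G s d a z u, x * y = 0 := by
      intro x hx y hy
      have h2 : x * y ∈ F s d a u z := Submodule.subset_span ⟨x, hx, y, hy, rfl⟩
      rw [h, Submodule.mem_bot] at h2
      exact h2
    have h2 : ∀ w : {j // P s d z j} → K, w = 0 := by
      intro w
      refine gK z w fun g hg => ?_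
      have h3 := gS z w
      induction h3 using Submodule.span_induction with
      | mem w hw =>
        obtain ⟨y, hy, w', rfl⟩ := hw
        rw [Matrix.mulVec_mulVec, h1 g hg y hy, Matrix.zero_mulVec]
      | zero => rw [Matrix.mulVec_zero]
      | add x y _ _ hx hy => rw [Matrix.mulVec_add, hx, hy, add_zero]
      | smul c x _ hx => rw [Matrix.mulVec_smul, hx, smul_zero]
    have h3 := congrFun (h2 (Pi.single ⟨j₁, hj₁, rfl⟩ 1)) ⟨j₁, hj₁, rfl⟩
    rw [Pi.single_eq_same] at h3
    exact one_ne_zero h3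
  obtain ⟨f, hf, hff, hf0, hfx, hfs, hfk⟩ := alg K {j // P s d u j} (F s d a u z)
    (Ls s d a u : Set (Matrix {j // P s d u j} {j // P s d u j} K))
    (fun x hx y hy => FF D hzu hx hy) (fun m hm x hx => LF D hm hx) hL hF
  have hfGf : ∀ g ∈ G s d a u u, ∃ c : K, f * g * f = c • f := by
    intro g hg
    obtain ⟨c, hc⟩ := hfx _ (FGu D hzu hf hg)
    refine ⟨c, ?_⟩
    rw [← hc, ← Matrix.mul_assoc, hff]
  -- spanning and kernels, with `f`
  have gSf : ∀ (v : ℤ) (w : {j // P s d v j} → K), w ∈ Submodule.span K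
      {w | ∃ g ∈ G s d a v u, ∃ u' : {j // P s d u j} → K, w = (g * f).mulVec u'} := by
    intro v w
    have h1 := gS v w
    induction h1 using Submodule.span_induction with
    | mem w hw =>
      obtain ⟨g, hg, w', rfl⟩ := hw
      have h2 := hfs w'
      induction h2 using Submodule.span_induction with
      | mem w hw =>
        obtain ⟨x, hx, w'', rfl⟩ := hw
        refine Submodule.subset_span ⟨g * x, GF D hzu hx hg, w'', ?_⟩
        rw [Matrix.mulVec_mulVec, Matrix.mul_assoc]
      | zero => rw [Matrix.mulVec_zero]; exact Submodule.zero_mem _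
      | add x y _ _ hx hy => rw [Matrix.mulVec_add]; exact Submodule.add_mem _ hx hy
      | smul c x _ hx => rw [Matrix.mulVec_smul]; exact Submodule.smul_mem _ c hx
    | zero => exact Submodule.zero_mem _
    | add x y _ _ hx hy => exact Submodule.add_mem _ hx hy
    | smul c x _ hx => exact Submodule.smul_mem _ c hx
  have gKf : ∀ (v : ℤ) (w : {j // P s d v j} → K),
      (∀ g ∈ G s d a u v, (f * g).mulVec w = 0) → w = 0 := by
    intro v w hw
    refine gK v w fun g hg => hfk _ fun x hx => ?_
    have h3 := hw _ (FG D hzu hx hg)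
    rw [← Matrix.mul_assoc, ← Matrix.mulVec_mulVec] at h3
    exact h3
  have mSf : ∀ w : {j // Q s j} → K, w ∈ Submodule.span K
      {w | ∃ y ∈ Bm s d a u, ∃ u' : {j // P s d u j} → K, w = (y * f).mulVec u'} := by
    intro w
    have h1 := mS w
    induction h1 using Submodule.span_induction with
    | mem w hw =>
      obtain ⟨g, hg, w', rfl⟩ := hw
      have h2 := hfs w'
      induction h2 using Submodule.span_induction with
      | mem w hw =>
        obtain ⟨x, hx, w'', rfl⟩ := hw
        refine Submodule.subset_span ⟨g * x, BF D hzu hx hg, w'', ?_⟩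
        rw [Matrix.mulVec_mulVec, Matrix.mul_assoc]
      | zero => rw [Matrix.mulVec_zero]; exact Submodule.zero_mem _
      | add x y _ _ hx hy => rw [Matrix.mulVec_add]; exact Submodule.add_mem _ hx hy
      | smul c x _ hx => rw [Matrix.mulVec_smul]; exact Submodule.smul_mem _ c hx
    | zero => exact Submodule.zero_mem _
    | add x y _ _ hx hy => exact Submodule.add_mem _ hx hy
    | smul c x _ hx => exact Submodule.smul_mem _ c hx
  have mKf : ∀ w : {j // Q s j} → K,
      (∀ x ∈ Bp s d a u, (f * x).mulVec w = 0) → w = 0 := by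
    intro w hw
    refine mK w fun x hx => hfk _ fun y hy => ?_
    have h3 := hw _ (FB D hzu hy hx)
    rw [← Matrix.mul_assoc, ← Matrix.mulVec_mulVec] at h3
    exact h3
  -- divisibility
  have hdiv1 : ∀ v : ℤ, f.rank ∣ Fintype.card {j // P s d v j} := by
    intro v
    refine cnt K {j // P s d u j} {j // P s d v j} f
      { carrier := {x | x ∈ G s d a u v ∧ f * x = x}
        add_mem' := fun {x y} hx hy => ⟨Submodule.add_mem _ hx.1 hy.1, by
          rw [Matrix.mul_add, hx.2, hy.2]⟩
        zero_mem' := ⟨Submodule.zero_mem _, Matrix.mul_zero _⟩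
        smul_mem' := fun c {x} hx => ⟨Submodule.smul_mem _ c hx.1, by
          rw [Matrix.mul_smul, hx.2]⟩ }
      { carrier := {x | x ∈ G s d a v u ∧ x * f = x}
        add_mem' := fun {x y} hx hy => ⟨Submodule.add_mem _ hx.1 hy.1, by
          rw [Matrix.add_mul, hx.2, hy.2]⟩
        zero_mem' := ⟨Submodule.zero_mem _, Matrix.zero_mul _⟩
        smul_mem' := fun c {x} hx => ⟨Submodule.smul_mem _ c hx.1, by
          rw [Matrix.smul_mul, hx.2]⟩ }
      hff (fun x hx => hx.2) (fun x hx => hx.2) ?_ ?_ ?_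
    · rintro x ⟨hx, hx'⟩ y ⟨hy, hy'⟩
      by_cases huv : u = v
      · subst huv
        obtain ⟨c, hc⟩ := hfx _ (FGu D hzu (FGu D hzu hf hx) hy)
        refine ⟨c, ?_⟩
        rw [← hc]
        calc x * y = (f * (f * x)) * (y * f) := by rw [hx', hx', hy']
          _ = f * (f * x * y) * f := by simp only [Matrix.mul_assoc]
      · obtain ⟨c, hc⟩ := hfGf _ (GG D (Or.inl huv) hx hy)
        refine ⟨c, ?_⟩
        rw [← hc]
        calc x * y = (f * x) * (y * f) := by rw [hx', hy']
          _ = f * (x * y) * f := by simp only [Matrix.mul_assoc]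
    · intro w
      refine Submodule.span_mono ?_ (gSf v w)
      rintro _ ⟨y, hy, u', rfl⟩
      refine ⟨y * f, ⟨GF D hzu hf hy, ?_⟩, u', rfl⟩
      rw [Matrix.mul_assoc, hff]
    · intro w hw
      refine gKf v w fun y hy => hw _ ⟨FG D hzu hf hy, ?_⟩
      rw [← Matrix.mul_assoc, hff]
  have hdiv0 : f.rank ∣ Fintype.card {j // Q s j} := by
    refine cnt K {j // P s d u j} {j // Q s j} f
      { carrier := {x | x ∈ Bp s d a u ∧ f * x = x}
        add_mem' := fun {x y} hx hy => ⟨Submodule.add_mem _ hx.1 hy.1, by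
          rw [Matrix.mul_add, hx.2, hy.2]⟩
        zero_mem' := ⟨Submodule.zero_mem _, Matrix.mul_zero _⟩
        smul_mem' := fun c {x} hx => ⟨Submodule.smul_mem _ c hx.1, by
          rw [Matrix.mul_smul, hx.2]⟩ }
      { carrier := {x | x ∈ Bm s d a u ∧ x * f = x}
        add_mem' := fun {x y} hx hy => ⟨Submodule.add_mem _ hx.1 hy.1, by
          rw [Matrix.add_mul, hx.2, hy.2]⟩
        zero_mem' := ⟨Submodule.zero_mem _, Matrix.zero_mul _⟩
        smul_mem' := fun c {x} hx => ⟨Submodule.smul_mem _ c hx.1, by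
          rw [Matrix.smul_mul, hx.2]⟩ }
      hff (fun x hx => hx.2) (fun x hx => hx.2) ?_ ?_ ?_
    · rintro x ⟨hx, hx'⟩ y ⟨hy, hy'⟩
      obtain ⟨c, hc⟩ := hfGf _ (Submodule.subset_span ⟨x, hx, y, hy, rfl⟩ :
        x * y ∈ G s d a u u)
      refine ⟨c, ?_⟩
      rw [← hc]
      calc x * y = (f * x) * (y * f) := by rw [hx', hy']
        _ = f * (x * y) * f := by simp only [Matrix.mul_assoc]
    · intro w
      refine Submodule.span_mono ?_ (mSf w)
      rintro _ ⟨y, hy, u', rfl⟩
      refine ⟨y * f, ⟨BF D hzu hf hy, ?_⟩, u', rfl⟩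
      rw [Matrix.mul_assoc, hff]
    · intro w hw
      refine mKf w fun y hy => hw _ ⟨FB D hzu hf hy, ?_⟩
      rw [← Matrix.mul_assoc, hff]
  have hrk : f.rank = 1 := by
    refine hcop _ ?_ ?_
    · rw [Finset.card_eq_sum_card_fiberwise (f := d) (t := Finset.univ.image d)
        (fun j _ => Finset.mem_coe.mpr (Finset.mem_image_of_mem d (Finset.mem_univ j)))]
      refine Finset.dvd_sum fun x _ => ?_
      rw [Finset.filter_filter, ← Fintype.card_subtype]
      exact hdiv1 x
    · rw [← Fintype.card_subtype]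
      exact hdiv0
  have hBu : Bp s d a u = ⊤ := (rk1 K {j // P s d u j} {j // Q s j} f (F s d a u z) hff hrk hf
    hfs hfk).1 (Bp s d a u) (fun x hx y hy => FB D hzu hx hy) mKf
  have hBu' : Bm s d a u = ⊤ := (rk1 K {j // P s d u j} {j // Q s j} f (F s d a u z) hff hrk hf
    hfs hfk).2 (Bm s d a u) (fun x hx y hy => BF D hzu hx hy) mSf
  have qex : Nonempty {j // Q s j} := ⟨⟨hex0.choose, hex0.choose_spec⟩⟩
  obtain ⟨q⟩ := qex
  let p : {j // P s d u j} := ⟨i₁, hi₁, rfl⟩
  have hB : ∀ v : ℤ, Bp s d a v = ⊤ := by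
    intro v
    by_cases hv : v = u
    · rw [hv]; exact hBu
    refine (full rk1 q).2 (Bp s d a v) (fun x y hy => ?_) (tS v)
    rw [dec p x, Matrix.mul_sum]
    refine Submodule.sum_mem _ fun j _ => ?_
    rw [← Matrix.mul_assoc]
    exact C1 D hv hy (by rw [hBu']; exact Submodule.mem_top) (by rw [hBu]; exact Submodule.mem_top)
  have hB' : ∀ v : ℤ, Bm s d a v = ⊤ := by
    intro v
    by_cases hv : v = u
    · rw [hv]; exact hBu'
    refine (full rk1 q).1 (Bm s d a v) (fun x y hy => ?_) (tK v)
    rw [dec p x, Matrix.sum_mul]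
    refine Submodule.sum_mem _ fun j _ => ?_
    exact C2 D (Ne.symm hv) (by rw [hBu']; exact Submodule.mem_top)
      (by rw [hBu]; exact Submodule.mem_top) hy
  refine fin K n ε ψ s a gs hs1 hex hex0 ?_ ?_
  · intro M
    have h3 : ∀ z : ℤ, ∃ X ∈ a, GCDx.Hom s d 1 z X ∧
        GCDx.blk (P s d z) (Q s) X = GCDx.blk (P s d z) (Q s) M := fun z =>
      Bp_hom D (by rw [hB z]; exact Submodule.mem_top)
    choose X hX gX bX using h3
    refine ⟨∑ z ∈ Finset.univ.image d, X z, Submodule.sum_mem _ fun z _ => hX z, ?_⟩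
    intro i j hi hj
    rw [Matrix.sum_apply, Finset.sum_eq_single (d i)]
    · have h4 := congrFun (congrFun (bX (d i)) ⟨i, hi, rfl⟩) ⟨j, hj⟩
      exact h4
    · intro z _ hz
      by_contra hne
      have h4 := (gX z i j hne).2
      have h5 := hsd j (by omega)
      omega
    · intro hc
      exact absurd (Finset.mem_image_of_mem d (Finset.mem_univ i)) hc
  · intro M
    have h3 : ∀ z : ℤ, ∃ X ∈ a, GCDx.Hom s d (-1) (-z) X ∧
        GCDx.blk (Q s) (P s d z) X = GCDx.blk (Q s) (P s d z) M := fun z =>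
      Bm_hom D (by rw [hB' z]; exact Submodule.mem_top)
    choose X hX gX bX using h3
    refine ⟨∑ z ∈ Finset.univ.image d, X z, Submodule.sum_mem _ fun z _ => hX z, ?_⟩
    intro i j hi hj
    rw [Matrix.sum_apply, Finset.sum_eq_single (d j)]
    · have h4 := congrFun (congrFun (bX (d j)) ⟨i, hi⟩) ⟨j, hj, rfl⟩
      exact h4
    · intro z _ hz
      by_contra hne
      have h4 := (gX z i j hne).2
      have h5 := hsd i (by omega)
      omega
    · intro hc
      exact absurd (Finset.mem_image_of_mem d (Finset.mem_univ j)) hc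

end MT
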