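import Pool.Agent.Helper21.WD.Stmts

/-!
# GCD: coprime multiplicities
-/

set_option autoImplicit false

open Matrix

namespace MT

namespace GCDx

variable {K : Type} [Field K] {n : ℕ}

/-- a block of a matrix -/
def blk (p q : Fin n → Prop) :
    Matrix (Fin n) (Fin n) K →ₗ[K] Matrix {j // p j} {j // q j} K where
  toFun A := A.submatrix Subtype.val Subtype.val
  map_add' _ _ := rfl
  map_smul' _ _ := rfl

theorem blk_apply (p q : Fin n → Prop) (A : Matrix (Fin n) (Fin n) K) (i : {j // p j})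
    (j : {j // q j}) : blk p q A i j = A i.1 j.1 := rfl

theorem blk_mul (p q r : Fin n → Prop) [DecidablePred r] (A B : Matrix (Fin n) (Fin n) K)
    (h : ∀ i j k, p i → q j → A i k ≠ 0 → B k j ≠ 0 → r k) :
    blk p q (A * B) = blk p r A * blk r q B := by
  ext i j
  rw [blk_apply, Matrix.mul_apply, Matrix.mul_apply]
  have h1 : ∑ k, A i.1 k * B k j.1 = ∑ k ∈ Finset.univ.filter r, A i.1 k * B k j.1 := by
    symm
    apply Finset.sum_filter_of_ne
    intro k _ hk
    exact h i.1 j.1 k i.2 j.2 (left_ne_zero_of_mul hk) (right_ne_zero_of_mul hk)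
  rw [h1]
  exact Finset.sum_subtype (Finset.univ.filter r) (p := r) (fun x => by simp)
    (fun k => A i.1 k * B k j.1)

theorem blk_zero (p q : Fin n → Prop) (A B C : Matrix (Fin n) (Fin n) K)
    (h : ∀ i j k l, p i → q j → A i k ≠ 0 → B k l ≠ 0 → C l j ≠ 0 → False) :
    blk p q (A * B * C) = 0 := by
  ext i j
  rw [blk_apply, Matrix.mul_apply, Matrix.zero_apply]
  apply Finset.sum_eq_zero
  intro l _
  rw [Matrix.mul_apply, Finset.sum_mul]
  apply Finset.sum_eq_zero
  intro k _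
  by_contra hne
  have h1 := left_ne_zero_of_mul hne
  exact h i.1 j.1 k l i.2 j.2 (left_ne_zero_of_mul h1) (right_ne_zero_of_mul h1)
    (right_ne_zero_of_mul hne)

theorem blk_zero2 (p q : Fin n → Prop) (A B : Matrix (Fin n) (Fin n) K)
    (h : ∀ i j k, p i → q j → A i k ≠ 0 → B k j ≠ 0 → False) :
    blk p q (A * B) = 0 := by
  ext i j
  rw [blk_apply, Matrix.mul_apply, Matrix.zero_apply]
  apply Finset.sum_eq_zero
  intro k _
  by_contra hne
  exact h i.1 j.1 k i.2 j.2 (left_ne_zero_of_mul hne) (right_ne_zero_of_mul hne)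

theorem cmp_ne {d : Fin n → ℤ} {x : ℤ} {A : Matrix (Fin n) (Fin n) K} {i j : Fin n}
    (h : cmp d x A i j ≠ 0) : d i - d j = x ∧ A i j ≠ 0 := by
  unfold cmp at h
  rw [Matrix.of_apply] at h
  by_cases hd : d i - d j = x
  · rw [if_pos hd] at h; exact ⟨hd, h⟩
  · rw [if_neg hd] at h; exact absurd rfl h

theorem cmp_at {d : Fin n → ℤ} {x : ℤ} {A : Matrix (Fin n) (Fin n) K} {i j : Fin n}
    (h : d i - d j = x) : cmp d x A i j = A i j := by
  unfold cmp
  rw [Matrix.of_apply, if_pos h]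

/-- homogeneous matrices -/
def Hom (s d : Fin n → ℤ) (x y : ℤ) (X : Matrix (Fin n) (Fin n) K) : Prop :=
  ∀ i j, X i j ≠ 0 → s i - s j = x ∧ d i - d j = y

theorem hom_cmp (s d : Fin n → ℤ) (x y : ℤ) (A : Matrix (Fin n) (Fin n) K) :
    Hom s d x y (cmp s x (cmp d y A)) := by
  intro i j h
  obtain ⟨h1, h2⟩ := cmp_ne h
  exact ⟨h1, (cmp_ne h2).1⟩

section data

/-- hypotheses on the gradings -/
structure Dat (s d : Fin n → ℤ) (a : Submodule K (Matrix (Fin n) (Fin n) K)) : Prop where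
  brk : Brk a
  cs : ∀ A ∈ a, ∀ x, cmp s x A ∈ a
  cd : ∀ A ∈ a, ∀ x, cmp d x A ∈ a
  s1 : ∀ j, -1 ≤ s j ∧ s j ≤ 1
  sd : ∀ j, s j ≠ 0 → d j = 0

/-- the top piece -/
abbrev P (s : Fin n → ℤ) : Fin n → Prop := fun j => s j = 1

/-- the pieces of the middle piece -/
abbrev Q (s d : Fin n → ℤ) (z : ℤ) : Fin n → Prop := fun j => s j = 0 ∧ d j = z

/-- maps from a middle piece to the top piece -/
def Bp (s d : Fin n → ℤ) (a : Submodule K (Matrix (Fin n) (Fin n) K)) (z : ℤ) :
    Submodule K (Matrix {j // P s j} {j // Q s d z j} K) := a.map (blk (P s) (Q s d z))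

/-- maps from the top piece to a middle piece -/
def Bm (s d : Fin n → ℤ) (a : Submodule K (Matrix (Fin n) (Fin n) K)) (z : ℤ) :
    Submodule K (Matrix {j // Q s d z j} {j // P s j} K) := a.map (blk (Q s d z) (P s))

/-- maps from the top piece to itself -/
def Ls (s : Fin n → ℤ) (a : Submodule K (Matrix (Fin n) (Fin n) K)) :
    Submodule K (Matrix {j // P s j} {j // P s j} K) := a.map (blk (P s) (P s))

variable {s d : Fin n → ℤ} {a : Submodule K (Matrix (Fin n) (Fin n) K)}

theorem Bp_hom (D : Dat s d a) {z : ℤ} {m : Matrix {j // P s j} {j // Q s d z j} K}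
    (hm : m ∈ Bp s d a z) : ∃ X ∈ a, Hom s d 1 (-z) X ∧ blk (P s) (Q s d z) X = m := by
  obtain ⟨A, hA, rfl⟩ := Submodule.mem_map.mp hm
  refine ⟨cmp s 1 (cmp d (-z) A), D.cs _ (D.cd _ hA _) _, hom_cmp _ _ _ _ _, ?_⟩
  ext ⟨i, hi⟩ ⟨j, hj, hj'⟩
  have hi' : s i = 1 := hi
  have h0 := D.sd i (by omega)
  rw [blk_apply, blk_apply, cmp_at (by show s i - s j = 1; omega),
    cmp_at (by show d i - d j = -z; omega)]

theorem Bm_hom (D : Dat s d a) {z : ℤ} {m : Matrix {j // Q s d z j} {j // P s j} K}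
    (hm : m ∈ Bm s d a z) : ∃ X ∈ a, Hom s d (-1) z X ∧ blk (Q s d z) (P s) X = m := by
  obtain ⟨A, hA, rfl⟩ := Submodule.mem_map.mp hm
  refine ⟨cmp s (-1) (cmp d z A), D.cs _ (D.cd _ hA _) _, hom_cmp _ _ _ _ _, ?_⟩
  ext ⟨j, hj, hj'⟩ ⟨i, hi⟩
  have hi' : s i = 1 := hi
  have h0 := D.sd i (by omega)
  rw [blk_apply, blk_apply, cmp_at (by show s j - s i = -1; omega),
    cmp_at (by show d j - d i = z; omega)]

theorem Ls_hom (D : Dat s d a) {m : Matrix {j // P s j} {j // P s j} K}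
    (hm : m ∈ Ls s a) : ∃ X ∈ a, Hom s d 0 0 X ∧ blk (P s) (P s) X = m := by
  obtain ⟨A, hA, rfl⟩ := Submodule.mem_map.mp hm
  refine ⟨cmp s 0 (cmp d 0 A), D.cs _ (D.cd _ hA _) _, hom_cmp _ _ _ _ _, ?_⟩
  ext ⟨j, hj⟩ ⟨i, hi⟩
  have hi' : s i = 1 := hi
  have hj' : s j = 1 := hj
  have h0 := D.sd i (by omega)
  have h1 := D.sd j (by omega)
  rw [blk_apply, blk_apply, cmp_at (by show s j - s i = 0; omega),
    cmp_at (by show d j - d i = 0; omega)]

theorem C1 (D : Dat s d a) {e z : ℤ} (h1 : z ≠ e) (h2 : z + e ≠ 0)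
    {x' : Matrix {j // P s j} {j // Q s d e j} K} {y : Matrix {j // Q s d e j} {j // P s j} K}
    {x : Matrix {j // P s j} {j // Q s d z j} K} (hx' : x' ∈ Bp s d a e) (hy : y ∈ Bm s d a e)
    (hx : x ∈ Bp s d a z) : x' * y * x ∈ Bp s d a z := by
  obtain ⟨X', hX', gX', rfl⟩ := Bp_hom D hx'
  obtain ⟨Y, hY, gY, rfl⟩ := Bm_hom D hy
  obtain ⟨X, hX, gX, rfl⟩ := Bp_hom D hx
  refine Submodule.mem_map.mpr ⟨(X' * Y - Y * X') * X - X * (X' * Y - Y * X'),
    D.brk _ (D.brk _ hX' _ hY) _ hX, ?_⟩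
  have e1 : blk (P s) (Q s d z) (X' * Y * X) = blk (P s) (Q s d e) X' *
      blk (Q s d e) (P s) Y * blk (P s) (Q s d z) X := by
    rw [Matrix.mul_assoc X' Y X, blk_mul (P s) (Q s d z) (Q s d e) X' (Y * X) ?_,
      blk_mul (Q s d e) (Q s d z) (P s) Y X ?_, Matrix.mul_assoc]
    · intro i j k hi hj hik _
      obtain ⟨g1, g2⟩ := gY i k hik
      have := hi.1
      show s k = 1
      omega
    · intro i j k hi hj hik _
      have hi' : s i = 1 := hi
      obtain ⟨g1, g2⟩ := gX' i k hik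
      have h0 := D.sd i (by omega)
      exact ⟨by omega, by omega⟩
  have e2 : blk (P s) (Q s d z) (Y * X' * X) = 0 := by
    refine blk_zero _ _ _ _ _ fun i j k l hi hj hik _ _ => ?_
    obtain ⟨g1, g2⟩ := gY i k hik
    have hi' : s i = 1 := hi
    have := D.s1 k
    omega
  have e3 : blk (P s) (Q s d z) (X * X' * Y) = 0 := by
    refine blk_zero _ _ _ _ _ fun i j k l hi hj hik hkl hlj => ?_
    obtain ⟨g1, g2⟩ := gX i k hik
    obtain ⟨g3, g4⟩ := gX' k l hkl
    obtain ⟨g5, g6⟩ := gY l j hlj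
    have hi' : s i = 1 := hi
    obtain ⟨hj1, hj2⟩ := hj
    have h0 := D.sd l (by omega)
    omega
  have e4 : blk (P s) (Q s d z) (X * Y * X') = 0 := by
    refine blk_zero _ _ _ _ _ fun i j k l hi hj hik hkl hlj => ?_
    obtain ⟨g5, g6⟩ := gX' l j hlj
    obtain ⟨hj1, hj2⟩ := hj
    have h0 := D.sd l (by omega)
    omega
  simp only [Matrix.sub_mul, Matrix.mul_sub, ← Matrix.mul_assoc, map_sub, e1, e2, e3, e4,
    sub_zero]

theorem C2 (D : Dat s d a) {e z : ℤ} (h1 : z ≠ e) (h2 : z + e ≠ 0)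
    {x : Matrix {j // P s j} {j // Q s d e j} K} {y' : Matrix {j // Q s d e j} {j // P s j} K}
    {y : Matrix {j // Q s d z j} {j // P s j} K} (hx : x ∈ Bp s d a e) (hy' : y' ∈ Bm s d a e)
    (hy : y ∈ Bm s d a z) : y * x * y' ∈ Bm s d a z := by
  obtain ⟨X, hX, gX, rfl⟩ := Bp_hom D hx
  obtain ⟨Y', hY', gY', rfl⟩ := Bm_hom D hy'
  obtain ⟨Y, hY, gY, rfl⟩ := Bm_hom D hy
  refine Submodule.mem_map.mpr ⟨Y * (X * Y' - Y' * X) - (X * Y' - Y' * X) * Y,
    D.brk _ hY _ (D.brk _ hX _ hY'), ?_⟩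
  have e1 : blk (Q s d z) (P s) (Y * X * Y') = blk (Q s d z) (P s) Y *
      blk (P s) (Q s d e) X * blk (Q s d e) (P s) Y' := by
    rw [Matrix.mul_assoc Y X Y', blk_mul (Q s d z) (P s) (P s) Y (X * Y') ?_,
      blk_mul (P s) (P s) (Q s d e) X Y' ?_, Matrix.mul_assoc]
    · intro i j k hi hj hik _
      obtain ⟨g1, g2⟩ := gX i k hik
      have hi' : s i = 1 := hi
      have h0 := D.sd i (by omega)
      exact ⟨by omega, by omega⟩
    · intro i j k hi hj hik _
      obtain ⟨g1, g2⟩ := gY i k hik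
      have := hi.1
      show s k = 1
      omega
  have e2 : blk (Q s d z) (P s) (Y * Y' * X) = 0 := by
    refine blk_zero _ _ _ _ _ fun i j k l hi hj _ _ hlj => ?_
    obtain ⟨g1, g2⟩ := gX l j hlj
    have hj' : s j = 1 := hj
    have := D.s1 l
    omega
  have e3 : blk (Q s d z) (P s) (X * Y' * Y) = 0 := by
    refine blk_zero _ _ _ _ _ fun i j k l hi hj hik hkl hlj => ?_
    obtain ⟨g1, g2⟩ := gX i k hik
    obtain ⟨g3, g4⟩ := gY' k l hkl
    obtain ⟨g5, g6⟩ := gY l j hlj
    have hj' : s j = 1 := hj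
    obtain ⟨hi1, hi2⟩ := hi
    have h0 := D.sd k (by omega)
    have h3 := D.sd j (by omega)
    omega
  have e4 : blk (Q s d z) (P s) (Y' * X * Y) = 0 := by
    refine blk_zero _ _ _ _ _ fun i j k l hi hj hik hkl hlj => ?_
    obtain ⟨g1, g2⟩ := gY' i k hik
    obtain ⟨hi1, hi2⟩ := hi
    have h0 := D.sd k (by omega)
    omega
  simp only [Matrix.sub_mul, Matrix.mul_sub, ← Matrix.mul_assoc, map_sub, e1, e2, e3, e4,
    sub_zero]

/-- `E` -/
def Es (s d : Fin n → ℤ) (a : Submodule K (Matrix (Fin n) (Fin n) K)) (e : ℤ) :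
    Submodule K (Matrix {j // P s j} {j // P s j} K) :=
  Submodule.span K {m | ∃ x ∈ Bp s d a e, ∃ y ∈ Bm s d a e, m = x * y}

/-- `F` -/
def Fs (s d : Fin n → ℤ) (a : Submodule K (Matrix (Fin n) (Fin n) K)) (u e : ℤ) :
    Submodule K (Matrix {j // P s j} {j // P s j} K) :=
  Submodule.span K {m | ∃ x ∈ Es s d a u, ∃ y ∈ Es s d a e, m = x * y}

theorem C1' (D : Dat s d a) {e z : ℤ} (h1 : z ≠ e) (h2 : z + e ≠ 0)
    {ε : Matrix {j // P s j} {j // P s j} K}
    {x : Matrix {j // P s j} {j // Q s d z j} K} (hε : ε ∈ Es s d a e)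
    (hx : x ∈ Bp s d a z) : ε * x ∈ Bp s d a z := by
  induction hε using Submodule.span_induction with
  | mem m hm =>
    obtain ⟨x', hx', y, hy, rfl⟩ := hm
    exact C1 D h1 h2 hx' hy hx
  | zero => rw [Matrix.zero_mul]; exact Submodule.zero_mem _
  | add u v _ _ hu hv => rw [Matrix.add_mul]; exact Submodule.add_mem _ hu hv
  | smul c u _ hu => rw [Matrix.smul_mul]; exact Submodule.smul_mem _ c hu

theorem C2' (D : Dat s d a) {e z : ℤ} (h1 : z ≠ e) (h2 : z + e ≠ 0)
    {ε : Matrix {j // P s j} {j // P s j} K}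
    {y : Matrix {j // Q s d z j} {j // P s j} K} (hε : ε ∈ Es s d a e)
    (hy : y ∈ Bm s d a z) : y * ε ∈ Bm s d a z := by
  induction hε using Submodule.span_induction with
  | mem m hm =>
    obtain ⟨x, hx, y', hy', rfl⟩ := hm
    rw [← Matrix.mul_assoc]
    exact C2 D h1 h2 hx hy' hy
  | zero => rw [Matrix.mul_zero]; exact Submodule.zero_mem _
  | add u v _ _ hu hv => rw [Matrix.mul_add]; exact Submodule.add_mem _ hu hv
  | smul c u _ hu => rw [Matrix.mul_smul]; exact Submodule.smul_mem _ c hu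

/-- `E e * E z ≤ E z` -/
theorem EEl (D : Dat s d a) {e z : ℤ} (h1 : z ≠ e) (h2 : z + e ≠ 0)
    {ε δ : Matrix {j // P s j} {j // P s j} K} (hε : ε ∈ Es s d a e) (hδ : δ ∈ Es s d a z) :
    ε * δ ∈ Es s d a z := by
  induction hδ using Submodule.span_induction with
  | mem m hm =>
    obtain ⟨x, hx, y, hy, rfl⟩ := hm
    rw [← Matrix.mul_assoc]
    exact Submodule.subset_span ⟨_, C1' D h1 h2 hε hx, y, hy, rfl⟩
  | zero => rw [Matrix.mul_zero]; exact Submodule.zero_mem _
  | add u v _ _ hu hv => rw [Matrix.mul_add]; exact Submodule.add_mem _ hu hv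
  | smul c u _ hu => rw [Matrix.mul_smul]; exact Submodule.smul_mem _ c hu

/-- `E z * E e ≤ E z` -/
theorem EEr (D : Dat s d a) {e z : ℤ} (h1 : z ≠ e) (h2 : z + e ≠ 0)
    {ε δ : Matrix {j // P s j} {j // P s j} K} (hε : ε ∈ Es s d a e) (hδ : δ ∈ Es s d a z) :
    δ * ε ∈ Es s d a z := by
  induction hδ using Submodule.span_induction with
  | mem m hm =>
    obtain ⟨x, hx, y, hy, rfl⟩ := hm
    rw [Matrix.mul_assoc]
    exact Submodule.subset_span ⟨x, hx, _, C2' D h1 h2 hε hy, rfl⟩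
  | zero => rw [Matrix.zero_mul]; exact Submodule.zero_mem _
  | add u v _ _ hu hv => rw [Matrix.add_mul]; exact Submodule.add_mem _ hu hv
  | smul c u _ hu => rw [Matrix.smul_mul]; exact Submodule.smul_mem _ c hu

variable {u e : ℤ}

theorem F_le_e (D : Dat s d a) (h1 : e ≠ u) (h2 : e + u ≠ 0)
    {x : Matrix {j // P s j} {j // P s j} K} (hx : x ∈ Fs s d a u e) : x ∈ Es s d a e := by
  induction hx using Submodule.span_induction with
  | mem m hm =>
    obtain ⟨x, hx, y, hy, rfl⟩ := hm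
    exact EEl D h1 h2 hx hy
  | zero => exact Submodule.zero_mem _
  | add u v _ _ hu hv => exact Submodule.add_mem _ hu hv
  | smul c u _ hu => exact Submodule.smul_mem _ c hu

theorem F_le_u (D : Dat s d a) (h1 : e ≠ u) (h2 : e + u ≠ 0)
    {x : Matrix {j // P s j} {j // P s j} K} (hx : x ∈ Fs s d a u e) : x ∈ Es s d a u := by
  induction hx using Submodule.span_induction with
  | mem m hm =>
    obtain ⟨x, hx, y, hy, rfl⟩ := hm
    exact EEr D (by omega) (by omega) hy hx
  | zero => exact Submodule.zero_mem _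
  | add u v _ _ hu hv => exact Submodule.add_mem _ hu hv
  | smul c u _ hu => exact Submodule.smul_mem _ c hu

theorem FF (D : Dat s d a) (h1 : e ≠ u) (h2 : e + u ≠ 0)
    {x y : Matrix {j // P s j} {j // P s j} K} (hx : x ∈ Fs s d a u e)
    (hy : y ∈ Fs s d a u e) : x * y ∈ Fs s d a u e := by
  induction hy using Submodule.span_induction with
  | mem m hm =>
    obtain ⟨y1, hy1, y2, hy2, rfl⟩ := hm
    rw [← Matrix.mul_assoc]
    exact Submodule.subset_span ⟨_, EEl D (by omega) (by omega) (F_le_e D h1 h2 hx) hy1, y2, hy2,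
      rfl⟩
  | zero => rw [Matrix.mul_zero]; exact Submodule.zero_mem _
  | add u v _ _ hu hv => rw [Matrix.mul_add]; exact Submodule.add_mem _ hu hv
  | smul c u _ hu => rw [Matrix.mul_smul]; exact Submodule.smul_mem _ c hu

theorem FB (D : Dat s d a) (h1 : e ≠ u) (h2 : e + u ≠ 0) {z : ℤ}
    {x : Matrix {j // P s j} {j // P s j} K} (hx : x ∈ Fs s d a u e)
    {y : Matrix {j // P s j} {j // Q s d z j} K} (hy : y ∈ Bp s d a z) :
    x * y ∈ Bp s d a z := by
  by_cases hz : z ≠ e ∧ z + e ≠ 0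
  · exact C1' D hz.1 hz.2 (F_le_e D h1 h2 hx) hy
  · exact C1' D (by omega) (by omega) (F_le_u D h1 h2 hx) hy

theorem BF (D : Dat s d a) (h1 : e ≠ u) (h2 : e + u ≠ 0) {z : ℤ}
    {x : Matrix {j // P s j} {j // P s j} K} (hx : x ∈ Fs s d a u e)
    {y : Matrix {j // Q s d z j} {j // P s j} K} (hy : y ∈ Bm s d a z) :
    y * x ∈ Bm s d a z := by
  by_cases hz : z ≠ e ∧ z + e ≠ 0
  · exact C2' D hz.1 hz.2 (F_le_e D h1 h2 hx) hy
  · exact C2' D (by omega) (by omega) (F_le_u D h1 h2 hx) hy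

theorem FEF (D : Dat s d a) (h1 : e ≠ u) (h2 : e + u ≠ 0) {z : ℤ}
    {x y ε : Matrix {j // P s j} {j // P s j} K} (hx : x ∈ Fs s d a u e)
    (hy : y ∈ Fs s d a u e) (hε : ε ∈ Es s d a z) : x * ε * y ∈ Fs s d a u e := by
  by_cases hz : z ≠ e ∧ z + e ≠ 0
  · have h3 : x * ε ∈ Fs s d a u e := by
      induction hx using Submodule.span_induction with
      | mem m hm =>
        obtain ⟨y1, hy1, y2, hy2, rfl⟩ := hm
        rw [Matrix.mul_assoc]
        exact Submodule.subset_span ⟨y1, hy1, _, EEr D (by omega) (by omega) hε hy2, rfl⟩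
      | zero => rw [Matrix.zero_mul]; exact Submodule.zero_mem _
      | add u v _ _ hu hv => rw [Matrix.add_mul]; exact Submodule.add_mem _ hu hv
      | smul c u _ hu => rw [Matrix.smul_mul]; exact Submodule.smul_mem _ c hu
    exact FF D h1 h2 h3 hy
  · have h3 : ε * y ∈ Fs s d a u e := by
      induction hy using Submodule.span_induction with
      | mem m hm =>
        obtain ⟨y1, hy1, y2, hy2, rfl⟩ := hm
        rw [← Matrix.mul_assoc]
        exact Submodule.subset_span ⟨_, EEl D (by omega) (by omega) hε hy1, y2, hy2, rfl⟩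
      | zero => rw [Matrix.mul_zero]; exact Submodule.zero_mem _
      | add u v _ _ hu hv => rw [Matrix.mul_add]; exact Submodule.add_mem _ hu hv
      | smul c u _ hu => rw [Matrix.mul_smul]; exact Submodule.smul_mem _ c hu
    rw [Matrix.mul_assoc]
    exact FF D h1 h2 hx h3

theorem LE (D : Dat s d a) {z : ℤ} {m ε : Matrix {j // P s j} {j // P s j} K}
    (hm : m ∈ Ls s a) (hε : ε ∈ Es s d a z) : m * ε - ε * m ∈ Es s d a z := by
  obtain ⟨Z, hZ, gZ, rfl⟩ := Ls_hom D hm
  induction hε using Submodule.span_induction with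
  | mem m hm =>
    obtain ⟨x, hx, y, hy, rfl⟩ := hm
    obtain ⟨X, hX, gX, rfl⟩ := Bp_hom D hx
    obtain ⟨Y, hY, gY, rfl⟩ := Bm_hom D hy
    have e1 : blk (P s) (Q s d z) (Z * X - X * Z) = blk (P s) (P s) Z * blk (P s) (Q s d z) X -
        blk (P s) (Q s d z) X * blk (Q s d z) (Q s d z) Z := by
      rw [map_sub, blk_mul (P s) (Q s d z) (P s) Z X, blk_mul (P s) (Q s d z) (Q s d z) X Z]
      · intro i j k hi hj hik _
        have hi' : s i = 1 := hi
        obtain ⟨g1, g2⟩ := gX i k hik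
        have h0 := D.sd i (by omega)
        exact ⟨by omega, by omega⟩
      · intro i j k hi hj hik _
        have hi' : s i = 1 := hi
        obtain ⟨g1, g2⟩ := gZ i k hik
        show s k = 1
        omega
    have e2 : blk (Q s d z) (P s) (Z * Y - Y * Z) = blk (Q s d z) (Q s d z) Z *
        blk (Q s d z) (P s) Y - blk (Q s d z) (P s) Y * blk (P s) (P s) Z := by
      rw [map_sub, blk_mul (Q s d z) (P s) (Q s d z) Z Y, blk_mul (Q s d z) (P s) (P s) Y Z]
      · intro i j k hi hj hik _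
        obtain ⟨g1, g2⟩ := gY i k hik
        have := hi.1
        show s k = 1
        omega
      · intro i j k hi hj hik _
        obtain ⟨g1, g2⟩ := gZ i k hik
        obtain ⟨hi1, hi2⟩ := hi
        exact ⟨by omega, by omega⟩
    have e3 : blk (P s) (P s) Z * (blk (P s) (Q s d z) X * blk (Q s d z) (P s) Y) -
        blk (P s) (Q s d z) X * blk (Q s d z) (P s) Y * blk (P s) (P s) Z =
        blk (P s) (Q s d z) (Z * X - X * Z) * blk (Q s d z) (P s) Y +
        blk (P s) (Q s d z) X * blk (Q s d z) (P s) (Z * Y - Y * Z) := by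
      rw [e1, e2]
      simp only [Matrix.sub_mul, Matrix.mul_sub, Matrix.mul_assoc]
      abel
    rw [e3]
    refine Submodule.add_mem _ ?_ ?_
    · exact Submodule.subset_span ⟨_, Submodule.mem_map_of_mem (D.brk _ hZ _ hX), _, hy, rfl⟩
    · exact Submodule.subset_span ⟨_, hx, _, Submodule.mem_map_of_mem (D.brk _ hZ _ hY), rfl⟩
  | zero => rw [Matrix.mul_zero, Matrix.zero_mul, sub_zero]; exact Submodule.zero_mem _
  | add u v _ _ hu hv =>
    have h1 : blk (P s) (P s) Z * (u + v) - (u + v) * blk (P s) (P s) Z =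
        (blk (P s) (P s) Z * u - u * blk (P s) (P s) Z) +
        (blk (P s) (P s) Z * v - v * blk (P s) (P s) Z) := by
      rw [Matrix.mul_add, Matrix.add_mul]; abel
    rw [h1]
    exact Submodule.add_mem _ hu hv
  | smul c u _ hu =>
    have h1 : blk (P s) (P s) Z * (c • u) - (c • u) * blk (P s) (P s) Z =
        c • (blk (P s) (P s) Z * u - u * blk (P s) (P s) Z) := by
      rw [Matrix.mul_smul, Matrix.smul_mul, smul_sub]
    rw [h1]
    exact Submodule.smul_mem _ c hu

theorem LF (D : Dat s d a) {m x : Matrix {j // P s j} {j // P s j} K}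
    (hm : m ∈ Ls s a) (hx : x ∈ Fs s d a u e) : m * x - x * m ∈ Fs s d a u e := by
  induction hx using Submodule.span_induction with
  | mem x hx =>
    obtain ⟨x, hx, y, hy, rfl⟩ := hx
    have h1 : m * (x * y) - x * y * m = (m * x - x * m) * y + x * (m * y - y * m) := by
      simp only [Matrix.sub_mul, Matrix.mul_sub, Matrix.mul_assoc]
      abel
    rw [h1]
    exact Submodule.add_mem _ (Submodule.subset_span ⟨_, LE D hm hx, _, hy, rfl⟩)
      (Submodule.subset_span ⟨_, hx, _, LE D hm hy, rfl⟩)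
  | zero => rw [Matrix.mul_zero, Matrix.zero_mul, sub_zero]; exact Submodule.zero_mem _
  | add u v _ _ hu hv =>
    have h1 : m * (u + v) - (u + v) * m = (m * u - u * m) + (m * v - v * m) := by
      rw [Matrix.mul_add, Matrix.add_mul]; abel
    rw [h1]
    exact Submodule.add_mem _ hu hv
  | smul c u _ hu =>
    have h1 : m * (c • u) - (c • u) * m = c • (m * u - u * m) := by
      rw [Matrix.mul_smul, Matrix.smul_mul, smul_sub]
    rw [h1]
    exact Submodule.smul_mem _ c hu

end data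

/-! ### vectors -/

/-- extension by zero -/
def ex (p : Fin n → Prop) [DecidablePred p] : ({j // p j} → K) →ₗ[K] (Fin n → K) where
  toFun v j := if h : p j then v ⟨j, h⟩ else 0
  map_add' u v := by
    funext j
    simp only [Pi.add_apply]
    split_ifs
    · rfl
    · rw [add_zero]
  map_smul' c v := by
    funext j
    simp only [Pi.smul_apply, RingHom.id_apply]
    split_ifs
    · rfl
    · rw [smul_zero]

/-- restriction -/
def re (p : Fin n → Prop) : (Fin n → K) →ₗ[K] ({j // p j} → K) where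
  toFun v j := v j.1
  map_add' _ _ := rfl
  map_smul' _ _ := rfl

theorem ex_apply (p : Fin n → Prop) [DecidablePred p] (v : {j // p j} → K) (j : Fin n)
    (h : p j) : ex p v j = v ⟨j, h⟩ := by
  show (if h : p j then v ⟨j, h⟩ else 0) = _
  rw [dif_pos h]

theorem ex_ne (p : Fin n → Prop) [DecidablePred p] (v : {j // p j} → K) {j : Fin n}
    (h : ex p v j ≠ 0) : p j := by
  by_contra hc
  apply h
  show (if h : p j then v ⟨j, h⟩ else 0) = _
  rw [dif_neg hc]

theorem re_ex (p : Fin n → Prop) [DecidablePred p] (v : {j // p j} → K) : re p (ex p v) = v := by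
  funext j
  exact ex_apply p v j.1 j.2

theorem ex_re (p : Fin n → Prop) [DecidablePred p] (v : Fin n → K) (hv : ∀ j, v j ≠ 0 → p j) :
    ex p (re p v) = v := by
  funext j
  by_cases h : p j
  · rw [ex_apply p _ j h]
    rfl
  · have h1 : v j = 0 := by
      by_contra hc
      exact h (hv j hc)
    rw [h1]
    by_contra hc
    exact h (ex_ne p _ hc)

theorem blk_mulVec (p q : Fin n → Prop) [DecidablePred q] (A : Matrix (Fin n) (Fin n) K)
    (v : {j // q j} → K) : (blk p q A).mulVec v = re p (A.mulVec (ex q v)) := by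
  funext i
  show ∑ j : {j // q j}, A i.1 j.1 * v j = ∑ j, A i.1 j * ex q v j
  have h1 : ∑ j, A i.1 j * ex q v j = ∑ j ∈ Finset.univ.filter q, A i.1 j * ex q v j := by
    symm
    apply Finset.sum_filter_of_ne
    intro j _ hj
    exact ex_ne q v (right_ne_zero_of_mul hj)
  rw [h1, Finset.sum_subtype (Finset.univ.filter q) (p := q) (fun x => by simp)
    (fun j => A i.1 j * ex q v j)]
  refine Finset.sum_congr rfl fun j _ => ?_
  rw [ex_apply q v j.1 j.2]

section sp

variable {s d : Fin n → ℤ} {a : Submodule K (Matrix (Fin n) (Fin n) K)}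

theorem S1 (h1 : ∀ v : Fin n → K, (∀ j, v j ≠ 0 → s j = 0) →
      v ∈ Submodule.span K {u | ∃ A ∈ a, cmp s (-1) A = A ∧ ∃ x : Fin n → K,
        (∀ j, x j ≠ 0 → s j = 1) ∧ u = A.mulVec x}) (z : ℤ) (v : {j // Q s d z j} → K) :
    v ∈ Submodule.span K {u | ∃ y ∈ Bm s d a z, ∃ u' : {j // P s j} → K, u = y.mulVec u'} := by
  have h2 := h1 (ex (Q s d z) v) (fun j hj => (ex_ne _ v hj).1)
  have h3 : v ∈ (Submodule.span K {u | ∃ A ∈ a, cmp s (-1) A = A ∧ ∃ x : Fin n → K,
        (∀ j, x j ≠ 0 → s j = 1) ∧ u = A.mulVec x}).map (re (Q s d z)) :=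
    ⟨_, h2, re_ex _ v⟩
  rw [Submodule.map_span] at h3
  refine Submodule.span_mono ?_ h3
  rintro _ ⟨_, ⟨A, hA, -, x, hx, rfl⟩, rfl⟩
  refine ⟨_, Submodule.mem_map_of_mem hA, re (P s) x, ?_⟩
  rw [blk_mulVec, ex_re (P s) x hx]

theorem S2 (h1 : ∀ v : Fin n → K, (∀ j, v j ≠ 0 → s j = 0) →
      (∀ A ∈ a, cmp s 1 A = A → A.mulVec v = 0) → v = 0) (z : ℤ) (v : {j // Q s d z j} → K)
    (hv : ∀ x ∈ Bp s d a z, x.mulVec v = 0) : v = 0 := by
  have h2 : ex (Q s d z) v = 0 := by
    refine h1 _ (fun j hj => (ex_ne _ v hj).1) fun A hA hA1 => ?_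
    funext i
    by_cases hi : s i = 1
    · have h3 := congrFun (hv _ (Submodule.mem_map_of_mem hA)) ⟨i, hi⟩
      rw [blk_mulVec] at h3
      exact h3
    · show ∑ j, A i j * ex (Q s d z) v j = 0
      apply Finset.sum_eq_zero
      intro j _
      by_contra hne
      have h3 := left_ne_zero_of_mul hne
      have h4 := (ex_ne _ v (right_ne_zero_of_mul hne)).1
      rw [← hA1] at h3
      have h5 := (cmp_ne h3).1
      omega
  rw [← re_ex (Q s d z) v, h2, map_zero]

theorem Lirr (tpi : ST_TPI) (hb : Brk a) (hi : LIrr a) (hc : ∀ A ∈ a, ∀ x, cmp s x A ∈ a)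
    (hs : ∀ j, s j ≤ 1) (U : Submodule K ({j // P s j} → K))
    (hU : ∀ z ∈ (Ls s a : Set (Matrix {j // P s j} {j // P s j} K)), ∀ v ∈ U, z.mulVec v ∈ U) :
    U = ⊥ ∨ U = ⊤ := by
  rcases tpi K n a s 1 hb hi hc hs (U.map (ex (P s))) (by
    rintro _ ⟨v, _, rfl⟩ j hj
    exact ex_ne _ v hj) (by
    rintro A hA hA0 _ ⟨v, hv, rfl⟩
    refine ⟨(blk (P s) (P s) A).mulVec v, hU _ (Submodule.mem_map_of_mem hA) v hv, ?_⟩
    rw [blk_mulVec]
    apply ex_re
    intro i hi
    by_contra hc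
    apply hi
    show ∑ j, A i j * ex (P s) v j = 0
    apply Finset.sum_eq_zero
    intro j _
    by_contra hne
    have h3 := left_ne_zero_of_mul hne
    have h4 := ex_ne _ v (right_ne_zero_of_mul hne)
    rw [← hA0] at h3
    have h5 := (cmp_ne h3).1
    have h4' : s j = 1 := h4
    apply hc
    show s i = 1
    omega) with h | h
  · left
    rw [eq_bot_iff]
    intro v hv
    have h1 : ex (P s) v ∈ U.map (ex (P s)) := Submodule.mem_map_of_mem hv
    rw [h, Submodule.mem_bot] at h1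
    rw [Submodule.mem_bot, ← re_ex (P s) v, h1, map_zero]
  · right
    rw [eq_top_iff]
    intro v _
    obtain ⟨w, hw, hw'⟩ := h (ex (P s) v) (fun j hj => ex_ne _ v hj)
    rw [← re_ex (P s) v, ← hw', re_ex]
    exact hw

end sp

end GCDx

open GCDx

theorem st_GCD (alg : ST_ALG) (cnt : ST_CNT) (rk1 : ST_RK1) (spb : ST_SPB) (tpi : ST_TPI)
    (fin : ST_FIN) : ST_GCD := by
  intro K _ _ _ n ε ψ s d a gs gd hs1 hex hsd htwo hcop
  have D : Dat s d a := ⟨gs.brk, gs.comp, gd.comp, fun j => abs_le.mp (hs1 j), hsd⟩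
  obtain ⟨sp1, sp2⟩ := spb K n ε ψ s a gs hs1 hex
  obtain ⟨i₀, j₀, hi₀, hj₀, hne, hne'⟩ := htwo
  set u := d i₀ with hu
  set e := d j₀ with he
  have h1 : e ≠ u := fun h => hne h.symm
  have h2 : e + u ≠ 0 := by omega
  have hL := Lirr tpi gs.brk gs.irr gs.comp (fun j => (D.s1 j).2)
  -- spans of images
  have key : ∀ (R : Submodule K (Matrix {j // P s j} {j // P s j} K)), R ≠ ⊥ →
      (∀ m ∈ (Ls s a : Set (Matrix {j // P s j} {j // P s j} K)), ∀ x ∈ R, m * x - x * m ∈ R) →
      ∀ v : {j // P s j} → K,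
      v ∈ Submodule.span K {w | ∃ x ∈ R, ∃ u', w = x.mulVec u'} := by
    intro R hR hm v
    rcases hL (Submodule.span K {w | ∃ x ∈ R, ∃ u', w = x.mulVec u'}) (by
      intro m hm' v hv
      induction hv using Submodule.span_induction with
      | mem v hv =>
        obtain ⟨x, hx, u', rfl⟩ := hv
        have h3 : m.mulVec (x.mulVec u') = (m * x - x * m).mulVec u' + x.mulVec (m.mulVec u') := by
          simp only [Matrix.mulVec_mulVec, Matrix.sub_mulVec]
          abel
        rw [h3]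
        exact Submodule.add_mem _ (Submodule.subset_span ⟨_, hm m hm' x hx, _, rfl⟩)
          (Submodule.subset_span ⟨_, hx, _, rfl⟩)
      | zero => rw [Matrix.mulVec_zero]; exact Submodule.zero_mem _
      | add x y _ _ hx hy => rw [Matrix.mulVec_add]; exact Submodule.add_mem _ hx hy
      | smul c x _ hx => rw [Matrix.mulVec_smul]; exact Submodule.smul_mem _ c hx) with h | h
    · exfalso
      apply hR
      rw [eq_bot_iff]
      intro x hx
      rw [Submodule.mem_bot]
      have h3 : ∀ u', x.mulVec u' = 0 := by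
        intro u'
        have h4 : x.mulVec u' ∈ Submodule.span K {w | ∃ x ∈ R, ∃ u', w = x.mulVec u'} :=
          Submodule.subset_span ⟨x, hx, u', rfl⟩
        rw [h, Submodule.mem_bot] at h4
        exact h4
      ext i j
      have h4 := congrFun (h3 (Pi.single j 1)) i
      rw [Matrix.mulVec_single_one] at h4
      exact h4
    · rw [h]; exact Submodule.mem_top
  -- the spaces `E z` of inner degrees are not zero
  have hE : ∀ j, s j = 0 → Es s d a (d j) ≠ ⊥ := by
    intro j hj h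
    have h3 : ∀ x ∈ Bp s d a (d j), ∀ y ∈ Bm s d a (d j), x * y = 0 := by
      intro x hx y hy
      have h4 : x * y ∈ Es s d a (d j) := Submodule.subset_span ⟨x, hx, y, hy, rfl⟩
      rw [h, Submodule.mem_bot] at h4
      exact h4
    have h4 : ∀ x ∈ Bp s d a (d j), ∀ v : {i // Q s d (d j) i} → K, x.mulVec v = 0 := by
      intro x hx v
      have h5 := S1 (d := d) sp1 (d j) v
      induction h5 using Submodule.span_induction with
      | mem v hv =>
        obtain ⟨y, hy, u', rfl⟩ := hv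
        rw [Matrix.mulVec_mulVec, h3 x hx y hy, Matrix.zero_mulVec]
      | zero => rw [Matrix.mulVec_zero]
      | add x y _ _ hx hy => rw [Matrix.mulVec_add, hx, hy, add_zero]
      | smul c x _ hx => rw [Matrix.mulVec_smul, hx, smul_zero]
    have h5 := S2 (d := d) sp2 (d j) (Pi.single ⟨j, hj, rfl⟩ 1) (fun x hx => h4 x hx _)
    have h6 := congrFun h5 ⟨j, hj, rfl⟩
    rw [Pi.single_eq_same] at h6
    exact one_ne_zero h6
  have hF : Fs s d a u e ≠ ⊥ := by
    intro h
    apply hE i₀ hi₀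
    rw [eq_bot_iff]
    intro x hx
    rw [Submodule.mem_bot]
    have h3 : ∀ y ∈ Es s d a e, x * y = 0 := by
      intro y hy
      have h4 : x * y ∈ Fs s d a u e := Submodule.subset_span ⟨x, hx, y, hy, rfl⟩
      rw [h, Submodule.mem_bot] at h4
      exact h4
    have h4 : ∀ v, x.mulVec v = 0 := by
      intro v
      have h5 := key (Es s d a e) (hE j₀ hj₀) (fun m hm x hx => LE D hm hx) v
      induction h5 using Submodule.span_induction with
      | mem v hv =>
        obtain ⟨y, hy, u', rfl⟩ := hv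
        rw [Matrix.mulVec_mulVec, h3 y hy, Matrix.zero_mulVec]
      | zero => rw [Matrix.mulVec_zero]
      | add x y _ _ hx hy => rw [Matrix.mulVec_add, hx, hy, add_zero]
      | smul c x _ hx => rw [Matrix.mulVec_smul, hx, smul_zero]
    ext i j
    have h5 := congrFun (h4 (Pi.single j 1)) i
    rw [Matrix.mulVec_single_one] at h5
    exact h5
  obtain ⟨f, hf, hff, hf0, hfx, hfs, hfk⟩ := alg K {j // P s j} (Fs s d a u e)
    (Ls s a : Set (Matrix {j // P s j} {j // P s j} K)) (fun x hx y hy => FF D h1 h2 hx hy)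
    (fun m hm x hx => LF D hm hx) hL hF
  -- spanning and kernels
  have spN : ∀ (z : ℤ) (v : {j // Q s d z j} → K), v ∈ Submodule.span K
      {w | ∃ y ∈ Bm s d a z, ∃ u' : {j // P s j} → K, w = (y * f).mulVec u'} := by
    intro z v
    have h3 := S1 (d := d) sp1 z v
    induction h3 using Submodule.span_induction with
    | mem v hv =>
      obtain ⟨y, hy, u', rfl⟩ := hv
      have h4 := hfs u'
      induction h4 using Submodule.span_induction with
      | mem v hv =>
        obtain ⟨g, hg, u'', rfl⟩ := hv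
        refine Submodule.subset_span ⟨y * g, BF D h1 h2 hg hy, u'', ?_⟩
        rw [Matrix.mulVec_mulVec, Matrix.mul_assoc]
      | zero => rw [Matrix.mulVec_zero]; exact Submodule.zero_mem _
      | add x y _ _ hx hy => rw [Matrix.mulVec_add]; exact Submodule.add_mem _ hx hy
      | smul c x _ hx => rw [Matrix.mulVec_smul]; exact Submodule.smul_mem _ c hx
    | zero => exact Submodule.zero_mem _
    | add x y _ _ hx hy => exact Submodule.add_mem _ hx hy
    | smul c x _ hx => exact Submodule.smul_mem _ c hx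
  have kerN : ∀ (z : ℤ) (v : {j // Q s d z j} → K),
      (∀ y ∈ Bp s d a z, (f * y).mulVec v = 0) → v = 0 := by
    intro z v hv
    refine S2 (d := d) sp2 z v fun x hx => hfk _ fun g hg => ?_
    have h3 := hv _ (FB D h1 h2 hg hx)
    rw [← Matrix.mul_assoc, ← Matrix.mulVec_mulVec] at h3
    exact h3
  have hdiv : ∀ z : ℤ, f.rank ∣ Fintype.card {j // Q s d z j} := by
    intro z
    refine cnt K {j // P s j} {j // Q s d z j} f
      { carrier := {x | x ∈ Bp s d a z ∧ f * x = x}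
        add_mem' := fun {x y} hx hy => ⟨Submodule.add_mem _ hx.1 hy.1, by
          rw [Matrix.mul_add, hx.2, hy.2]⟩
        zero_mem' := ⟨Submodule.zero_mem _, Matrix.mul_zero _⟩
        smul_mem' := fun c {x} hx => ⟨Submodule.smul_mem _ c hx.1, by
          rw [Matrix.mul_smul, hx.2]⟩ }
      { carrier := {x | x ∈ Bm s d a z ∧ x * f = x}
        add_mem' := fun {x y} hx hy => ⟨Submodule.add_mem _ hx.1 hy.1, by
          rw [Matrix.add_mul, hx.2, hy.2]⟩
        zero_mem' := ⟨Submodule.zero_mem _, Matrix.zero_mul _⟩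
        smul_mem' := fun c {x} hx => ⟨Submodule.smul_mem _ c hx.1, by
          rw [Matrix.smul_mul, hx.2]⟩ }
      hff (fun x hx => hx.2) (fun x hx => hx.2) ?_ ?_ ?_
    · rintro x ⟨hx, hx'⟩ y ⟨hy, hy'⟩
      obtain ⟨c, hc⟩ := hfx _ (FEF D h1 h2 hf hf (Submodule.subset_span ⟨x, hx, y, hy, rfl⟩ :
        x * y ∈ Es s d a z))
      refine ⟨c, ?_⟩
      rw [← hc]
      calc x * y = (f * (f * x)) * ((y * f) * f) := by rw [hx', hx', hy', hy']
        _ = f * (f * (x * y) * f) * f := by simp only [Matrix.mul_assoc]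
    · intro v
      refine Submodule.span_mono ?_ (spN z v)
      rintro _ ⟨y, hy, u', rfl⟩
      refine ⟨y * f, ⟨BF D h1 h2 hf hy, ?_⟩, u', rfl⟩
      rw [Matrix.mul_assoc, hff]
    · intro v hv
      refine kerN z v fun y hy => hv _ ⟨FB D h1 h2 hf hy, ?_⟩
      rw [← Matrix.mul_assoc, hff]
  have hdiv0 : f.rank ∣ Fintype.card {j // P s j} := by
    refine cnt K {j // P s j} {j // P s j} f
      { carrier := {x | x ∈ Fs s d a u e ∧ f * x = x}
        add_mem' := fun {x y} hx hy => ⟨Submodule.add_mem _ hx.1 hy.1, by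
          rw [Matrix.mul_add, hx.2, hy.2]⟩
        zero_mem' := ⟨Submodule.zero_mem _, Matrix.mul_zero _⟩
        smul_mem' := fun c {x} hx => ⟨Submodule.smul_mem _ c hx.1, by
          rw [Matrix.mul_smul, hx.2]⟩ }
      { carrier := {x | x ∈ Fs s d a u e ∧ x * f = x}
        add_mem' := fun {x y} hx hy => ⟨Submodule.add_mem _ hx.1 hy.1, by
          rw [Matrix.add_mul, hx.2, hy.2]⟩
        zero_mem' := ⟨Submodule.zero_mem _, Matrix.zero_mul _⟩
        smul_mem' := fun c {x} hx => ⟨Submodule.smul_mem _ c hx.1, by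
          rw [Matrix.smul_mul, hx.2]⟩ }
      hff (fun x hx => hx.2) (fun x hx => hx.2) ?_ ?_ ?_
    · rintro x ⟨hx, hx'⟩ y ⟨hy, hy'⟩
      obtain ⟨c, hc⟩ := hfx _ (FF D h1 h2 hx hy)
      refine ⟨c, ?_⟩
      rw [← hc]
      calc x * y = (f * x) * (y * f) := by rw [hx', hy']
        _ = f * (x * y) * f := by simp only [Matrix.mul_assoc]
    · intro v
      refine Submodule.span_mono ?_ (hfs v)
      rintro _ ⟨y, hy, u', rfl⟩
      refine ⟨y * f, ⟨FF D h1 h2 hy hf, ?_⟩, u', rfl⟩
      rw [Matrix.mul_assoc, hff]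
    · intro v hv
      refine hfk v fun y hy => hv _ ⟨FF D h1 h2 hf hy, ?_⟩
      rw [← Matrix.mul_assoc, hff]
  have hrk : f.rank = 1 := by
    refine hcop _ ?_ fun x => ?_
    · rw [← Fintype.card_subtype]
      exact hdiv0
    · rw [← Fintype.card_subtype]
      exact hdiv x
  have hB : ∀ z : ℤ, Bp s d a z = ⊤ := fun z =>
    (rk1 K {j // P s j} {j // Q s d z j} f (Fs s d a u e) hff hrk hf hfs hfk).1 (Bp s d a z)
      (fun x hx y hy => FB D h1 h2 hx hy) (kerN z)
  have hB' : ∀ z : ℤ, Bm s d a z = ⊤ := fun z =>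
    (rk1 K {j // P s j} {j // Q s d z j} f (Fs s d a u e) hff hrk hf hfs hfk).2 (Bm s d a z)
      (fun x hx y hy => BF D h1 h2 hx hy) (spN z)
  refine fin K n ε ψ s a gs hs1 hex ⟨i₀, hi₀⟩ ?_ ?_
  · intro M
    have h3 : ∀ z : ℤ, ∃ X ∈ a, Hom s d 1 (-z) X ∧
        GCDx.blk (P s) (Q s d z) X = GCDx.blk (P s) (Q s d z) M := fun z =>
      Bp_hom D (by rw [hB z]; exact Submodule.mem_top)
    choose X hX gX bX using h3
    refine ⟨∑ z ∈ Finset.univ.image d, X z, Submodule.sum_mem _ fun z _ => hX z, ?_⟩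
    intro i j hi hj
    rw [Matrix.sum_apply, Finset.sum_eq_single (d j)]
    · have h4 := congrFun (congrFun (bX (d j)) ⟨i, hi⟩) ⟨j, hj, rfl⟩
      exact h4
    · intro z _ hz
      by_contra hne
      have h4 := (gX z i j hne).2
      have h5 := hsd i (by omega)
      omega
    · intro hc
      exact absurd (Finset.mem_image_of_mem d (Finset.mem_univ j)) hc
  · intro M
    have h3 : ∀ z : ℤ, ∃ X ∈ a, Hom s d (-1) z X ∧
        GCDx.blk (Q s d z) (P s) X = GCDx.blk (Q s d z) (P s) M := fun z =>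
      Bm_hom D (by rw [hB' z]; exact Submodule.mem_top)
    choose X hX gX bX using h3
    refine ⟨∑ z ∈ Finset.univ.image d, X z, Submodule.sum_mem _ fun z _ => hX z, ?_⟩
    intro i j hi hj
    rw [Matrix.sum_apply, Finset.sum_eq_single (d i)]
    · have h4 := congrFun (congrFun (bX (d i)) ⟨i, hi, rfl⟩) ⟨j, hj⟩
      exact h4
    · intro z _ hz
      by_contra hne
      have h4 := (gX z i j hne).2
      have h5 := hsd j (by omega)
      omega
    · intro hc
      exact absurd (Finset.mem_image_of_mem d (Finset.mem_univ i)) hc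

end MT
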