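import Pool.Agent.Helper21.MT10.Stmts

/-!
# Coprime Hodge numbers: exact statements of the modules (T13)
Proofs: /team-store/wd_helper21.md
-/

set_option autoImplicit false

open Matrix

namespace MT

/-! ## A. Linear algebra -/

/-- ALG: an algebra of matrices normalised by an irreducible set of matrices contains an idempotent
`f` with `f F f = K f`. -/
def ST_ALG : Prop :=
  ∀ (K : Type) [Field K] [CharZero K] [IsAlgClosed K] (I : Type) [Fintype I] [DecidableEq I]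
    (F : Submodule K (Matrix I I K)) (L : Set (Matrix I I K)),
    (∀ x ∈ F, ∀ y ∈ F, x * y ∈ F) → (∀ z ∈ L, ∀ x ∈ F, z * x - x * z ∈ F) →
    (∀ U : Submodule K (I → K), (∀ z ∈ L, ∀ v ∈ U, z.mulVec v ∈ U) → U = ⊥ ∨ U = ⊤) → F ≠ ⊥ →
    ∃ f ∈ F, f * f = f ∧ f ≠ 0 ∧ (∀ x ∈ F, ∃ c : K, f * x * f = c • f) ∧
      (∀ v : I → K, v ∈ Submodule.span K {u | ∃ x ∈ F, ∃ u' : I → K, u = (x * f).mulVec u'}) ∧
      (∀ v : I → K, (∀ x ∈ F, (f * x).mulVec v = 0) → v = 0)

/-- CNT: counting. -/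
def ST_CNT : Prop :=
  ∀ (K : Type) [Field K] (I J : Type) [Fintype I] [DecidableEq I] [Fintype J] [DecidableEq J]
    (f : Matrix I I K) (N : Submodule K (Matrix I J K)) (N' : Submodule K (Matrix J I K)),
    f * f = f → (∀ x ∈ N, f * x = x) → (∀ y ∈ N', y * f = y) →
    (∀ x ∈ N, ∀ y ∈ N', ∃ c : K, x * y = c • f) →
    (∀ v : J → K, v ∈ Submodule.span K {u | ∃ y ∈ N', ∃ u' : I → K, u = y.mulVec u'}) →
    (∀ v : J → K, (∀ x ∈ N, x.mulVec v = 0) → v = 0) → f.rank ∣ Fintype.card J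

/-- RK1: modules over an algebra with an idempotent of rank one. -/
def ST_RK1 : Prop :=
  ∀ (K : Type) [Field K] (I J : Type) [Fintype I] [DecidableEq I] [Fintype J] [DecidableEq J]
    (f : Matrix I I K) (F : Submodule K (Matrix I I K)), f * f = f → f.rank = 1 → f ∈ F →
    (∀ v : I → K, v ∈ Submodule.span K {u | ∃ x ∈ F, ∃ u' : I → K, u = (x * f).mulVec u'}) →
    (∀ v : I → K, (∀ x ∈ F, (f * x).mulVec v = 0) → v = 0) →
    (∀ B : Submodule K (Matrix I J K), (∀ x ∈ F, ∀ y ∈ B, x * y ∈ B) →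
      (∀ v : J → K, (∀ y ∈ B, (f * y).mulVec v = 0) → v = 0) → B = ⊤) ∧
    ∀ B : Submodule K (Matrix J I K), (∀ x ∈ F, ∀ y ∈ B, y * x ∈ B) →
      (∀ v : J → K, v ∈ Submodule.span K {u | ∃ y ∈ B, ∃ u' : I → K, u = (y * f).mulVec u'}) →
        B = ⊤

/-! ## B. Gradings with three degrees -/

/-- SPB: the middle piece is generated by the top piece, and it is separated by the maps to the top
piece. -/
def ST_SPB : Prop :=
  ∀ (K : Type) [Field K] [CharZero K] (n : ℕ) (ε : K) (ψ : Matrix (Fin n) (Fin n) K)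
    (s : Fin n → ℤ) (a : Submodule K (Matrix (Fin n) (Fin n) K)), GrD ε ψ s a →
    (∀ j, |s j| ≤ 1) → (∃ j, s j = 1) →
    (∀ v : Fin n → K, (∀ j, v j ≠ 0 → s j = 0) →
      v ∈ Submodule.span K {u | ∃ A ∈ a, cmp s (-1) A = A ∧ ∃ x : Fin n → K,
        (∀ j, x j ≠ 0 → s j = 1) ∧ u = A.mulVec x}) ∧
    ∀ v : Fin n → K, (∀ j, v j ≠ 0 → s j = 0) → (∀ A ∈ a, cmp s 1 A = A → A.mulVec v = 0) → v = 0

/-- FIN: an algebra whose components of degree `1` and `-1` are everything. -/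
def ST_FIN : Prop :=
  ∀ (K : Type) [Field K] [CharZero K] (n : ℕ) (ε : K) (ψ : Matrix (Fin n) (Fin n) K)
    (s : Fin n → ℤ) (a : Submodule K (Matrix (Fin n) (Fin n) K)), GrD ε ψ s a →
    (∀ j, |s j| ≤ 1) → (∃ j, s j = 1) → (∃ j, s j = 0) →
    (∀ M : Matrix (Fin n) (Fin n) K, ∃ A ∈ a, ∀ i j, s i = 1 → s j = 0 → A i j = M i j) →
    (∀ M : Matrix (Fin n) (Fin n) K, ∃ A ∈ a, ∀ i j, s i = 0 → s j = 1 → A i j = M i j) →
    ∀ A : Matrix (Fin n) (Fin n) K, A.transpose * ψ + ψ * A = 0 → A ∈ a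

/-- GCD: coprime multiplicities (from ALG, CNT, RK1, SPB, `ST_TPI`, FIN). -/
def ST_GCD : Prop :=
  ∀ (K : Type) [Field K] [CharZero K] [IsAlgClosed K] (n : ℕ) (ε : K)
    (ψ : Matrix (Fin n) (Fin n) K) (s d : Fin n → ℤ)
    (a : Submodule K (Matrix (Fin n) (Fin n) K)), GrD ε ψ s a → GrD ε ψ d a →
    (∀ j, |s j| ≤ 1) → (∃ j, s j = 1) → (∀ j, s j ≠ 0 → d j = 0) →
    (∃ i j, s i = 0 ∧ s j = 0 ∧ d i ≠ d j ∧ d i + d j ≠ 0) →
    (∀ u : ℕ, u ∣ (Finset.univ.filter fun j => s j = 1).card →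
      (∀ x : ℤ, u ∣ (Finset.univ.filter fun j => s j = 0 ∧ d j = x).card) → u = 1) →
    ∀ A : Matrix (Fin n) (Fin n) K, A.transpose * ψ + ψ * A = 0 → A ∈ a

/-! ## C. Weight two -/

/-- TRC: the trace form is nondegenerate (Mathlib: Cartan's criterion; see helper3's RED). -/
def ST_TRC : Prop :=
  ∀ (K : Type) [Field K] [CharZero K] [IsAlgClosed K] (n : ℕ) (ψ : Matrix (Fin n) (Fin n) K)
    (a : Submodule K (Matrix (Fin n) (Fin n) K)), ψ.det ≠ 0 → Brk a → LIrr a →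
    (∀ A ∈ a, A.transpose * ψ + ψ * A = 0) →
    ∀ x ∈ a, (∀ y ∈ a, (x * y).trace = 0) → x = 0

/-- TOR: if some element of `a` lives on the middle piece, then a torus of `a` does (from TRC and
`ST_DRV`). -/
def ST_TOR : Prop :=
  ∀ (K : Type) [Field K] [CharZero K] [IsAlgClosed K] (n : ℕ) (ε : K)
    (ψ : Matrix (Fin n) (Fin n) K) (s : Fin n → ℤ)
    (a : Submodule K (Matrix (Fin n) (Fin n) K)), GrD ε ψ s a →
    (∃ z ∈ a, z ≠ 0 ∧ ∀ i j, z i j ≠ 0 → s i = 0 ∧ s j = 0) →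
    ∃ (P : Matrix.GeneralLinearGroup (Fin n) K) (d : Fin n → ℤ),
      (∀ i j, (P : Matrix (Fin n) (Fin n) K) i j ≠ 0 → s i = s j) ∧ (∃ i, d i ≠ 0) ∧
      (∀ i, s i ≠ 0 → d i = 0) ∧
      (P : Matrix (Fin n) (Fin n) K) * Matrix.diagonal (fun j => (d j : K)) *
        ((P⁻¹ : Matrix.GeneralLinearGroup (Fin n) K) : Matrix (Fin n) (Fin n) K) ∈ a

/-- BND: the middle piece is small if there are no elements of degree two, and none which live on
the middle piece (from TRC and SPB). -/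
def ST_BND : Prop :=
  ∀ (K : Type) [Field K] [CharZero K] [IsAlgClosed K] (n : ℕ) (ε : K)
    (ψ : Matrix (Fin n) (Fin n) K) (s : Fin n → ℤ)
    (a : Submodule K (Matrix (Fin n) (Fin n) K)), GrD ε ψ s a → (∀ j, |s j| ≤ 1) →
    (∃ j, s j = 1) → (∀ z ∈ a, (∀ i j, z i j ≠ 0 → s i = 0 ∧ s j = 0) → z = 0) →
    (∀ z ∈ a, cmp s 2 z = z → z = 0) →
    (Finset.univ.filter fun j => s j = 0).card ≤ (Finset.univ.filter fun j => s j = 1).card ^ 3

/-- SCP: the case of elements of degree two (from ALG, CNT, RK1, TRC, SPB, `ST_TPI`, FIN). -/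
def ST_SCP : Prop :=
  ∀ (K : Type) [Field K] [CharZero K] [IsAlgClosed K] (n : ℕ) (ψ : Matrix (Fin n) (Fin n) K)
    (s : Fin n → ℤ) (a : Submodule K (Matrix (Fin n) (Fin n) K)), GrD 1 ψ s a →
    (∀ j, |s j| ≤ 1) → (∃ j, s j = 0) → (∃ z ∈ a, cmp s 2 z = z ∧ z ≠ 0) →
    Odd (Finset.univ.filter fun j => s j = 1).card →
    (∀ u : ℕ, u ∣ (Finset.univ.filter fun j => s j = 1).card →
      u ∣ (Finset.univ.filter fun j => s j = 0).card → u = 1) →
    ∀ A : Matrix (Fin n) (Fin n) K, A.transpose * ψ + ψ * A = 0 → A ∈ a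

/-- WT2: the types `(α, β, α)` (from TOR, GCD, SCP, BND). -/
def ST_WT2 : Prop :=
  ∀ (K : Type) [Field K] [CharZero K] [IsAlgClosed K] (n : ℕ) (ψ : Matrix (Fin n) (Fin n) K)
    (s : Fin n → ℤ) (a : Submodule K (Matrix (Fin n) (Fin n) K)), GrD 1 ψ s a →
    (∀ j, |s j| ≤ 1) → Odd (Finset.univ.filter fun j => s j = 1).card →
    Odd (Finset.univ.filter fun j => s j = 0).card →
    (Finset.univ.filter fun j => s j = 1).card ^ 3 < (Finset.univ.filter fun j => s j = 0).card →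
    (∀ u : ℕ, u ∣ (Finset.univ.filter fun j => s j = 1).card →
      u ∣ (Finset.univ.filter fun j => s j = 0).card → u = 1) →
    ∀ A : Matrix (Fin n) (Fin n) K, A.transpose * ψ + ψ * A = 0 → A ∈ a

/-! ## D. Hodge numbers -/

/-- The Hodge numbers are coprime. -/
def Cop {n : ℕ} (h : Fin n → ℕ) : Prop :=
  ∀ u : ℕ, (∀ p : ℕ, u ∣ (Finset.univ.filter fun j => h j = p).card) → u = 1

/-- Hodge numbers: for some `m > w / 2` there are types other than `(m, w - m)`, `(w - m, m)`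
(inner types), and one of the following holds. (1) The type `(m, w - m)` is isolated, and its Hodge
number `a` is one; or it is not zero, the Hodge numbers are coprime and there are two inner types
which are not conjugate; or it is not zero, prime to the sum `b` of the inner Hodge numbers, and
`3 a ^ 2 + a < 2 b` or `b ^ 2 + b + 3 ≤ 2 a`. (2) The type `(m, w - m)` is isolated or outermost,
`a ≥ 2`, and all the other Hodge numbers are at most one, and at most two in the middle. (The type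
`(p, w - p)` occurs `h^(p, w - p)` times in the list `h`.) -/
def Wide {n : ℕ} (w : ℕ) (h : Fin n → ℕ) : Prop :=
  ∃ m : ℕ, w < 2 * m ∧ (∃ j, Inn w m (h j)) ∧
    ((Isol w h m ∧ ((Finset.univ.filter fun j => h j = m).card = 1 ∨
        (Cop h ∧ (∃ j, h j = m) ∧
          ∃ i j, Inn w m (h i) ∧ Inn w m (h j) ∧ h i ≠ h j ∧ h i + h j ≠ w) ∨
        ((∃ j, h j = m) ∧ Nat.Coprime (Finset.univ.filter fun j => h j = m).card
            (Finset.univ.filter fun j => h j ≠ m ∧ h j + m ≠ w).card ∧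
          (3 * (Finset.univ.filter fun j => h j = m).card ^ 2 +
            (Finset.univ.filter fun j => h j = m).card <
              2 * (Finset.univ.filter fun j => h j ≠ m ∧ h j + m ≠ w).card ∨
            (Finset.univ.filter fun j => h j ≠ m ∧ h j + m ≠ w).card ^ 2 +
              (Finset.univ.filter fun j => h j ≠ m ∧ h j + m ≠ w).card + 3 ≤
                2 * (Finset.univ.filter fun j => h j = m).card)))) ∨
      ((Isol w h m ∨ ∀ j, h j ≤ m ∧ w ≤ h j + m) ∧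
        2 ≤ (Finset.univ.filter fun j => h j = m).card ∧
        ∀ p : ℕ, Inn w m p →
          (Finset.univ.filter fun j => h j = p).card ≤ if 2 * p = w then 2 else 1))

/-- TOPW: the Lie theorem (from TOPG, SHF, ADD, GRA, GCD, WT2; see helper2's TOPG). -/
def ST_TOPW : Prop :=
  ∀ (K : Type) [Field K] [CharZero K] [IsAlgClosed K] (n w : ℕ) (h : Fin n → ℕ)
    (ψ : Matrix (Fin n) (Fin n) K) (P : Matrix.GeneralLinearGroup (Fin n) K)
    (a : Submodule K (Matrix (Fin n) (Fin n) K)), Wide w h → ψ.det ≠ 0 →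
    ψ.transpose = (-1 : K) ^ w • ψ → Brk a → LIrr a →
    (∀ A ∈ a, A.transpose * ψ + ψ * A = 0) →
    (P : Matrix (Fin n) (Fin n) K) * Matrix.diagonal (fun j => 2 * (h j : K) - (w : K)) *
      ((P⁻¹ : Matrix.GeneralLinearGroup (Fin n) K) : Matrix (Fin n) (Fin n) K) ∈ a →
    ∀ A : Matrix (Fin n) (Fin n) K, A.transpose * ψ + ψ * A = 0 → A ∈ a

/-- TOSW: see helper2's TOS. -/
def ST_TOSW : Prop :=
  ∀ (K₀ K : Type) [Field K₀] [Field K] [CharZero K] [IsAlgClosed K] [Algebra K₀ K] (n w : ℕ)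
    (h : Fin n → ℕ) (ψ : Matrix (Fin n) (Fin n) K₀) (P : Matrix.GeneralLinearGroup (Fin n) K)
    (a : Submodule K₀ (Matrix (Fin n) (Fin n) K₀)), Wide w h → ψ.det ≠ 0 →
    ψ.transpose = (-1 : K₀) ^ w • ψ → Brk a →
    (∀ A ∈ a, ∃ c : K₀, A.transpose * ψ + ψ * A = c • ψ) → 2 * ∑ j, h j = n * w →
    (∀ U : Submodule K (Fin n → K),
      (∀ A ∈ a, ∀ v ∈ U, (A.map (algebraMap K₀ K)).mulVec v ∈ U) → U = ⊥ ∨ U = ⊤) →
    (P : Matrix (Fin n) (Fin n) K) * Matrix.diagonal (fun j => (h j : K)) *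
      ((P⁻¹ : Matrix.GeneralLinearGroup (Fin n) K) : Matrix (Fin n) (Fin n) K) ∈
        Submodule.span K {B | ∃ A ∈ a, B = A.map (algebraMap K₀ K)} →
    ∀ A : Matrix (Fin n) (Fin n) K₀, A.transpose * ψ + ψ * A = 0 → A ∈ a

end MT
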