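import Pool.Agent.Helper21.WD.Stmts2
import Pool.Agent.Helper92.WD.BND

/-!
# Coprime Hodge numbers: the types `(a, b, a)` with `2 b > 3 a ^ 2 + a`: exact statements (T14)
Proofs: /team-store/wq_helper21.md
-/

set_option autoImplicit false

namespace MT

open BND92

/-- the trace over the top piece -/
def tr1 {K : Type} [Field K] {n : ℕ} (s : Fin n → ℤ) (A : Matrix (Fin n) (Fin n) K) : K :=
  ∑ i ∈ Finset.univ.filter (fun i => s i = 1), A i i

/-- REP: additive functions of an element of degree zero (see TOR). -/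
def ST_REP : Prop :=
  ∀ (K : Type) [Field K] [CharZero K] [IsAlgClosed K] (n : ℕ) (ε : K)
    (ψ : Matrix (Fin n) (Fin n) K) (s : Fin n → ℤ)
    (a : Submodule K (Matrix (Fin n) (Fin n) K)), GrD ε ψ s a →
    ∀ x ∈ gr s 0 a, ¬ IsNilpotent x →
      ∃ w : Fin n → K, w ≠ 0 ∧ ∀ f : K →+ K, ∃ D ∈ gr s 0 a,
        (x * D).trace = ∑ j, w j * f (w j) ∧
        tr1 s (x * D) = ∑ j ∈ Finset.univ.filter (fun j => s j = 1), w j * f (w j)

/-- ENG: ideals of the degree zero part contain elements which are not nilpotent (from TRC and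
Engel's theorem; see `tor_nonnil`). -/
def ST_ENG : Prop :=
  ∀ (K : Type) [Field K] [CharZero K] [IsAlgClosed K] (n : ℕ) (ε : K)
    (ψ : Matrix (Fin n) (Fin n) K) (s : Fin n → ℤ)
    (a : Submodule K (Matrix (Fin n) (Fin n) K)), GrD ε ψ s a →
    ∀ I : Submodule K (Matrix (Fin n) (Fin n) K), I ≤ gr s 0 a → I ≠ ⊥ →
      (∀ x ∈ gr s 0 a, ∀ y ∈ I, x * y - y * x ∈ I) → ∃ x ∈ I, ¬ IsNilpotent x

/-- The number `ρ` is algebraic, and all its conjugates are real and not negative. -/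
def TNN {K : Type} [Field K] [CharZero K] (ρ : K) : Prop :=
  ∃ P : Polynomial ℚ, P ≠ 0 ∧ Polynomial.aeval ρ P = 0 ∧
    ∀ z : ℂ, Polynomial.aeval z P = 0 → z.im = 0 ∧ 0 ≤ z.re

/-- TNN1: eigenvalues of a pencil of rational quadratic forms. -/
def ST_TNN1 : Prop :=
  ∀ (K : Type) [Field K] [CharZero K] (n : ℕ) (T : Finset (Fin n)) (w : Fin n → K) (ρ : K),
    w ≠ 0 → (∀ f : K →+ K, ∑ j ∈ T, w j * f (w j) = ρ * ∑ j, w j * f (w j)) → TNN ρ

/-- TNN2: a rational sum of such numbers is not negative. -/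
def ST_TNN2 : Prop :=
  ∀ (K : Type) [Field K] [CharZero K] [IsAlgClosed K] (S : Multiset K) (q : ℚ),
    (∀ ρ ∈ S, TNN ρ) → S.sum = (q : K) → 0 ≤ q

/-- CAS: the trace over the top piece of the Casimir operator of the trace form (from TRC). -/
def ST_CAS : Prop :=
  ∀ (K : Type) [Field K] [CharZero K] [IsAlgClosed K] (n : ℕ) (ε : K)
    (ψ : Matrix (Fin n) (Fin n) K) (s : Fin n → ℤ)
    (a : Submodule K (Matrix (Fin n) (Fin n) K)), GrD ε ψ s a → (∀ j, |s j| ≤ 1) →
    ∃ φ : Module.End K (gr s 0 a),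
      (∀ x y : gr s 0 a, ((φ x : Matrix (Fin n) (Fin n) K) * (y : Matrix (Fin n) (Fin n) K)).trace =
        tr1 s ((x : Matrix (Fin n) (Fin n) K) * (y : Matrix (Fin n) (Fin n) K))) ∧
      2 * (Module.finrank K a : K) * ((Finset.univ.filter fun j => s j = 1).card : K) =
        (n : K) * ((Module.finrank K (gr s 1 a) : K) + 2 * (Module.finrank K (gr s 2 a) : K) +
          2 * LinearMap.trace K (gr s 0 a) φ)

/-- DIM: the dimensions of the graded pieces (from TRC). -/
def ST_DIM : Prop :=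
  ∀ (K : Type) [Field K] [CharZero K] [IsAlgClosed K] (n : ℕ) (ε : K)
    (ψ : Matrix (Fin n) (Fin n) K) (s : Fin n → ℤ)
    (a : Submodule K (Matrix (Fin n) (Fin n) K)), GrD ε ψ s a → (∀ j, |s j| ≤ 1) →
    Module.finrank K (gr s (-1) a) = Module.finrank K (gr s 1 a) ∧
    Module.finrank K a = Module.finrank K (gr s 0 a) + 2 * Module.finrank K (gr s 1 a) +
      2 * Module.finrank K (gr s 2 a)

/-- POSC: the inequality (from CAS, REP, ENG, TNN1, TNN2, and `ST_DRV`, which gives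
`diagonal s ∈ a`). -/
def ST_POSC : Prop :=
  ∀ (K : Type) [Field K] [CharZero K] [IsAlgClosed K] (n : ℕ) (ε : K)
    (ψ : Matrix (Fin n) (Fin n) K) (s : Fin n → ℤ)
    (a : Submodule K (Matrix (Fin n) (Fin n) K)), GrD ε ψ s a → (∀ j, |s j| ≤ 1) →
    (∃ j, s j = 1) →
    n * (Module.finrank K (gr s 1 a) + 1 + 2 * Module.finrank K (gr s 2 a)) ≤
      2 * (Finset.univ.filter fun j => s j = 1).card * Module.finrank K a

/-- BD3: bounds for the middle piece (from POSC, DIM, SPB; see BND). -/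
def ST_BD3 : Prop :=
  ∀ (K : Type) [Field K] [CharZero K] [IsAlgClosed K] (n : ℕ) (ε : K)
    (ψ : Matrix (Fin n) (Fin n) K) (s : Fin n → ℤ)
    (a : Submodule K (Matrix (Fin n) (Fin n) K)), GrD ε ψ s a → (∀ j, |s j| ≤ 1) →
    (∃ j, s j = 1) → ∃ d : ℕ,
      (Finset.univ.filter fun j => s j = 0).card ≤
        (Finset.univ.filter fun j => s j = 1).card * d ∧
      (Finset.univ.filter fun j => s j = 0).card * (d + 1) +
          2 * (Finset.univ.filter fun j => s j = 1).card ≤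
        2 * (Finset.univ.filter fun j => s j = 1).card *
          ((Finset.univ.filter fun j => s j = 1).card ^ 2 + Module.finrank K (Mid0 s a) + d)

/-- WT4: the types `(α, β, α)` with `2 β > 3 α ^ 2 + α` (from TR2, BD3, ONE, GCD). -/
def ST_WT4 : Prop :=
  ∀ (K : Type) [Field K] [CharZero K] [IsAlgClosed K] (n : ℕ) (ε : K)
    (ψ : Matrix (Fin n) (Fin n) K) (s : Fin n → ℤ)
    (a : Submodule K (Matrix (Fin n) (Fin n) K)), GrD ε ψ s a → (∀ j, |s j| ≤ 1) →
    (∃ j, s j = 1) →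
    3 * (Finset.univ.filter fun j => s j = 1).card ^ 2 +
      (Finset.univ.filter fun j => s j = 1).card <
        2 * (Finset.univ.filter fun j => s j = 0).card →
    (∀ u : ℕ, u ∣ (Finset.univ.filter fun j => s j = 1).card →
      u ∣ (Finset.univ.filter fun j => s j = 0).card → u = 1) →
    ∀ A : Matrix (Fin n) (Fin n) K, A.transpose * ψ + ψ * A = 0 → A ∈ a

end MT
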