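import Pool.Agent.Helper21.RM.StmtsE
import Pool.Agent.Helper21.WD.StmtsQ

/-!
# Isolated eigenvalues of any multiplicity: exact statements (T13, part M)
Proofs: /team-store/wdm_helper21.md
-/

set_option autoImplicit false

open MT

namespace MR

/-- The number `a` is an isolated eigenvalue of the similitude `g` with multiplier `c`:
`a ^ 4 ≠ c ^ 2`, and `a x ≠ y z`, `a ^ 2 ≠ x y`, `a ^ 3 ≠ c x` for all the eigenvalues `x`, `y`, `z`
different from `a` and `c / a`; its multiplicity `m` is one, or prime to `n` with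
`3 m ^ 2 + 5 m < 2 n`, or with `e = n - 2 m > 0` and `e ^ 2 + e + 3 ≤ 2 m`. -/
def IsoM {K : Type} [Field K] {n : ℕ} (g : Matrix (Fin n) (Fin n) K) (c a : K) : Prop :=
  g.charpoly.IsRoot a ∧ a ^ 4 ≠ c ^ 2 ∧
    (∀ x y z : K, g.charpoly.IsRoot x → g.charpoly.IsRoot y → g.charpoly.IsRoot z →
      (x ≠ a ∧ x * a ≠ c) → (y ≠ a ∧ y * a ≠ c) → (z ≠ a ∧ z * a ≠ c) →
        a * x ≠ y * z ∧ a ^ 2 ≠ x * y ∧ a ^ 3 ≠ c * x) ∧
    (g.charpoly.rootMultiplicity a = 1 ∨ (Nat.Coprime (g.charpoly.rootMultiplicity a) n ∧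
      (3 * g.charpoly.rootMultiplicity a ^ 2 + 5 * g.charpoly.rootMultiplicity a < 2 * n ∨
        ∃ e : ℕ, 0 < e ∧ n = 2 * g.charpoly.rootMultiplicity a + e ∧
          e ^ 2 + e + 3 ≤ 2 * g.charpoly.rootMultiplicity a)))

/-- SPCM: the operator `C` of an isolated eigenvalue (the projection onto the generalised eigenspace
of `a` minus the projection onto that of `c / a`; a polynomial in `g`). -/
def ST_SPCM : Prop :=
  ∀ (K : Type) [Field K] [CharZero K] [IsAlgClosed K] (n : ℕ) (ε : K)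
    (ψ : Matrix (Fin n) (Fin n) K) (g : Matrix.GeneralLinearGroup (Fin n) K) (c a : K),
    ψ.det ≠ 0 → ψ.transpose = ε • ψ → (ε = 1 ∨ ε = -1) →
    (g : Matrix (Fin n) (Fin n) K).transpose * ψ * (g : Matrix (Fin n) (Fin n) K) = c • ψ →
    (g : Matrix (Fin n) (Fin n) K).charpoly.IsRoot a → a ^ 4 ≠ c ^ 2 →
    (∀ x y z : K, (g : Matrix (Fin n) (Fin n) K).charpoly.IsRoot x →
      (g : Matrix (Fin n) (Fin n) K).charpoly.IsRoot y →
      (g : Matrix (Fin n) (Fin n) K).charpoly.IsRoot z →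
      (x ≠ a ∧ x * a ≠ c) → (y ≠ a ∧ y * a ≠ c) → (z ≠ a ∧ z * a ≠ c) →
        a * x ≠ y * z ∧ a ^ 2 ≠ x * y ∧ a ^ 3 ≠ c * x) →
    ∃ (P : Matrix.GeneralLinearGroup (Fin n) K) (s : Fin n → ℤ) (C : Matrix (Fin n) (Fin n) K),
      C = (P : Matrix (Fin n) (Fin n) K) * Matrix.diagonal (fun j => (s j : K)) *
        ((P⁻¹ : Matrix.GeneralLinearGroup (Fin n) K) : Matrix (Fin n) (Fin n) K) ∧
      (∀ j, |s j| ≤ 1) ∧ (Finset.univ.filter fun j => s j = 1).card =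
        (g : Matrix (Fin n) (Fin n) K).charpoly.rootMultiplicity a ∧
      C.transpose * ψ + ψ * C = 0 ∧
      C * (g : Matrix (Fin n) (Fin n) K) = (g : Matrix (Fin n) (Fin n) K) * C ∧
      ∀ (t k l : K) (A B : Matrix (Fin n) (Fin n) K), A ≠ 0 → B ≠ 0 →
        (g : Matrix (Fin n) (Fin n) K) * A = t • (A * (g : Matrix (Fin n) (Fin n) K)) →
        (g : Matrix (Fin n) (Fin n) K) * B = t • (B * (g : Matrix (Fin n) (Fin n) K)) →
        C * A - A * C = k • A → C * B - B * C = l • B → k = l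

/-- EIGM: the Lie theorem (from SPCM, ADS, `MT.ST_DRV`, `MT.ST_GRA`, `MT.ST_ONE`, `MT.ST_WT4`,
`MT.ST_WT5`). -/
def ST_EIGM : Prop :=
  ∀ (K : Type) [Field K] [CharZero K] [IsAlgClosed K] (n : ℕ) (ε : K)
    (ψ : Matrix (Fin n) (Fin n) K) (g : Matrix.GeneralLinearGroup (Fin n) K) (c a : K)
    (L : Submodule K (Matrix (Fin n) (Fin n) K)), 3 ≤ n → ψ.det ≠ 0 → ψ.transpose = ε • ψ →
    (ε = 1 ∨ ε = -1) →
    (g : Matrix (Fin n) (Fin n) K).transpose * ψ * (g : Matrix (Fin n) (Fin n) K) = c • ψ →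
    IsoM (g : Matrix (Fin n) (Fin n) K) c a → Brk L → LIrr L →
    (∀ A ∈ L, A.transpose * ψ + ψ * A = 0) →
    (∀ A ∈ L, (g : Matrix (Fin n) (Fin n) K) * A *
      ((g⁻¹ : Matrix.GeneralLinearGroup (Fin n) K) : Matrix (Fin n) (Fin n) K) ∈ L) →
    ∀ A : Matrix (Fin n) (Fin n) K, A.transpose * ψ + ψ * A = 0 → A ∈ L

/-- TOSEM: from an irreducible Lie algebra of similitudes over `K₀` (from `MT.ST_RED` and EIGM). -/
def ST_TOSEM : Prop :=
  ∀ (K₀ K : Type) [Field K₀] [Field K] [CharZero K] [IsAlgClosed K] [Algebra K₀ K] (n w : ℕ)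
    (ψ : Matrix (Fin n) (Fin n) K₀) (g : Matrix.GeneralLinearGroup (Fin n) K₀) (c : K₀) (a : K)
    (L : Submodule K₀ (Matrix (Fin n) (Fin n) K₀)), 3 ≤ n → ψ.det ≠ 0 →
    ψ.transpose = (-1 : K₀) ^ w • ψ → Brk L →
    (∀ A ∈ L, ∃ c : K₀, A.transpose * ψ + ψ * A = c • ψ) →
    (∀ U : Submodule K (Fin n → K),
      (∀ A ∈ L, ∀ v ∈ U, (A.map (algebraMap K₀ K)).mulVec v ∈ U) → U = ⊥ ∨ U = ⊤) →
    (g : Matrix (Fin n) (Fin n) K₀).transpose * ψ * (g : Matrix (Fin n) (Fin n) K₀) = c • ψ →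
    IsoM ((g : Matrix (Fin n) (Fin n) K₀).map (algebraMap K₀ K)) (algebraMap K₀ K c) a →
    (∀ A ∈ L, (g : Matrix (Fin n) (Fin n) K₀) * A *
      ((g⁻¹ : Matrix.GeneralLinearGroup (Fin n) K₀) : Matrix (Fin n) (Fin n) K₀) ∈ L) →
    ∀ A : Matrix (Fin n) (Fin n) K₀, A.transpose * ψ + ψ * A = 0 → A ∈ L

end MR
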