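import Pool.Agent.Helper21.RM.Stmts
import Pool.Agent.Helper21.WD.StmtsM

/-!
# T13: statements for realisations of motives, with isolated eigenvalues of any multiplicity
-/

set_option autoImplicit false

open NumberField MU MT

namespace MR

/-- Some Galois element has an isolated eigenvalue on the `l`-adic realisation: it is a similitude
with multiplier `c` and eigenvalue `a` (in an algebraically closed field `C`), `a ^ 4 ≠ c ^ 2`, and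
`a x ≠ y z`, `a ^ 2 ≠ x y`, `a ^ 3 ≠ c x` for all the eigenvalues `x`, `y`, `z` different from `a`
and `c / a`; the multiplicity `m` of `a` is one, or prime to `n` with `3 m ^ 2 + 5 m < 2 n`, or with
`e = n - 2 m > 0` and `e ^ 2 + e + 3 ≤ 2 m`; and `n ≥ 3`. -/
def RMot.IsoEigM {F : Type} [Field F] [NumberField F] {n w : ℕ} {h : Fin n → ℕ}
    (M : RMot F n w h) (l : ℕ) [Fact l.Prime] : Prop :=
  3 ≤ n ∧ ∃ (σ : Gal F) (C : Type) (_ : Field C) (_ : Algebra ℚ_[l] C) (_ : IsAlgClosed C) (c : ℚ_[l])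
    (a : C), (mat (M.ρ l) σ).transpose * bas ℚ_[l] M.ψ * mat (M.ρ l) σ = c • bas ℚ_[l] M.ψ ∧
      IsoM ((mat (M.ρ l) σ).map (algebraMap ℚ_[l] C)) (algebraMap ℚ_[l] C c) a

/-- FUL: the Lie algebra is large. -/
def ST_FULM : Prop :=
  ∀ (F : Type) [Field F] [NumberField F] (n w : ℕ) (h : Fin n → ℕ)
    (M : RMot F n w h) (l : ℕ) [Fact l.Prime], 0 < w → M.AIrrL l → (Wide w h ∨ M.IsoEigM l) →
      ∀ H : Subgroup (Gal F), IsOpen (H : Set (Gal F)) → ∀ A : Matrix (Fin n) (Fin n) ℚ_[l],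
        A.transpose * bas ℚ_[l] M.ψ + bas ℚ_[l] M.ψ * A = 0 → A ∈ LieZ (H.map (M.ρ l))

/-- MAIN: the theorem. -/
def ST_MAINM : Prop :=
  ∀ (F : Type) [Field F] [NumberField F] (n w : ℕ) (h : Fin n → ℕ)
    (M : RMot F n w h), 0 < w →
    (M.AIrrH → Wide w h → ∀ (K : Type) [Field K] [CharZero K],
      M.Gsigma K = SimC w M.ψ K ∧ M.Gsigma K ⊆ M.Gmot K ∧ M.Gmot K ⊆ Sim M.ψ K) ∧
    ∀ (l : ℕ) [Fact l.Prime], M.AIrrL l → (Wide w h ∨ M.IsoEigM l) →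
      ∀ (K : Type) [Field K] [Algebra ℚ_[l] K],
      (∀ H : Subgroup (Gal F), IsOpen (H : Set (Gal F)) → SimC w M.ψ K ⊆ ZC (M.ρ l '' H) K) ∧
      M.Gl0 l K = SimC w M.ψ K ∧ M.Gl0 l K ⊆ M.Gl l K ∧ M.Gl l K ⊆ M.Gmot K ∧
      M.Gmot K ⊆ Sim M.ψ K ∧ (Odd w ∨ Odd n → SimC w M.ψ K = Sim M.ψ K) ∧
      M.Gsigma K ⊆ M.Gl0 l K ∧ (M.AIrrH → Wide w h → M.Gl0 l K = M.Gsigma K) ∧
      ((∀ (a b : ℕ) (t : Tensor n a b ℚ), M.IsHodge t → ∃ H : Subgroup (Gal F),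
        IsOpen (H : Set (Gal F)) ∧
          ∀ g ∈ H, act (M.ρ l g) (t.base ℚ_[l]) = t.base ℚ_[l]) → M.Gl0 l K = M.Gsigma K)

end MR
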