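import Pool.Agent.Helper21.WD.Stmts

/-!
# SPB: gradings with three degrees (T13)
-/

set_option autoImplicit false

open Matrix

namespace MT

namespace SPBx

variable {K : Type} [Field K] {n : ℕ}

/-- homogeneous matrices -/
def HM (s : Fin n → ℤ) (x : ℤ) (A : Matrix (Fin n) (Fin n) K) : Prop :=
  ∀ i j, A i j ≠ 0 → s i - s j = x

/-- homogeneous vectors -/
def HV (s : Fin n → ℤ) (c : ℤ) (v : Fin n → K) : Prop := ∀ j, v j ≠ 0 → s j = c

theorem HM_cmp (s : Fin n → ℤ) (x : ℤ) (A : Matrix (Fin n) (Fin n) K) : HM s x (cmp s x A) := by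
  intro i j h
  unfold cmp at h
  rw [Matrix.of_apply] at h
  by_contra hd
  rw [if_neg hd] at h
  exact h rfl

theorem cmp_HM {s : Fin n → ℤ} {x : ℤ} {A : Matrix (Fin n) (Fin n) K} (h : HM s x A) :
    cmp s x A = A := by
  ext i j
  unfold cmp
  rw [Matrix.of_apply]
  split_ifs with hd
  · rfl
  · by_contra hne
    exact hd (h i j fun h' => hne h'.symm)

theorem HM_of {s : Fin n → ℤ} {x : ℤ} {A : Matrix (Fin n) (Fin n) K} (h : cmp s x A = A) :
    HM s x A := by
  rw [← h]
  exact HM_cmp s x A

theorem HM_mul {s : Fin n → ℤ} {x y : ℤ} {A B : Matrix (Fin n) (Fin n) K} (hA : HM s x A)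
    (hB : HM s y B) : HM s (x + y) (A * B) := by
  intro i j h
  rw [Matrix.mul_apply] at h
  obtain ⟨k, -, hk⟩ := Finset.exists_ne_zero_of_sum_ne_zero h
  have h1 := hA i k (left_ne_zero_of_mul hk)
  have h2 := hB k j (right_ne_zero_of_mul hk)
  omega

theorem HM_brk {s : Fin n → ℤ} {x y : ℤ} {A B : Matrix (Fin n) (Fin n) K} (hA : HM s x A)
    (hB : HM s y B) : HM s (x + y) (A * B - B * A) := by
  intro i j h
  by_cases h1 : (A * B) i j = 0
  · by_cases h2 : (B * A) i j = 0
    · exact absurd (by rw [Matrix.sub_apply, h1, h2, sub_zero]) h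
    · have := HM_mul hB hA i j h2
      omega
  · exact HM_mul hA hB i j h1

theorem HV_mul {s : Fin n → ℤ} {x c : ℤ} {A : Matrix (Fin n) (Fin n) K} {v : Fin n → K}
    (hA : HM s x A) (hv : HV s c v) : HV s (x + c) (A.mulVec v) := by
  intro i h
  unfold Matrix.mulVec dotProduct at h
  obtain ⟨k, -, hk⟩ := Finset.exists_ne_zero_of_sum_ne_zero h
  have h1 := hA i k (left_ne_zero_of_mul hk)
  have h2 := hv k (right_ne_zero_of_mul hk)
  omega

theorem HV_zero {s : Fin n → ℤ} {c : ℤ} {v : Fin n → K} (hs : ∀ j, |s j| ≤ 1) (hv : HV s c v)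
    (hc : c < -1 ∨ 1 < c) : v = 0 := by
  funext j
  by_contra hne
  have h1 := hv j hne
  have h2 := abs_le.mp (hs j)
  omega

theorem sum_cmp {s : Fin n → ℤ} (hs : ∀ j, |s j| ≤ 1) (A : Matrix (Fin n) (Fin n) K) :
    A = ∑ x ∈ Finset.Icc (-2 : ℤ) 2, cmp s x A := by
  ext i j
  rw [Matrix.sum_apply]
  unfold cmp
  simp only [Matrix.of_apply]
  have h1 := abs_le.mp (hs i)
  have h2 := abs_le.mp (hs j)
  rw [Finset.sum_ite_eq, if_pos (Finset.mem_Icc.mpr ⟨by omega, by omega⟩)]

theorem core {s : Fin n → ℤ} {a : Submodule K (Matrix (Fin n) (Fin n) K)} (hb : Brk a)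
    (hi : LIrr a) (hc : ∀ A ∈ a, ∀ x : ℤ, cmp s x A ∈ a) (hs : ∀ j, |s j| ≤ 1)
    (hex : ∃ j, s j = 1) (v : Fin n → K) (hv : HV s 0 v)
    (hv1 : ∀ A ∈ a, HM s 1 A → A.mulVec v = 0) : v = 0 := by
  classical
  let N : Submodule K (Fin n → K) :=
    { carrier := {u | HV s 0 u ∧ ∀ A ∈ a, HM s 1 A → A.mulVec u = 0}
      add_mem' := by
        rintro x y ⟨hx, hx'⟩ ⟨hy, hy'⟩
        refine ⟨fun j hj => ?_, fun A hA hA1 => ?_⟩
        · by_cases h : x j = 0
          · refine hy j fun h' => hj ?_
            rw [Pi.add_apply, h, h', add_zero]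
          · exact hx j h
        · rw [Matrix.mulVec_add, hx' A hA hA1, hy' A hA hA1, add_zero]
      zero_mem' := ⟨fun j hj => absurd rfl hj, fun A _ _ => Matrix.mulVec_zero A⟩
      smul_mem' := by
        rintro c x ⟨hx, hx'⟩
        refine ⟨fun j hj => hx j fun h => hj ?_, fun A hA hA1 => ?_⟩
        · rw [Pi.smul_apply, h, smul_zero]
        · rw [Matrix.mulVec_smul, hx' A hA hA1, smul_zero] }
  have hbr : ∀ {A B : Matrix (Fin n) (Fin n) K} (u : Fin n → K),
      A.mulVec (B.mulVec u) = (A * B - B * A).mulVec u + B.mulVec (A.mulVec u) := by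
    intro A B u
    rw [Matrix.sub_mulVec, Matrix.mulVec_mulVec, Matrix.mulVec_mulVec, sub_add_cancel]
  have hN0 : ∀ A ∈ a, HM s 0 A → ∀ u ∈ N, A.mulVec u ∈ N := by
    intro A hA hA0 u hu
    refine ⟨by simpa using HV_mul hA0 hu.1, fun B hB hB1 => ?_⟩
    rw [hbr, hu.2 B hB hB1, Matrix.mulVec_zero, add_zero]
    exact hu.2 _ (hb B hB A hA) (by simpa using HM_brk hB1 hA0)
  let S : Set (Fin n → K) := {w | ∃ A ∈ a, HM s (-1) A ∧ ∃ u ∈ N, w = A.mulVec u}
  let W : Submodule K (Fin n → K) := N ⊔ Submodule.span K S
  have hWst : ∀ A ∈ a, ∀ u ∈ W, A.mulVec u ∈ W := by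
    intro A hA u hu
    rw [sum_cmp hs A, Matrix.sum_mulVec]
    refine Submodule.sum_mem _ fun x hx => ?_
    have hAx := HM_cmp s x A
    have hAm := hc A hA x
    generalize cmp s x A = B at hAx hAm
    obtain ⟨u₁, hu₁, u₂, hu₂, rfl⟩ := Submodule.mem_sup.mp hu
    rw [Matrix.mulVec_add]
    refine Submodule.add_mem _ ?_ ?_
    · -- elements of `N`
      rw [Finset.mem_Icc] at hx
      have hx' : x = -2 ∨ x = -1 ∨ x = 0 ∨ x = 1 ∨ x = 2 := by omega
      rcases hx' with rfl | rfl | rfl | rfl | rfl
      · rw [HV_zero hs (HV_mul hAx hu₁.1) (by norm_num)]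
        exact Submodule.zero_mem _
      · exact Submodule.mem_sup_right (Submodule.subset_span ⟨B, hAm, hAx, u₁, hu₁, rfl⟩)
      · exact Submodule.mem_sup_left (hN0 B hAm hAx u₁ hu₁)
      · rw [hu₁.2 B hAm hAx]
        exact Submodule.zero_mem _
      · rw [HV_zero hs (HV_mul hAx hu₁.1) (by norm_num)]
        exact Submodule.zero_mem _
    · refine Submodule.span_induction (p := fun u _ => B.mulVec u ∈ W) ?_ ?_ ?_ ?_ hu₂
      · rintro _ ⟨C, hC, hC1, t, ht, rfl⟩
        rw [Finset.mem_Icc] at hx
        have hx' : x = -2 ∨ x = -1 ∨ x = 0 ∨ x = 1 ∨ x = 2 := by omega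
        rcases hx' with rfl | rfl | rfl | rfl | rfl
        · rw [HV_zero hs (HV_mul hAx (HV_mul hC1 ht.1)) (by norm_num)]
          exact Submodule.zero_mem _
        · rw [HV_zero hs (HV_mul hAx (HV_mul hC1 ht.1)) (by norm_num)]
          exact Submodule.zero_mem _
        · rw [hbr]
          refine Submodule.add_mem _ ?_ ?_
          · exact Submodule.mem_sup_right (Submodule.subset_span
              ⟨_, hb B hAm C hC, by simpa using HM_brk hAx hC1, t, ht, rfl⟩)
          · exact Submodule.mem_sup_right (Submodule.subset_span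
              ⟨C, hC, hC1, _, hN0 B hAm hAx t ht, rfl⟩)
        · rw [hbr, ht.2 B hAm hAx, Matrix.mulVec_zero, add_zero]
          exact Submodule.mem_sup_left (hN0 _ (hb B hAm C hC)
            (by simpa using HM_brk hAx hC1) t ht)
        · rw [hbr, HV_zero hs (HV_mul hAx ht.1) (by norm_num), Matrix.mulVec_zero, add_zero,
            ht.2 _ (hb B hAm C hC) (by
              have := HM_brk hAx hC1
              rwa [show (2 : ℤ) + -1 = 1 from by norm_num] at this)]
          exact Submodule.zero_mem _
      · rw [Matrix.mulVec_zero]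
        exact Submodule.zero_mem _
      · intro x y _ _ hx hy
        rw [Matrix.mulVec_add]
        exact Submodule.add_mem _ hx hy
      · intro c x _ hx
        rw [Matrix.mulVec_smul]
        exact Submodule.smul_mem _ _ hx
  have hW1 : ∀ u ∈ W, ∀ j, s j = 1 → u j = 0 := by
    intro u hu j hj
    obtain ⟨u₁, hu₁, u₂, hu₂, rfl⟩ := Submodule.mem_sup.mp hu
    have h1 : u₁ j = 0 := by
      by_contra hne
      have := hu₁.1 j hne
      omega
    have h2 : u₂ j = 0 := by
      refine Submodule.span_induction (p := fun u _ => u j = 0) ?_ rfl ?_ ?_ hu₂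
      · rintro _ ⟨C, hC, hC1, t, ht, rfl⟩
        by_contra hne
        have := HV_mul hC1 ht.1 j hne
        omega
      · intro x y _ _ hx hy
        rw [Pi.add_apply, hx, hy, add_zero]
      · intro c x _ hx
        rw [Pi.smul_apply, hx, smul_zero]
    rw [Pi.add_apply, h1, h2, add_zero]
  rcases hi W hWst with h | h
  · have : v ∈ W := Submodule.mem_sup_left ⟨hv, hv1⟩
    rw [h] at this
    exact (Submodule.mem_bot K).mp this
  · obtain ⟨j, hj⟩ := hex
    have h1 := hW1 (Pi.single j 1) (by rw [h]; exact Submodule.mem_top) j hj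
    rw [Pi.single_eq_same] at h1
    exact absurd h1 one_ne_zero

end SPBx

open SPBx

theorem st_SPB : ST_SPB := by
  intro K _ _ n ε ψ s a gs hs1 hex
  classical
  refine ⟨?_, ?_⟩
  · -- the dual statement for `-s`
    intro v hv
    by_contra hne
    set U : Submodule K (Fin n → K) := Submodule.span K {u | ∃ A ∈ a, cmp s (-1) A = A ∧
      ∃ x : Fin n → K, (∀ j, x j ≠ 0 → s j = 1) ∧ u = A.mulVec x} with hU
    obtain ⟨f, hf, hfU⟩ := Submodule.exists_le_ker_of_notMem hne
    -- the functional is given by a vector
    have hψu : IsUnit ψ.det := isUnit_iff_ne_zero.mpr gs.unit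
    let g : Fin n → K := fun j => if s j = 0 then f (Pi.single j 1) else 0
    have hfg : ∀ u : Fin n → K, HV s 0 u → f u = dotProduct g u := by
      intro u hu
      have h1 : u = ∑ j, u j • (Pi.single j (1 : K) : Fin n → K) := by
        funext i
        rw [Finset.sum_apply, Finset.sum_eq_single i]
        · simp
        · intro b _ hb
          simp [Pi.single_eq_of_ne (Ne.symm hb)]
        · intro hi
          exact absurd (Finset.mem_univ i) hi
      conv_lhs => rw [h1]
      rw [map_sum]
      unfold dotProduct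
      refine Finset.sum_congr rfl fun j _ => ?_
      rw [map_smul, smul_eq_mul, mul_comm]
      by_cases hj : u j = 0
      · rw [hj, mul_zero, mul_zero]
      · simp only [g]
        rw [if_pos (hu j hj)]
    let z : Fin n → K := (ψ⁻¹).transpose.mulVec g
    have hz : ψ.transpose.mulVec z = g := by
      simp only [z]
      rw [Matrix.mulVec_mulVec, ← Matrix.transpose_mul, Matrix.nonsing_inv_mul _ hψu,
        Matrix.transpose_one, Matrix.one_mulVec]
    let z₀ : Fin n → K := fun j => if s j = 0 then z j else 0
    have hz₀ : ψ.transpose.mulVec z₀ = g := by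
      funext j
      by_cases hj : s j = 0
      · rw [← hz]
        unfold Matrix.mulVec dotProduct
        refine Finset.sum_congr rfl fun i _ => ?_
        change ψ.transpose j i * z₀ i = ψ.transpose j i * z i
        by_cases hψ : ψ.transpose j i = 0
        · rw [hψ, zero_mul, zero_mul]
        · have h1 := gs.grad i j hψ
          simp only [z₀]
          rw [if_pos (by omega)]
      · have h1 : g j = 0 := if_neg hj
        rw [h1]
        unfold Matrix.mulVec dotProduct
        refine Finset.sum_eq_zero fun i _ => ?_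
        change ψ.transpose j i * z₀ i = 0
        by_cases hψ : ψ.transpose j i = 0
        · rw [hψ, zero_mul]
        · have h1 := gs.grad i j hψ
          simp only [z₀]
          rw [if_neg (by omega), mul_zero]
    have hz0 : z₀ = 0 := by
      refine core (s := fun j => -s j) gs.brk gs.irr ?_ ?_ ?_ z₀ ?_ ?_
      · intro A hA x
        have h1 : cmp (fun j => -s j) x A = cmp s (-x) A := by
          ext i j
          unfold cmp
          rw [Matrix.of_apply, Matrix.of_apply]
          by_cases h : s i - s j = -x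
          · rw [if_pos h, if_pos (show -s i - -s j = x by omega)]
          · rw [if_neg h, if_neg (show ¬(-s i - -s j = x) by omega)]
        rw [h1]
        exact gs.comp A hA (-x)
      · intro j
        rw [abs_neg]
        exact hs1 j
      · obtain ⟨j₀, hj₀⟩ := hex
        by_contra hno
        apply gs.unit
        refine Matrix.det_eq_zero_of_row_eq_zero j₀ fun j => ?_
        by_contra hψ
        have h1 := gs.grad j₀ j hψ
        exact hno ⟨j, by omega⟩
      · intro j hj
        have h1 : s j = 0 := by
          by_contra hne'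
          exact hj (if_neg hne')
        show -s j = 0
        omega
      · intro A hA hA1
        have hA1' : HM s (-1) A := fun i j hij => by
          have : -s i - -s j = 1 := hA1 i j hij
          omega
        -- `A z₀` is orthogonal to everything
        have h1 : ∀ x : Fin n → K, dotProduct (A.mulVec z₀) (ψ.mulVec x) = 0 := by
          intro x
          let x₁ : Fin n → K := fun j => if s j = 1 then x j else 0
          have hx₁ : ∀ j, x₁ j ≠ 0 → s j = 1 := fun j hj => by
            by_contra hne'
            exact hj (if_neg hne')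
          have h2 : dotProduct (A.mulVec z₀) (ψ.mulVec x) =
              dotProduct (A.mulVec z₀) (ψ.mulVec x₁) := by
            unfold dotProduct
            refine Finset.sum_congr rfl fun i _ => ?_
            by_cases hi : (A.mulVec z₀) i = 0
            · rw [hi, zero_mul, zero_mul]
            · have h3 : s i = -1 := by
                have := HV_mul hA1' (c := 0) (v := z₀) (fun j hj => by
                  by_contra hne'
                  exact hj (if_neg hne')) i hi
                omega
              congr 1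
              unfold Matrix.mulVec dotProduct
              refine Finset.sum_congr rfl fun j _ => ?_
              change ψ i j * x j = ψ i j * x₁ j
              by_cases hψ : ψ i j = 0
              · rw [hψ, zero_mul, zero_mul]
              · have h4 := gs.grad i j hψ
                simp only [x₁]
                rw [if_pos (by omega)]
          have h3 : (A.mulVec x₁) ∈ U :=
            Submodule.subset_span ⟨A, hA, cmp_HM hA1', x₁, hx₁, rfl⟩
          have h4 : f (A.mulVec x₁) = 0 := hfU h3
          rw [hfg _ (by simpa using HV_mul hA1' (c := 1) (v := x₁) hx₁), ← hz₀,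
            Matrix.mulVec_transpose, ← Matrix.dotProduct_mulVec, Matrix.mulVec_mulVec] at h4
          have h5 : ψ * A = -(A.transpose * ψ) := by
            rw [eq_neg_iff_add_eq_zero, add_comm]
            exact gs.iso A hA
          rw [h5, Matrix.neg_mulVec, dotProduct_neg, neg_eq_zero, ← Matrix.mulVec_mulVec,
            Matrix.dotProduct_mulVec, Matrix.vecMul_transpose] at h4
          rw [h2]
          exact h4
        have h2 : Matrix.vecMul (A.mulVec z₀) ψ = 0 := by
          funext j
          have h3 := h1 (Pi.single j 1)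
          rw [Matrix.dotProduct_mulVec, dotProduct_single, mul_one] at h3
          exact h3
        have h3 := congrArg (fun u => Matrix.vecMul u ψ⁻¹) h2
        simp only [Matrix.vecMul_vecMul, Matrix.mul_nonsing_inv _ hψu, Matrix.vecMul_one,
          Matrix.zero_vecMul] at h3
        exact h3
    apply hf
    rw [hfg v hv, ← hz₀, hz0, Matrix.mulVec_zero, zero_dotProduct]
  · intro v hv hv1
    exact core gs.brk gs.irr gs.comp hs1 hex v hv fun A hA hA1 => hv1 A hA (cmp_HM hA1)

end MT
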