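import Pool.Agent.Helper21.WD.POS
import Pool.Agent.Helper84.WD.REP

/-!
# TOR5: a torus which acts trivially on the middle piece
-/

set_option autoImplicit false

open Matrix

namespace MT

namespace Tor5

open BND92 Tor POSx

variable {K : Type} [Field K] {n : ℕ}

/-- eigenvalues and traces of an element of degree zero -/
theorem eig_all [CharZero K] [IsAlgClosed K] {s : Fin n → ℤ}
    (x : Matrix (Fin n) (Fin n) K) (hx0 : Hm s 0 x) (hxn : ¬ IsNilpotent x) :
    ∃ (P : Matrix.GeneralLinearGroup (Fin n) K) (w : Fin n → K),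
      (∀ i j, (P : Matrix (Fin n) (Fin n) K) i j ≠ 0 → s i = s j) ∧
      (∀ j : Fin n, (fun i => (P : Matrix (Fin n) (Fin n) K) i j) ∈ GE x (w j)) ∧
      w ≠ 0 ∧ trk s 1 x = ∑ j ∈ Finset.univ.filter (fun j => s j = 1), w j := by
  classical
  obtain ⟨P, w, hPs, hPw⟩ := all_P s x hx0
  set Q : Matrix (Fin n) (Fin n) K :=
    ((P⁻¹ : Matrix.GeneralLinearGroup (Fin n) K) : Matrix (Fin n) (Fin n) K) with hQ
  have hPQ : (P : Matrix (Fin n) (Fin n) K) * Q = 1 := by
    rw [hQ, ← Units.val_mul, mul_inv_cancel, Units.val_one]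
  have hQP : Q * (P : Matrix (Fin n) (Fin n) K) = 1 := by
    rw [hQ, ← Units.val_mul, inv_mul_cancel, Units.val_one]
  obtain ⟨S, hSc, hSv⟩ := exists_fun x id
  have hcols : ∀ (D : Matrix (Fin n) (Fin n) K) (c : K → K),
      (∀ μ, ∀ v ∈ GE x μ, D *ᵥ v = c μ • v) →
      D * (P : Matrix (Fin n) (Fin n) K) =
        (P : Matrix (Fin n) (Fin n) K) * Matrix.diagonal (fun j => c (w j)) := by
    intro D c hD
    ext i j
    have e1 : (D * (P : Matrix (Fin n) (Fin n) K)) i j =
        (D *ᵥ (fun i => (P : Matrix (Fin n) (Fin n) K) i j)) i := by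
      rw [Matrix.mul_apply]
      rfl
    rw [e1, hD _ _ (hPw j), Matrix.mul_diagonal, Pi.smul_apply, smul_eq_mul, mul_comm]
  have hSP := hcols S id hSv
  have hNn : IsNilpotent (x - S) := by
    refine ⟨n, ?_⟩
    apply Matrix.toLin'.injective
    apply LinearMap.ext
    intro v
    rw [Matrix.toLin'_apply, map_zero, LinearMap.zero_apply]
    refine Submodule.iSup_induction (fun μ => GE x μ) (motive := fun v => (x - S) ^ n *ᵥ v = 0)
      (GE_top x v) ?_ ?_ ?_
    · intro μ v hv
      have h1 : ∀ k : ℕ, (x - S) ^ k *ᵥ v = (x - μ • (1 : Matrix (Fin n) (Fin n) K)) ^ k *ᵥ v ∧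
          (x - μ • (1 : Matrix (Fin n) (Fin n) K)) ^ k *ᵥ v ∈ GE x μ := by
        intro k
        induction k with
        | zero => exact ⟨by rw [pow_zero, pow_zero], by rw [pow_zero, Matrix.one_mulVec]; exact hv⟩
        | succ k ih =>
          obtain ⟨h2, h3⟩ := ih
          have h4 : (x - μ • (1 : Matrix (Fin n) (Fin n) K)) ^ (k + 1) *ᵥ v ∈ GE x μ := by
            rw [pow_succ', ← Matrix.mulVec_mulVec]
            refine GE_comm ?_ h3
            rw [sub_mul, mul_sub, smul_mul_assoc, mul_smul_comm, one_mul, mul_one]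
          refine ⟨?_, h4⟩
          rw [pow_succ', ← Matrix.mulVec_mulVec, h2, Matrix.sub_mulVec, hSv μ _ h3, pow_succ',
            ← Matrix.mulVec_mulVec, Matrix.sub_mulVec, Matrix.smul_mulVec, Matrix.one_mulVec]
          rfl
      rw [(h1 n).1]
      exact mem_GE_n hv
    · rw [Matrix.mulVec_zero]
    · intro u v hu hv
      rw [Matrix.mulVec_add, hu, hv, add_zero]
  refine ⟨P, w, hPs, hPw, ?_, ?_⟩
  · intro hw
    apply hxn
    have h1 : S = 0 := by
      have h2 : (Matrix.diagonal fun j => id (w j)) = (0 : Matrix (Fin n) (Fin n) K) := by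
        rw [hw]
        simp only [id_eq, Pi.zero_apply, Matrix.diagonal_zero]
      rw [h2, mul_zero] at hSP
      calc S = S * ((P : Matrix (Fin n) (Fin n) K) * Q) := by rw [hPQ, mul_one]
        _ = 0 := by rw [← mul_assoc, hSP, zero_mul]
    rw [h1, sub_zero] at hNn
    exact hNn
  · have hpx : pk s 1 * x = x * pk s 1 := pk_comm 1 hx0
    have hpS : pk s 1 * S = S * pk s 1 := hSc _ hpx
    have hpN : Commute (pk s 1) (x - S) := by
      rw [commute_iff_eq, mul_sub, sub_mul, hpx, hpS]
    have hnil : IsNilpotent (pk s 1 * (x - S)) := hpN.isNilpotent_mul_left hNn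
    have hpP : pk s 1 * (P : Matrix (Fin n) (Fin n) K) =
        (P : Matrix (Fin n) (Fin n) K) * pk s 1 := by
      apply pk_comm
      intro i j hij
      rw [hPs i j hij, sub_self]
    have h3 : pk s 1 * x = pk s 1 * (x - S) + pk s 1 * S := by
      rw [← mul_add, sub_add_cancel]
    have h4 : pk s 1 * S = (P : Matrix (Fin n) (Fin n) K) *
        (Matrix.diagonal (fun j => (if s j = 1 then 1 else 0) * w j) * Q) := by
      calc pk s 1 * S = pk s 1 * S * ((P : Matrix (Fin n) (Fin n) K) * Q) := by rw [hPQ, mul_one]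
        _ = pk s 1 * (S * (P : Matrix (Fin n) (Fin n) K)) * Q := by simp only [mul_assoc]
        _ = (pk s 1 * (P : Matrix (Fin n) (Fin n) K)) * Matrix.diagonal (fun j => id (w j)) * Q := by
            rw [hSP]; simp only [mul_assoc]
        _ = (P : Matrix (Fin n) (Fin n) K) * (pk s 1 * Matrix.diagonal (fun j => id (w j))) * Q := by
            rw [hpP]; simp only [mul_assoc]
        _ = _ := by
            rw [pk, Matrix.diagonal_mul_diagonal, mul_assoc]
            rfl
    rw [trk_eq, h3, Matrix.trace_add, (Matrix.isNilpotent_trace_of_isNilpotent hnil).eq_zero,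
      zero_add, h4, Matrix.trace_mul_comm, mul_assoc, hQP, mul_one, Matrix.trace_diagonal,
      Finset.sum_filter]
    refine Finset.sum_congr rfl fun j _ => ?_
    by_cases h : s j = 1 <;> simp [h]

/-- the symmetric pairs -/
theorem card_le (B : Type) [Fintype B] [LinearOrder B] :
    2 * Fintype.card {p : B × B // p.1 ≤ p.2} = Fintype.card B * (Fintype.card B + 1) := by
  classical
  have h1 : (Finset.univ.filter fun p : B × B => p.1 ≤ p.2).card =
      (Finset.univ.filter fun p : B × B => p.2 ≤ p.1).card := by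
    refine Finset.card_bij (fun p _ => p.swap) ?_ ?_ ?_
    · intro p hp
      simpa using hp
    · intro p _ q _ h
      exact Prod.swap_injective h
    · intro p hp
      exact ⟨p.swap, by simpa using hp, Prod.swap_swap p⟩
  have h2 := Finset.card_union_add_card_inter (Finset.univ.filter fun p : B × B => p.1 ≤ p.2)
    (Finset.univ.filter fun p : B × B => p.2 ≤ p.1)
  have h3 : (Finset.univ.filter fun p : B × B => p.1 ≤ p.2) ∪
      (Finset.univ.filter fun p : B × B => p.2 ≤ p.1) = Finset.univ := by
    ext p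
    simp [le_total]
  have h4 : (Finset.univ.filter fun p : B × B => p.1 ≤ p.2) ∩
      (Finset.univ.filter fun p : B × B => p.2 ≤ p.1) = Finset.univ.image fun b : B => (b, b) := by
    ext ⟨x, y⟩
    simp only [Finset.mem_inter, Finset.mem_filter, Finset.mem_univ, true_and, Finset.mem_image,
      Prod.mk.injEq]
    constructor
    · rintro ⟨h5, h6⟩
      exact ⟨x, rfl, le_antisymm h5 h6⟩
    · rintro ⟨b, rfl, rfl⟩
      exact ⟨le_refl _, le_refl _⟩
  have h5 : (Finset.univ.image fun b : B => (b, b)).card = Fintype.card B := by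
    rw [Finset.card_image_of_injective _ (fun x y h => (Prod.mk.inj h).1), Finset.card_univ]
  rw [h3, h4, h5, ← h1, Finset.card_univ, Fintype.card_prod] at h2
  rw [Fintype.card_subtype]
  linarith

/-- elements of degree zero -/
theorem gr0_mul {s : Fin n → ℤ} {a : Submodule K (Matrix (Fin n) (Fin n) K)} (hb : Brk a)
    {x y : Matrix (Fin n) (Fin n) K} (hx : x ∈ gr s 0 a) (hy : y ∈ gr s 0 a) :
    x * y - y * x ∈ gr s 0 a := by
  refine ⟨hb x hx.1 y hy.1, ?_⟩
  intro i j hij
  by_contra hne
  apply hij
  rw [Matrix.sub_apply, Matrix.mul_apply, Matrix.mul_apply, Finset.sum_eq_zero,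
    Finset.sum_eq_zero, sub_zero]
  · intro k _
    by_cases h1 : y i k = 0
    · rw [h1, zero_mul]
    · by_cases h2 : x k j = 0
      · rw [h2, mul_zero]
      · have := hy.2 i k h1
        have := hx.2 k j h2
        omega
  · intro k _
    by_cases h1 : x i k = 0
    · rw [h1, zero_mul]
    · by_cases h2 : y k j = 0
      · rw [h2, mul_zero]
      · have := hx.2 i k h1
        have := hy.2 k j h2
        omega

/-- the ideal of the elements which vanish on the middle piece, of trace zero on the top piece -/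
def R0 (s : Fin n → ℤ) (a : Submodule K (Matrix (Fin n) (Fin n) K)) :
    Submodule K (Matrix (Fin n) (Fin n) K) where
  carrier := {x | x ∈ gr s 0 a ∧ (∀ i j, s j = 0 → x i j = 0) ∧ trk s 1 x = 0}
  add_mem' := by
    rintro x y ⟨hx, hx1, hx2⟩ ⟨hy, hy1, hy2⟩
    refine ⟨Submodule.add_mem _ hx hy, fun i j h => ?_, ?_⟩
    · rw [Matrix.add_apply, hx1 i j h, hy1 i j h, add_zero]
    · rw [trk_eq] at hx2 hy2 ⊢
      rw [Matrix.mul_add, Matrix.trace_add, hx2, hy2, add_zero]
  zero_mem' := ⟨Submodule.zero_mem _, fun _ _ _ => rfl, by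
    rw [trk_eq, Matrix.mul_zero, Matrix.trace_zero]⟩
  smul_mem' := by
    rintro c x ⟨hx, hx1, hx2⟩
    refine ⟨Submodule.smul_mem _ c hx, fun i j h => ?_, ?_⟩
    · rw [Matrix.smul_apply, hx1 i j h, smul_zero]
    · rw [trk_eq] at hx2 ⊢
      rw [Matrix.mul_smul, Matrix.trace_smul, hx2, smul_zero]

theorem R0_ideal {s : Fin n → ℤ} {a : Submodule K (Matrix (Fin n) (Fin n) K)} (hb : Brk a) :
    ∀ x ∈ gr s 0 a, ∀ y ∈ R0 s a, x * y - y * x ∈ R0 s a := by
  rintro x hx y ⟨hy, hy1, hy2⟩
  refine ⟨gr0_mul hb hx hy, fun i j h => ?_, ?_⟩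
  · rw [Matrix.sub_apply, Matrix.mul_apply, Matrix.mul_apply, Finset.sum_eq_zero,
      Finset.sum_eq_zero, sub_zero]
    · intro k _
      by_cases h2 : x k j = 0
      · rw [h2, mul_zero]
      · have := hx.2 k j h2
        rw [hy1 i k (by omega), zero_mul]
    · intro k _
      rw [hy1 k j h, mul_zero]
  · rw [trk_eq, Matrix.mul_sub, Matrix.trace_sub, sub_eq_zero]
    calc (pk s 1 * (x * y)).trace = (x * (pk s 1 * y)).trace := by
          rw [← Matrix.mul_assoc, pk_comm 1 hx.2, Matrix.mul_assoc]
      _ = (pk s 1 * y * x).trace := Matrix.trace_mul_comm _ _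
      _ = (pk s 1 * (y * x)).trace := by rw [Matrix.mul_assoc]

/-- the dimension of the degree zero part, if the ideal is zero -/
theorem dim_le [CharZero K] {ε : K} {ψ : Matrix (Fin n) (Fin n) K} {s : Fin n → ℤ}
    {a : Submodule K (Matrix (Fin n) (Fin n) K)} (hG : GrD ε ψ s a) (h0 : R0 s a = ⊥) :
    2 * Module.finrank K (gr s 0 a) ≤ 2 + (Finset.univ.filter fun j => s j = 0).card *
      ((Finset.univ.filter fun j => s j = 0).card + 1) := by
  classical
  have hu := isUnit_iff_ne_zero.2 hG.unit
  let g : gr s 0 a →ₗ[K] K × ({p : {j // s j = 0} × {j // s j = 0} // p.1 ≤ p.2} → K) :=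
    { toFun := fun x => (trk s 1 (x : Matrix (Fin n) (Fin n) K),
        fun p => (ψ * (x : Matrix (Fin n) (Fin n) K)) p.1.1 p.1.2)
      map_add' := by
        intro x y
        ext
        · simp only [trk_eq, Submodule.coe_add, Matrix.mul_add, Matrix.trace_add, Prod.fst_add]
        · simp only [Submodule.coe_add, Matrix.mul_add, Matrix.add_apply, Prod.snd_add,
            Pi.add_apply]
      map_smul' := by
        intro c x
        ext
        · simp only [trk_eq, Submodule.coe_smul, Matrix.mul_smul, Matrix.trace_smul,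
            Prod.smul_fst, RingHom.id_apply]
        · simp only [Submodule.coe_smul, Matrix.mul_smul, Matrix.smul_apply, Prod.smul_snd,
            Pi.smul_apply, RingHom.id_apply] }
  have hg : Function.Injective g := by
    rw [← LinearMap.ker_eq_bot, LinearMap.ker_eq_bot']
    intro x hx
    have h1 : trk s 1 (x : Matrix (Fin n) (Fin n) K) = 0 := congrArg Prod.fst hx
    have h2 : ∀ i j, s i = 0 → s j = 0 → i ≤ j → (ψ * (x : Matrix (Fin n) (Fin n) K)) i j = 0 := by
      intro i j hi hj hij
      exact congrFun (congrArg Prod.snd hx) ⟨(⟨i, hi⟩, ⟨j, hj⟩), hij⟩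
    have h3 : (ψ * (x : Matrix (Fin n) (Fin n) K)).transpose =
        -(ε • (ψ * (x : Matrix (Fin n) (Fin n) K))) := by
      have h4 : (x : Matrix (Fin n) (Fin n) K).transpose * ψ =
          -(ψ * (x : Matrix (Fin n) (Fin n) K)) := eq_neg_of_add_eq_zero_left (hG.iso x x.2.1)
      rw [Matrix.transpose_mul, hG.symm, Matrix.mul_smul, h4, smul_neg]
    have h4 : ∀ i j, s i = 0 → s j = 0 → (ψ * (x : Matrix (Fin n) (Fin n) K)) i j = 0 := by
      intro i j hi hj
      rcases le_total i j with h | h
      · exact h2 i j hi hj h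
      · have h5 := congrFun (congrFun h3 j) i
        rw [Matrix.transpose_apply, Matrix.neg_apply, Matrix.smul_apply, h2 j i hj hi h,
          smul_zero, neg_zero] at h5
        exact h5
    have h5 : ∀ i j, s j = 0 → (ψ * (x : Matrix (Fin n) (Fin n) K)) i j = 0 := by
      intro i j hj
      by_cases hi : s i = 0
      · exact h4 i j hi hj
      · rw [Matrix.mul_apply]
        refine Finset.sum_eq_zero fun k _ => ?_
        by_cases h6 : (x : Matrix (Fin n) (Fin n) K) k j = 0
        · rw [h6, mul_zero]
        · have h7 := x.2.2 k j h6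
          by_cases h8 : ψ i k = 0
          · rw [h8, zero_mul]
          · have := hG.grad i k h8
            omega
    have h6 : ∀ i j, s j = 0 → (x : Matrix (Fin n) (Fin n) K) i j = 0 := by
      intro i j hj
      have h7 : (x : Matrix (Fin n) (Fin n) K) = ψ⁻¹ * (ψ * (x : Matrix (Fin n) (Fin n) K)) := by
        rw [← Matrix.mul_assoc, Matrix.nonsing_inv_mul ψ hu, Matrix.one_mul]
      rw [h7, Matrix.mul_apply]
      refine Finset.sum_eq_zero fun k _ => ?_
      rw [h5 k j hj, mul_zero]
    have h7 : (x : Matrix (Fin n) (Fin n) K) ∈ R0 s a := ⟨x.2, h6, h1⟩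
    rw [h0, Submodule.mem_bot] at h7
    exact Subtype.ext h7
  have h1 := LinearMap.finrank_le_finrank_of_injective hg
  rw [Module.finrank_prod, Module.finrank_self, Module.finrank_fintype_fun_eq_card] at h1
  have h2 := card_le {j // s j = 0}
  rw [Fintype.card_subtype (fun j => s j = 0)] at h2
  omega

end Tor5

open BND92 Tor POSx Tor5 in
theorem st_TOR5' (eng : ST_ENG) : ST_TOR5 := by
  classical
  intro K _ _ _ n ε ψ s a hG hs
  by_cases h0 : R0 s a = ⊥
  · exact Or.inr (dim_le hG h0)
  · left
    obtain ⟨W, hW, hWn⟩ := eng K n ε ψ s a hG (R0 s a) (fun x hx => hx.1) h0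
      (R0_ideal hG.brk)
    obtain ⟨hW0, hWmid, hWtr⟩ := hW
    obtain ⟨P, w, hPs, hPw, hw, htr⟩ := eig_all W hW0.2 hWn
    obtain ⟨j₀, hj₀⟩ := Function.ne_iff.mp hw
    obtain ⟨φ0, hφ0⟩ : ∃ φ0 : Module.Dual ℚ K, φ0 (w j₀) ≠ 0 := by
      by_contra hcon
      push Not at hcon
      exact hj₀ ((Module.forall_dual_apply_eq_zero_iff ℚ (w j₀)).1 hcon)
    obtain ⟨b, hb⟩ := IsLocalization.exist_integer_multiples_of_finset (nonZeroDivisors ℤ)
      (Finset.univ.image fun j => φ0 (w j))
    have hb0 : (b : ℤ) ≠ 0 := nonZeroDivisors.ne_zero b.2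
    have hint : ∀ j, ∃ m : ℤ, (m : ℚ) = ((b : ℤ) : ℚ) * φ0 (w j) := by
      intro j
      obtain ⟨m, hm⟩ := hb (φ0 (w j)) (Finset.mem_image_of_mem _ (Finset.mem_univ j))
      refine ⟨m, ?_⟩
      have h1 : (m : ℚ) = (b : ℤ) • φ0 (w j) := hm
      rw [h1, zsmul_eq_mul]
    choose d hd using hint
    let φ : K →+ K :=
      { toFun := fun μ => ((((b : ℤ) : ℚ) * φ0 μ : ℚ) : K)
        map_zero' := by rw [map_zero, mul_zero, Rat.cast_zero]
        map_add' := by
          intro x y
          rw [map_add, mul_add, Rat.cast_add] }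
    have hφ : ∀ μ, φ μ = ((((b : ℤ) : ℚ) * φ0 μ : ℚ) : K) := fun μ => rfl
    have hφd : ∀ j, φ (w j) = (d j : K) := by
      intro j
      rw [hφ, ← hd j, Rat.cast_intCast]
    obtain ⟨D, hDc, hDv⟩ := exists_fun W φ
    have hDa : D ∈ a := add_mem_a hG W hW0.1 φ D hDv
    have hDP : D * (P : Matrix (Fin n) (Fin n) K) =
        (P : Matrix (Fin n) (Fin n) K) * Matrix.diagonal (fun j => (d j : K)) := by
      ext i j
      have e1 : (D * (P : Matrix (Fin n) (Fin n) K)) i j =
          (D *ᵥ (fun i => (P : Matrix (Fin n) (Fin n) K) i j)) i := by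
        rw [Matrix.mul_apply]
        rfl
      rw [e1, hDv _ _ (hPw j), Matrix.mul_diagonal, Pi.smul_apply, smul_eq_mul, mul_comm, hφd]
    have hPP : (P : Matrix (Fin n) (Fin n) K) *
        ((P⁻¹ : Matrix.GeneralLinearGroup (Fin n) K) : Matrix (Fin n) (Fin n) K) = 1 := by
      rw [← Units.val_mul, mul_inv_cancel, Units.val_one]
    have hPP' : ((P⁻¹ : Matrix.GeneralLinearGroup (Fin n) K) : Matrix (Fin n) (Fin n) K) *
        (P : Matrix (Fin n) (Fin n) K) = 1 := by
      rw [← Units.val_mul, inv_mul_cancel, Units.val_one]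
    have hDe : (P : Matrix (Fin n) (Fin n) K) * Matrix.diagonal (fun j => (d j : K)) *
        ((P⁻¹ : Matrix.GeneralLinearGroup (Fin n) K) : Matrix (Fin n) (Fin n) K) = D := by
      rw [← hDP, mul_assoc, hPP, mul_one]
    have hPcol : ∀ j, (fun i => (P : Matrix (Fin n) (Fin n) K) i j) ≠ 0 := by
      intro j h
      have h1 := congrFun (congrFun hPP' j) j
      rw [Matrix.mul_apply, Finset.sum_eq_zero, Matrix.one_apply_eq] at h1
      · exact zero_ne_one h1
      · intro k _
        have h2 := congrFun h k
        change (P : Matrix (Fin n) (Fin n) K) k j = 0 at h2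
        rw [h2, mul_zero]
    have hd0 : ∀ i, s i = 0 → d i = 0 := by
      intro j hj
      have h1 : W *ᵥ (fun i => (P : Matrix (Fin n) (Fin n) K) i j) = 0 := by
        funext i
        change ∑ k, W i k * (P : Matrix (Fin n) (Fin n) K) k j = 0
        refine Finset.sum_eq_zero fun k _ => ?_
        by_cases h2 : (P : Matrix (Fin n) (Fin n) K) k j = 0
        · rw [h2, mul_zero]
        · rw [hWmid i k (by rw [hPs k j h2, hj]), zero_mul]
      have h2 : (fun i => (P : Matrix (Fin n) (Fin n) K) i j) ∈ GE W 0 := by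
        rw [mem_GE]
        refine ⟨1, ?_⟩
        rw [zero_smul, sub_zero, pow_one, h1]
      have h3 := hDv 0 _ h2
      rw [hDv _ _ (hPw j), hφd, map_zero, zero_smul] at h3
      have h4 := (smul_eq_zero.1 h3).resolve_right (hPcol j)
      exact Int.cast_eq_zero.1 h4
    refine ⟨P, d, hPs, ?_, hd0, ?_⟩
    · by_contra hcon
      push Not at hcon
      -- the weights on the top piece are zero
      have hsum : ∑ j ∈ Finset.univ.filter (fun j => s j = 1), (d j : K) = 0 := by
        have h1 : φ (∑ j ∈ Finset.univ.filter (fun j => s j = 1), w j) = 0 := by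
          rw [← htr, hWtr, map_zero]
        rw [map_sum] at h1
        rw [← h1]
        exact Finset.sum_congr rfl fun j _ => (hφd j).symm
      have hd1 : ∀ j, s j = 1 → d j = 0 := by
        intro j hj
        have h1 : ∑ i ∈ Finset.univ.filter (fun j => s j = 1), (d i : K) =
            ((Finset.univ.filter (fun j => s j = 1)).card : K) * (d j : K) := by
          rw [Finset.sum_congr rfl fun i hi => by
            rw [hcon i j (Finset.mem_filter.mp hi).2 hj], Finset.sum_const, nsmul_eq_mul]
        rw [hsum] at h1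
        have h2 : ((Finset.univ.filter (fun j => s j = 1)).card : K) ≠ 0 := by
          rw [Nat.cast_ne_zero]
          exact (Finset.card_pos.mpr ⟨j, by simpa using hj⟩).ne'
        exact Int.cast_eq_zero.1 ((mul_eq_zero.1 h1.symm).resolve_left h2)
      -- so `D` is zero
      have hD0 : Hm s 0 D := by
        intro i j hij
        have h1 : (Matrix.diagonal fun i => (s i : K)) * W =
            W * Matrix.diagonal fun i => (s i : K) := by
          ext i j
          rw [Matrix.diagonal_mul, Matrix.mul_diagonal]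
          by_cases h : W i j = 0
          · rw [h, mul_zero, zero_mul]
          · rw [sub_eq_zero.1 (hW0.2 i j h), mul_comm]
        have h2 := congrFun (congrFun (hDc _ h1) i) j
        rw [Matrix.diagonal_mul, Matrix.mul_diagonal] at h2
        have h3 : ((s i : K) - (s j : K)) * D i j = 0 := by linear_combination h2
        have h4 := (mul_eq_zero.1 h3).resolve_right hij
        have h5 : ((s i - s j : ℤ) : K) = 0 := by
          push_cast
          exact h4
        exact Int.cast_eq_zero.1 h5
      have hpk : ∀ k : ℤ, (∀ j, s j = k → d j = 0) → ∀ i j, s j = k → D i j = 0 := by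
        intro k hk i j hj
        have h1 : pk s k * (P : Matrix (Fin n) (Fin n) K) =
            (P : Matrix (Fin n) (Fin n) K) * pk s k := by
          apply pk_comm
          intro i j hij
          rw [hPs i j hij, sub_self]
        have h2 : Matrix.diagonal (fun j => (d j : K)) * pk s k = 0 := by
          rw [pk, Matrix.diagonal_mul_diagonal]
          ext i j
          rw [Matrix.zero_apply]
          by_cases hij : i = j
          · subst hij
            rw [Matrix.diagonal_apply_eq]
            by_cases h3 : s i = k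
            · rw [hk i h3, Int.cast_zero, zero_mul]
            · rw [if_neg h3, mul_zero]
          · exact Matrix.diagonal_apply_ne _ hij
        have h3 : D * pk s k = 0 := by
          calc D * pk s k = D * (pk s k * (P : Matrix (Fin n) (Fin n) K)) *
              ((P⁻¹ : Matrix.GeneralLinearGroup (Fin n) K) : Matrix (Fin n) (Fin n) K) := by
                rw [mul_assoc, mul_assoc, hPP, mul_one]
            _ = (D * (P : Matrix (Fin n) (Fin n) K)) * pk s k *
              ((P⁻¹ : Matrix.GeneralLinearGroup (Fin n) K) : Matrix (Fin n) (Fin n) K) := by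
                rw [h1]; simp only [mul_assoc]
            _ = 0 := by
                rw [hDP, mul_assoc (P : Matrix (Fin n) (Fin n) K), h2, mul_zero, zero_mul]
        have h4 := congrFun (congrFun h3 i) j
        rw [pk, Matrix.mul_diagonal, if_pos hj, mul_one, Matrix.zero_apply] at h4
        exact h4
      have hDz0 := hpk 0 hd0
      have hDz1 := hpk 1 hd1
      have hDzero : D = 0 := by
        have h1 : ψ * D = 0 := by
          ext i j
          rw [Matrix.zero_apply]
          rcases (show s j = 1 ∨ s j = 0 ∨ s j = -1 by have := abs_le.mp (hs j); omega) with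
            h | h | h
          · rw [Matrix.mul_apply]
            exact Finset.sum_eq_zero fun k _ => by rw [hDz1 k j h, mul_zero]
          · rw [Matrix.mul_apply]
            exact Finset.sum_eq_zero fun k _ => by rw [hDz0 k j h, mul_zero]
          · have h2 := congrFun (congrFun (hG.iso D hDa) i) j
            rw [Matrix.add_apply, Matrix.zero_apply, Matrix.mul_apply,
              Finset.sum_eq_zero, zero_add] at h2
            · exact h2
            · intro k _
              rw [Matrix.transpose_apply]
              by_cases h3 : ψ k j = 0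
              · rw [h3, mul_zero]
              · have h4 := hG.grad k j h3
                by_cases h5 : D k i = 0
                · rw [h5, zero_mul]
                · have h6 := hD0 k i h5
                  rw [hDz1 k i (by omega), zero_mul]
        calc D = ψ⁻¹ * (ψ * D) := by
              rw [← Matrix.mul_assoc, Matrix.nonsing_inv_mul ψ (isUnit_iff_ne_zero.2 hG.unit),
                Matrix.one_mul]
          _ = 0 := by rw [h1, Matrix.mul_zero]
      have h1 := hDv _ _ (hPw j₀)
      rw [hDzero, Matrix.zero_mulVec, hφ] at h1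
      have h2 := (smul_eq_zero.1 h1.symm).resolve_right (hPcol j₀)
      rw [Rat.cast_eq_zero] at h2
      exact mul_ne_zero (Int.cast_ne_zero.2 hb0) hφ0 h2
    · rw [hDe]
      exact hDa

end MT
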