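import Pool.Agent.Helper21.WD.GC5b

/-!
# V0I: subspaces of the middle piece
-/

set_option autoImplicit false

open Matrix

namespace MT

open GC5x

open GCDx (cmp_ne cmp_at Hom hom_cmp)

theorem st_V0I' : ST_V0I := by
  intro K _ _ n s d a hb hi hcs hcd hs1 hsd U hU h00 hyx
  classical
  have hs1' : ∀ j, -1 ≤ s j ∧ s j ≤ 1 := fun j => abs_le.mp (hs1 j)
  have hUV : ∀ w ∈ U, HV s d 0 0 w := fun w hw => HV0 hsd (hU w hw)
  set S : Set (Fin n → K) := {v | v ∈ U ∨ ∃ A ∈ a, ∃ e z : ℤ, (e = 1 ∨ e = -1) ∧
    Hom s d e z A ∧ ∃ w ∈ U, v = A.mulVec w} with hS
  have hC : ∀ (p q : ℤ), ∀ C ∈ a, Hom s d p q C → ∀ v ∈ Submodule.span K S,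
      C.mulVec v ∈ Submodule.span K S := by
    intro p q C hCa gC v hv
    have hCU : ∀ w ∈ U, p = 0 → C.mulVec w ∈ U := by
      intro w hw hp
      subst hp
      by_cases hq : q = 0
      · subst hq
        exact h00 C hCa (cmp_of_Hom gC).1 (cmp_of_Hom gC).2 w hw
      · have h1 : C.mulVec w = 0 :=
          HV_zero0 hsd (by simpa using HV_mul gC (hUV w hw)) hq
        rw [h1]
        exact Submodule.zero_mem _
    induction hv using Submodule.span_induction with
    | mem v hv =>
      rcases hv with hw | ⟨A, hA, e, z, he, gA, w, hw, rfl⟩
      · rcases (show p = 0 ∨ (p = 1 ∨ p = -1) ∨ (p < -1 ∨ 1 < p) by omega) with h | h | h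
        · exact Submodule.subset_span (Or.inl (hCU v hw h))
        · exact Submodule.subset_span (Or.inr ⟨C, hCa, p, q, h, gC, v, hw, rfl⟩)
        · have h1 : C.mulVec v = 0 :=
            HV_zero1 hs1' (by simpa using HV_mul gC (hUV v hw)) h
          rw [h1]
          exact Submodule.zero_mem _
      · have gCA := HV_mul gC (HV_mul gA (hUV w hw))
        rcases (show p = -e ∨ p = 0 ∨ p = -2 * e ∨ (p + (e + 0) < -1 ∨ 1 < p + (e + 0)) by omega)
          with h | h | h | h
        · by_cases hq : q = -z
          · refine Submodule.subset_span (Or.inl ?_)
            rcases he with he | he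
            · subst he
              subst hq
              subst h
              exact hyx z C hCa A hA (cmp_of_Hom gC).1 (cmp_of_Hom gC).2 (cmp_of_Hom gA).1
                (cmp_of_Hom gA).2 w hw
            · subst he
              subst hq
              subst h
              rw [brkv]
              refine Submodule.add_mem _ ?_ ?_
              · have g := Hom_brk gC gA (p := 0) (q := 0) (by norm_num) (by ring)
                exact h00 _ (hb _ hCa _ hA) (cmp_of_Hom g).1 (cmp_of_Hom g).2 w hw
              · exact hyx (-z) A hA C hCa (cmp_of_Hom gA).1
                  (by rw [neg_neg]; exact (cmp_of_Hom gA).2)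
                  (by have := (cmp_of_Hom gC).1; simpa using this) (cmp_of_Hom gC).2 w hw
          · have h1 : C.mulVec (A.mulVec w) = 0 := by
              have h2 : p + (e + 0) = 0 := by omega
              rw [h2] at gCA
              exact HV_zero0 hsd gCA (by omega)
            rw [h1]
            exact Submodule.zero_mem _
        · rw [brkv]
          refine Submodule.add_mem _ (Submodule.subset_span (Or.inr ⟨_, hb _ hCa _ hA, e, q + z,
            he, Hom_brk gC gA (by omega) rfl, w, hw, rfl⟩)) ?_
          exact Submodule.subset_span (Or.inr ⟨A, hA, e, z, he, gA, _, hCU w hw h, rfl⟩)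
        · rw [brkv]
          have h1 : C.mulVec w = 0 :=
            HV_zero1 hs1' (HV_mul gC (hUV w hw)) (by omega)
          rw [h1, Matrix.mulVec_zero, add_zero]
          exact Submodule.subset_span (Or.inr ⟨_, hb _ hCa _ hA, -e, q + z,
            by omega, Hom_brk gC gA (by omega) rfl, w, hw, rfl⟩)
        · rw [HV_zero1 hs1' gCA h]
          exact Submodule.zero_mem _
    | zero => rw [Matrix.mulVec_zero]; exact Submodule.zero_mem _
    | add x y _ _ hx hy => rw [Matrix.mulVec_add]; exact Submodule.add_mem _ hx hy
    | smul c x _ hx => rw [Matrix.mulVec_smul]; exact Submodule.smul_mem _ c hx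
  have hst : ∀ C ∈ a, ∀ v ∈ Submodule.span K S, C.mulVec v ∈ Submodule.span K S := by
    intro C hCa v hv
    have h1 : C = ∑ x ∈ (Finset.univ.image fun p : Fin n × Fin n => s p.1 - s p.2),
        ∑ y ∈ (Finset.univ.image fun p : Fin n × Fin n => d p.1 - d p.2),
          cmp s x (cmp d y C) := by
      ext i j
      rw [Matrix.sum_apply, Finset.sum_eq_single (s i - s j)]
      · rw [Matrix.sum_apply, Finset.sum_eq_single (d i - d j)]
        · rw [cmp_at rfl, cmp_at rfl]
        · intro y _ hy
          rw [cmp_at rfl]
          by_contra hne
          exact hy (cmp_ne hne).1.symm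
        · intro hc
          exact absurd (Finset.mem_image_of_mem (fun p : Fin n × Fin n => d p.1 - d p.2)
            (Finset.mem_univ (i, j))) hc
      · intro x _ hx
        rw [Matrix.sum_apply]
        refine Finset.sum_eq_zero fun y _ => ?_
        by_contra hne
        exact hx (cmp_ne hne).1.symm
      · intro hc
        exact absurd (Finset.mem_image_of_mem (fun p : Fin n × Fin n => s p.1 - s p.2)
          (Finset.mem_univ (i, j))) hc
    rw [h1, Matrix.sum_mulVec]
    refine Submodule.sum_mem _ fun x _ => ?_
    rw [Matrix.sum_mulVec]
    refine Submodule.sum_mem _ fun y _ => ?_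
    exact hC x y _ (hcs _ (hcd _ hCa _) _) (hom_cmp _ _ _ _ _) v hv
  rcases hi _ hst with h | h
  · left
    rw [eq_bot_iff]
    intro v hv
    have h1 : v ∈ Submodule.span K S := Submodule.subset_span (Or.inl hv)
    rw [h] at h1
    exact h1
  · right
    intro v hv
    have h1 : v ∈ Submodule.span K S := by rw [h]; exact Submodule.mem_top
    have h2 : ∀ v ∈ Submodule.span K S, (fun j => if s j = 0 then v j else 0) ∈ U := by
      intro v hv
      induction hv using Submodule.span_induction with
      | mem v hv =>
        rcases hv with hw | ⟨A, hA, e, z, he, gA, w, hw, rfl⟩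
        · have h3 : (fun j => if s j = 0 then v j else 0) = v := by
            funext j
            by_cases hj : s j = 0
            · rw [if_pos hj]
            · rw [if_neg hj]
              by_contra hne
              exact hj (hU v hw j (Ne.symm hne))
          rw [h3]
          exact hw
        · have h3 : (fun j => if s j = 0 then A.mulVec w j else 0) = 0 := by
            funext j
            by_cases hj : s j = 0
            · rw [if_pos hj]
              by_contra hne
              have := (HV_mul gA (hUV w hw) j hne).1
              omega
            · rw [if_neg hj]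
              rfl
          rw [h3]
          exact Submodule.zero_mem _
      | zero =>
        have h3 : (fun j => if s j = 0 then (0 : Fin n → K) j else 0) = 0 := by
          funext j
          simp
        rw [h3]
        exact Submodule.zero_mem _
      | add x y _ _ hx hy =>
        have h3 : (fun j => if s j = 0 then (x + y) j else 0) =
            (fun j => if s j = 0 then x j else 0) + fun j => if s j = 0 then y j else 0 := by
          funext j
          by_cases hj : s j = 0 <;> simp [hj]
        rw [h3]
        exact Submodule.add_mem _ hx hy
      | smul c x _ hx =>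
        have h3 : (fun j => if s j = 0 then (c • x) j else 0) =
            c • fun j => if s j = 0 then x j else 0 := by
          funext j
          by_cases hj : s j = 0 <;> simp [hj]
        rw [h3]
        exact Submodule.smul_mem _ c hx
    have h3 := h2 v h1
    have h4 : (fun j => if s j = 0 then v j else 0) = v := by
      funext j
      by_cases hj : s j = 0
      · rw [if_pos hj]
      · rw [if_neg hj]
        by_contra hne
        exact hj (hv j (Ne.symm hne))
    rw [h4] at h3
    exact h3

end MT
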