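import Pool.Agent.Helper21.WD.GC5b

/-!
# GC5, part 3: the middle piece is generated by, and separated by, each piece of the top piece
-/

set_option autoImplicit false

open Matrix

namespace MT

namespace GC5x

open GCDx (blk_apply blk_mul blk_zero cmp_ne cmp_at Hom hom_cmp ex re ex_apply ex_ne re_ex ex_re
  blk_mulVec)

variable {K : Type} [Field K] [CharZero K] {n : ℕ} {s d : Fin n → ℤ}
  {a : Submodule K (Matrix (Fin n) (Fin n) K)}

/-- `V_0` is spanned by `L_(-1) V_1^u` -/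
theorem mid_span (v0i : ST_V0I) (tpi : ST_TPI) (hi : LIrr a) (D : Dat s d a)
    (sp1 : ∀ v : Fin n → K, (∀ j, v j ≠ 0 → s j = 0) →
      v ∈ Submodule.span K {u | ∃ A ∈ a, cmp s (-1) A = A ∧ ∃ x : Fin n → K,
        (∀ j, x j ≠ 0 → s j = 1) ∧ u = A.mulVec x}) (hex0 : ∃ j, s j = 0) (u : ℤ)
    (hu : ∃ j, P s d u j) (v : {j // Q s j} → K) :
    v ∈ Submodule.span K {w | ∃ y ∈ Bm s d a u, ∃ u' : {j // P s d u j} → K,
      w = y.mulVec u'} := by
  classical
  set U : Submodule K (Fin n → K) := Submodule.span K {w | ∃ A ∈ a, Hom s d (-1) (-u) A ∧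
    ∃ x : Fin n → K, HV s d 1 u x ∧ w = A.mulVec x} with hU
  have hU1 : ∀ v ∈ U, ∀ j, v j ≠ 0 → s j = 0 := by
    intro v hv
    induction hv using Submodule.span_induction with
    | mem v hv =>
      obtain ⟨A, hA, hA1, x, hx, rfl⟩ := hv
      intro j hj
      have := (HV_mul hA1 hx j hj).1
      omega
    | zero => intro j hj; exact absurd rfl hj
    | add x y _ _ hx hy =>
      intro j hj
      by_cases h : x j = 0
      · refine hy j fun h' => hj ?_
        rw [Pi.add_apply, h, h', add_zero]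
      · exact hx j h
    | smul c x _ hx =>
      intro j hj
      exact hx j fun h => hj (by rw [Pi.smul_apply, h, smul_zero])
  have h00 : ∀ A ∈ a, cmp s 0 A = A → cmp d 0 A = A → ∀ v ∈ U, A.mulVec v ∈ U := by
    intro Z hZ hZ1 hZ2 w hw
    have gZ := Hom_of_cmp hZ1 hZ2
    induction hw using Submodule.span_induction with
    | mem w hw =>
      obtain ⟨A, hA, hA1, x, hx, rfl⟩ := hw
      rw [brkv]
      refine Submodule.add_mem _ (Submodule.subset_span ⟨_, D.brk _ hZ _ hA,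
        Hom_brk gZ hA1 (by norm_num) (by ring), x, hx, rfl⟩)
        (Submodule.subset_span ⟨A, hA, hA1, _, ?_, rfl⟩)
      have := HV_mul gZ hx
      simpa using this
    | zero => rw [Matrix.mulVec_zero]; exact Submodule.zero_mem _
    | add x y _ _ hx hy => rw [Matrix.mulVec_add]; exact Submodule.add_mem _ hx hy
    | smul c x _ hx => rw [Matrix.mulVec_smul]; exact Submodule.smul_mem _ c hx
  have hyx : ∀ (z : ℤ), ∀ A ∈ a, ∀ B ∈ a, cmp s (-1) A = A → cmp d (-z) A = A →
      cmp s 1 B = B → cmp d z B = B → ∀ v ∈ U, A.mulVec (B.mulVec v) ∈ U := by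
    intro z A hA B hB hA1 hA2 hB1 hB2 w hw
    have gA := Hom_of_cmp hA1 hA2
    have gB := Hom_of_cmp hB1 hB2
    induction hw using Submodule.span_induction with
    | mem w hw =>
      obtain ⟨C, hC, gC, x, hx, rfl⟩ := hw
      by_cases hz : z = u
      · subst hz
        refine Submodule.subset_span ⟨A, hA, gA, _, ?_, rfl⟩
        have := HV_mul gB (HV_mul gC hx)
        simpa using this
      · have h1 : B.mulVec x = 0 :=
          HV_zero1 D.s1 (HV_mul gB hx) (by norm_num)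
        have h2 : A.mulVec x = 0 :=
          HV_zero0 D.sd (by simpa using HV_mul gA hx) (by omega)
        have h3 : A.mulVec (B.mulVec (C.mulVec x)) =
            (A * (B * C - C * B) - (B * C - C * B) * A).mulVec x := by
          simp only [Matrix.sub_mulVec, Matrix.mul_sub, Matrix.sub_mul, ← Matrix.mulVec_mulVec,
            h1, h2, Matrix.mulVec_zero, sub_zero]
        rw [h3]
        refine Submodule.subset_span ⟨_, D.brk _ hA _ (D.brk _ hB _ hC), ?_, x, hx, rfl⟩
        exact Hom_brk gA (Hom_brk gB gC (p := 0) (q := z - u) (by norm_num) (by ring))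
          (by norm_num) (by ring)
    | zero => rw [Matrix.mulVec_zero, Matrix.mulVec_zero]; exact Submodule.zero_mem _
    | add x y _ _ hx hy =>
      rw [Matrix.mulVec_add, Matrix.mulVec_add]; exact Submodule.add_mem _ hx hy
    | smul c x _ hx =>
      rw [Matrix.mulVec_smul, Matrix.mulVec_smul]; exact Submodule.smul_mem _ c hx
  rcases v0i K n s d a D.brk hi D.cs D.cd (fun j => abs_le.mpr (D.s1 j)) D.sd U hU1 h00 hyx with
    h | h
  · exfalso
    obtain ⟨j₀, hj₀, hj₀'⟩ := hu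
    have h1 : (Pi.single ⟨j₀, hj₀, hj₀'⟩ 1 : {j // P s d u j} → K) = 0 := by
      refine top_ker tpi hi D sp1 hex0 u _ fun y hy => ?_
      obtain ⟨Y, hY, gY, rfl⟩ := Bm_hom D hy
      have h2 : Y.mulVec (ex (P s d u) (Pi.single ⟨j₀, hj₀, hj₀'⟩ 1)) ∈ U :=
        Submodule.subset_span ⟨Y, hY, gY, _, fun j hj => ex_ne _ _ hj, rfl⟩
      rw [h, Submodule.mem_bot] at h2
      rw [blk_mulVec, h2, map_zero]
    have h2 := congrFun h1 ⟨j₀, hj₀, hj₀'⟩
    rw [Pi.single_eq_same] at h2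
    exact one_ne_zero h2
  · have h1 := h (ex (Q s) v) (fun j hj => ex_ne _ v hj)
    have h3 : v ∈ U.map (re (Q s)) := ⟨_, h1, re_ex _ v⟩
    rw [hU, Submodule.map_span] at h3
    refine Submodule.span_mono ?_ h3
    rintro _ ⟨_, ⟨A, hA, -, x, hx, rfl⟩, rfl⟩
    refine ⟨_, Submodule.mem_map_of_mem hA, re (P s d u) x, ?_⟩
    rw [blk_mulVec, ex_re (P s d u) x hx]

/-- `V_0` is separated by `L_1^u` -/
theorem mid_ker (v0i : ST_V0I) (tpi : ST_TPI) (hi : LIrr a) (D : Dat s d a)
    (sp2 : ∀ v : Fin n → K, (∀ j, v j ≠ 0 → s j = 0) →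
      (∀ A ∈ a, cmp s 1 A = A → A.mulVec v = 0) → v = 0) (hex0 : ∃ j, s j = 0) (u : ℤ)
    (hu : ∃ j, P s d u j) (v : {j // Q s j} → K)
    (hv : ∀ x ∈ Bp s d a u, x.mulVec v = 0) : v = 0 := by
  classical
  let U : Submodule K (Fin n → K) :=
    { carrier := {w | (∀ j, w j ≠ 0 → s j = 0) ∧ ∀ A ∈ a, Hom s d 1 u A → A.mulVec w = 0}
      add_mem' := by
        rintro x y ⟨hx, hx'⟩ ⟨hy, hy'⟩
        refine ⟨fun j hj => ?_, fun A hA hA1 => ?_⟩
        · by_cases h : x j = 0
          · refine hy j fun h' => hj ?_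
            rw [Pi.add_apply, h, h', add_zero]
          · exact hx j h
        · rw [Matrix.mulVec_add, hx' A hA hA1, hy' A hA hA1, add_zero]
      zero_mem' := ⟨fun j hj => absurd rfl hj, fun A _ _ => Matrix.mulVec_zero A⟩
      smul_mem' := by
        rintro c x ⟨hx, hx'⟩
        refine ⟨fun j hj => hx j fun h => hj ?_, fun A hA hA1 => ?_⟩
        · rw [Pi.smul_apply, h, smul_zero]
        · rw [Matrix.mulVec_smul, hx' A hA hA1, smul_zero] }
  have h00 : ∀ A ∈ a, cmp s 0 A = A → cmp d 0 A = A → ∀ v ∈ U, A.mulVec v ∈ U := by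
    rintro Z hZ hZ1 hZ2 w ⟨hw1, hw2⟩
    have gZ := Hom_of_cmp hZ1 hZ2
    refine ⟨fun j hj => ?_, fun A hA gA => ?_⟩
    · have := (HV_mul gZ (HV0 D.sd hw1) j hj).1
      omega
    · rw [brkv, hw2 _ (D.brk _ hA _ hZ) (Hom_brk gA gZ (by norm_num) (by ring)), hw2 A hA gA,
        Matrix.mulVec_zero, add_zero]
  have hyx : ∀ (z : ℤ), ∀ A ∈ a, ∀ B ∈ a, cmp s (-1) A = A → cmp d (-z) A = A →
      cmp s 1 B = B → cmp d z B = B → ∀ v ∈ U, A.mulVec (B.mulVec v) ∈ U := by
    rintro z A hA B hB hA1 hA2 hB1 hB2 w ⟨hw1, hw2⟩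
    have gA := Hom_of_cmp hA1 hA2
    have gB := Hom_of_cmp hB1 hB2
    have gw := HV0 D.sd hw1
    refine ⟨fun j hj => ?_, fun C hC gC => ?_⟩
    · have := (HV_mul gA (HV_mul gB gw) j hj).1
      omega
    · by_cases hz : z = u
      · subst hz
        rw [hw2 B hB gB, Matrix.mulVec_zero, Matrix.mulVec_zero]
      · have h1 : C.mulVec (B.mulVec w) = 0 :=
          HV_zero1 D.s1 (HV_mul gC (HV_mul gB gw)) (by norm_num)
        have h2 : C.mulVec (A.mulVec w) = 0 :=
          HV_zero0 D.sd (by simpa using HV_mul gC (HV_mul gA gw)) (by omega)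
        have h3 : C.mulVec (A.mulVec (B.mulVec w)) =
            ((C * A - A * C) * B - B * (C * A - A * C)).mulVec w := by
          simp only [Matrix.sub_mulVec, Matrix.mul_sub, Matrix.sub_mul, ← Matrix.mulVec_mulVec,
            h1, h2, hw2 C hC gC, Matrix.mulVec_zero, sub_zero]
        rw [h3]
        exact hw2 _ (D.brk _ (D.brk _ hC _ hA) _ hB)
          (Hom_brk (Hom_brk gC gA (p := 0) (q := u - z) (by norm_num) (by ring)) gB
            (by norm_num) (by ring))
  rcases v0i K n s d a D.brk hi D.cs D.cd (fun j => abs_le.mpr (D.s1 j)) D.sd U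
    (fun v hv => hv.1) h00 hyx with h | h
  · have h1 : ex (Q s) v ∈ U := by
      refine ⟨fun j hj => ex_ne _ v hj, fun A hA gA => ?_⟩
      funext i
      by_cases hi0 : P s d u i
      · have h2 := congrFun (hv _ (Submodule.mem_map_of_mem hA)) ⟨i, hi0⟩
        rw [blk_mulVec] at h2
        exact h2
      · by_contra hne
        have h2 := HV_mul gA (HV0 D.sd (fun j hj => ex_ne (Q s) v hj)) i hne
        exact hi0 ⟨by omega, by omega⟩
    rw [h, Submodule.mem_bot] at h1
    rw [← re_ex (Q s) v, h1, map_zero]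
  · exfalso
    obtain ⟨j₀, hj₀, hj₀'⟩ := hu
    have h1 := top_span tpi hi D sp2 hex0 u (Pi.single ⟨j₀, hj₀, hj₀'⟩ 1)
    have h2 : (Pi.single ⟨j₀, hj₀, hj₀'⟩ 1 : {j // P s d u j} → K) ∈
        (⊥ : Submodule K ({j // P s d u j} → K)) := by
      refine Submodule.span_le.mpr ?_ h1
      rintro _ ⟨x, hx, u', rfl⟩
      rw [SetLike.mem_coe, Submodule.mem_bot]
      obtain ⟨X, hX, gX, rfl⟩ := Bp_hom D hx
      rw [blk_mulVec, (h (ex (Q s) u') (fun j hj => ex_ne _ _ hj)).2 X hX gX, map_zero]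
    rw [Submodule.mem_bot] at h2
    have h3 := congrFun h2 ⟨j₀, hj₀, hj₀'⟩
    rw [Pi.single_eq_same] at h3
    exact one_ne_zero h3

end GC5x

end MT
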