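import Pool.Agent.Helper21.WD.Stmts

/-!
# Coprime Hodge numbers: the types `(a, b, a)` with `b` large: exact statements (T13, part E)
Proofs: /team-store/wd2_helper21.md
-/

set_option autoImplicit false

namespace MT

/-- the elements of `a` which live on the middle piece -/
def Mid0 {K : Type} [Field K] {n : ℕ} (s : Fin n → ℤ)
    (a : Submodule K (Matrix (Fin n) (Fin n) K)) : Submodule K (Matrix (Fin n) (Fin n) K) where
  carrier := {z | z ∈ a ∧ ∀ i j, z i j ≠ 0 → s i = 0 ∧ s j = 0}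
  add_mem' := by
    rintro x y ⟨hx, hx'⟩ ⟨hy, hy'⟩
    refine ⟨a.add_mem hx hy, fun i j hij => ?_⟩
    by_cases h : x i j = 0
    · refine hy' i j fun h' => hij ?_
      rw [Matrix.add_apply, h, h', add_zero]
    · exact hx' i j h
  zero_mem' := ⟨a.zero_mem, fun i j hij => absurd rfl hij⟩
  smul_mem' := by
    rintro c x ⟨hx, hx'⟩
    refine ⟨a.smul_mem c hx, fun i j hij => hx' i j fun h => hij ?_⟩
    rw [Matrix.smul_apply, h, smul_zero]

/-- TR2: a torus with two non-conjugate weights on the middle piece, or few elements living on the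
middle piece (see TOR). -/
def ST_TR2 : Prop :=
  ∀ (K : Type) [Field K] [CharZero K] [IsAlgClosed K] (n : ℕ) (ε : K)
    (ψ : Matrix (Fin n) (Fin n) K) (s : Fin n → ℤ)
    (a : Submodule K (Matrix (Fin n) (Fin n) K)), GrD ε ψ s a →
    (∃ (P : Matrix.GeneralLinearGroup (Fin n) K) (d : Fin n → ℤ),
      (∀ i j, (P : Matrix (Fin n) (Fin n) K) i j ≠ 0 → s i = s j) ∧
      (∃ i j, s i = 0 ∧ s j = 0 ∧ d i ≠ d j ∧ d i + d j ≠ 0) ∧ (∀ i, s i ≠ 0 → d i = 0) ∧
      (P : Matrix (Fin n) (Fin n) K) * Matrix.diagonal (fun j => (d j : K)) *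
        ((P⁻¹ : Matrix.GeneralLinearGroup (Fin n) K) : Matrix (Fin n) (Fin n) K) ∈ a) ∨
    Module.finrank K (Mid0 s a) ≤ 3

/-- BD2: the middle piece is small if there are few elements of degree two and few elements which
live on the middle piece (from TRC and SPB; see BND). -/
def ST_BD2 : Prop :=
  ∀ (K : Type) [Field K] [CharZero K] [IsAlgClosed K] (n : ℕ) (ε : K)
    (ψ : Matrix (Fin n) (Fin n) K) (s : Fin n → ℤ)
    (a : Submodule K (Matrix (Fin n) (Fin n) K)), GrD ε ψ s a → (∀ j, |s j| ≤ 1) →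
    (∃ j, s j = 1) →
    (∃ X₀ : Matrix (Fin n) (Fin n) K, ∀ z ∈ a, cmp s 2 z = z → ∃ c : K, z = c • X₀) →
    (Finset.univ.filter fun j => s j = 0).card ≤ (Finset.univ.filter fun j => s j = 1).card *
      ((Finset.univ.filter fun j => s j = 1).card ^ 2 + Module.finrank K (Mid0 s a) + 1)

/-- SC2: elements of degree two (see SCP). -/
def ST_SC2 : Prop :=
  ∀ (K : Type) [Field K] [CharZero K] [IsAlgClosed K] (n : ℕ) (ε : K)
    (ψ : Matrix (Fin n) (Fin n) K) (s : Fin n → ℤ)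
    (a : Submodule K (Matrix (Fin n) (Fin n) K)), GrD ε ψ s a →
    (∀ j, |s j| ≤ 1) → (∃ j, s j = 1) → (∃ j, s j = 0) →
    (∀ u : ℕ, u ∣ (Finset.univ.filter fun j => s j = 1).card →
      u ∣ (Finset.univ.filter fun j => s j = 0).card → u = 1) →
    (∃ X₀ : Matrix (Fin n) (Fin n) K, ∀ z ∈ a, cmp s 2 z = z → ∃ c : K, z = c • X₀) ∨
      ∀ A : Matrix (Fin n) (Fin n) K, A.transpose * ψ + ψ * A = 0 → A ∈ a

/-- WT3: the types `(α, β, α)` with `β` large (from TR2, BD2, SC2, GCD). -/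
def ST_WT3 : Prop :=
  ∀ (K : Type) [Field K] [CharZero K] [IsAlgClosed K] (n : ℕ) (ε : K)
    (ψ : Matrix (Fin n) (Fin n) K) (s : Fin n → ℤ)
    (a : Submodule K (Matrix (Fin n) (Fin n) K)), GrD ε ψ s a → (∀ j, |s j| ≤ 1) →
    (∃ j, s j = 1) →
    (Finset.univ.filter fun j => s j = 1).card ^ 3 +
      4 * (Finset.univ.filter fun j => s j = 1).card <
        (Finset.univ.filter fun j => s j = 0).card →
    (∀ u : ℕ, u ∣ (Finset.univ.filter fun j => s j = 1).card →
      u ∣ (Finset.univ.filter fun j => s j = 0).card → u = 1) →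
    ∀ A : Matrix (Fin n) (Fin n) K, A.transpose * ψ + ψ * A = 0 → A ∈ a

end MT
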