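import Pool.Agent.Helper21.WD.WT2
import Pool.Agent.Helper21.WD.GC5c
import Pool.Agent.Helper21.WD.Stmts2

/-!
# WT5: the types `(a, b, a)` with `2 a ≥ b ^ 2 + b + 3`
-/

set_option autoImplicit false

open Matrix

namespace MT

open Wtx BND92

theorem wt5_arith (a b d l e : ℕ) (h1 : 2 * l ≤ 2 + b * (b + 1)) (h2 : e ≤ 1)
    (h3 : 2 * a * d ≤ b * (l + d + 2 * e)) (h4 : a ≤ b * d) (h5 : b ^ 2 + b + 3 ≤ 2 * a) :
    False := by
  have h6 : 4 * a * d ≤ b * (2 * l + 2 * d + 4) := by
    have : b * (l + d + 2 * e) ≤ b * (l + d + 2) := Nat.mul_le_mul_left _ (by omega)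
    nlinarith
  have h7 : b * (2 * l + 2 * d + 4) ≤ b * (b * (b + 1) + 2 * d + 6) :=
    Nat.mul_le_mul_left _ (by omega)
  have h8 : 2 * (b ^ 2 + b + 3) * d ≤ 4 * a * d := Nat.mul_le_mul_right _ (by omega)
  have h9 : d * (2 * b ^ 2 + 6) ≤ b * (b ^ 2 + b + 6) := by nlinarith
  have h10 : b ^ 2 + b + 3 ≤ 2 * (b * d) := by omega
  have h11 : (b ^ 2 + b + 3) * (2 * b ^ 2 + 6) ≤ 2 * (b * d) * (2 * b ^ 2 + 6) :=
    Nat.mul_le_mul_right _ h10
  have h12 : 2 * (b * d) * (2 * b ^ 2 + 6) ≤ 2 * b * (b * (b ^ 2 + b + 6)) := by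
    calc 2 * (b * d) * (2 * b ^ 2 + 6) = 2 * b * (d * (2 * b ^ 2 + 6)) := by ring
      _ ≤ 2 * b * (b * (b ^ 2 + b + 6)) := Nat.mul_le_mul_left _ h9
  nlinarith

section

variable {K : Type} [Field K] {n : ℕ}

/-- the top piece is generated by the middle piece -/
theorem top_le [CharZero K] (spb : ST_SPB) (tpi : ST_TPI) {ε : K}
    {ψ : Matrix (Fin n) (Fin n) K} {s : Fin n → ℤ}
    {a : Submodule K (Matrix (Fin n) (Fin n) K)} (gs : GrD ε ψ s a) (hs : ∀ j, |s j| ≤ 1)
    (h1 : ∃ j, s j = 1) (h0 : ∃ j, s j = 0) :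
    (Finset.univ.filter fun j => s j = 1).card ≤
      (Finset.univ.filter fun j => s j = 0).card * Module.finrank K (gr s 1 a) := by
  have D : GC5x.Dat s 0 a := ⟨gs.brk, gs.comp, fun A hA x => by
    by_cases hx : x = 0
    · have h2 : cmp (0 : Fin n → ℤ) x A = A := by
        ext i j
        simp [cmp, hx]
      rw [h2]
      exact hA
    · have h2 : cmp (0 : Fin n → ℤ) x A = 0 := by
        ext i j
        simp [cmp, Ne.symm hx]
      rw [h2]
      exact Submodule.zero_mem _, fun j => abs_le.mp (hs j), fun _ _ => rfl⟩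
  let g : ({j // s j = 0} → gr s 1 a) →ₗ[K] ({j // s j = 1} → K) :=
    { toFun := fun Y i => ∑ j : {j // s j = 0}, (Y j : Matrix (Fin n) (Fin n) K) i.1 j.1
      map_add' := by
        intro Y Y'
        ext i
        simp only [Pi.add_apply, Submodule.coe_add, Matrix.add_apply, Finset.sum_add_distrib]
      map_smul' := by
        intro c Y
        ext i
        simp only [Pi.smul_apply, Submodule.coe_smul, Matrix.smul_apply, smul_eq_mul,
          Finset.mul_sum, RingHom.id_apply] }
  have hg : Function.Surjective g := by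
    intro v
    have hsp := GC5x.top_span tpi gs.irr D (spb K n ε ψ s a gs hs h1).2 h0 0
      (fun j => v ⟨j.1, j.2.1⟩)
    have key : ∀ w ∈ Submodule.span K {u : {j // GC5x.P s 0 0 j} → K |
        ∃ x ∈ GC5x.Bp s 0 a 0, ∃ u' : {j // GC5x.Q s j} → K, u = x.mulVec u'},
        (fun i : {j // s j = 1} => w ⟨i.1, i.2, rfl⟩) ∈ LinearMap.range g := by
      intro w hw
      induction hw using Submodule.span_induction with
      | mem u hu =>
        obtain ⟨x, hx, p, rfl⟩ := hu
        obtain ⟨A, hA, hA1, rfl⟩ := GC5x.Bp_hom D hx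
        have hAm : A ∈ gr s 1 a := ⟨hA, fun i j hij => (hA1 i j hij).1⟩
        refine ⟨fun j => p j • ⟨A, hAm⟩, ?_⟩
        ext i
        change ∑ j : {j // s j = 0}, (p j • A) i.1 j.1 = ∑ j : {j // s j = 0}, A i.1 j.1 * p j
        refine Finset.sum_congr rfl fun k _ => ?_
        rw [Matrix.smul_apply, smul_eq_mul, mul_comm]
      | zero => exact Submodule.zero_mem _
      | add u w _ _ hu hw =>
        exact Submodule.add_mem _ hu hw
      | smul c u _ hu => exact Submodule.smul_mem _ c hu
    obtain ⟨Y, hY⟩ := key _ hsp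
    exact ⟨Y, hY⟩
  have h3 := LinearMap.finrank_le_finrank_of_surjective hg
  rw [Module.finrank_fintype_fun_eq_card, Fintype.card_subtype, Module.finrank_pi_fintype] at h3
  simp only [Finset.sum_const, Finset.card_univ, smul_eq_mul] at h3
  rwa [Fintype.card_subtype] at h3

end

theorem st_WT5 (hGRA : ST_GRA) (tor5 : ST_TOR5) (pos0 : ST_POS0) (gc5 : ST_GC5) (sc2 : ST_SC2)
    (spb : ST_SPB) (tpi : ST_TPI) : ST_WT5 := by
  intro K _ _ _ n ε ψ s a gs hs1 hex0 hlt hcop
  have hex : ∃ j, s j = 1 := by
    obtain ⟨j, hj⟩ := Finset.card_pos.mp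
      (show 0 < (Finset.univ.filter fun j => s j = 1).card by omega)
    exact ⟨j, (Finset.mem_filter.mp hj).2⟩
  rcases tor5 K n ε ψ s a gs hs1 with ⟨P, d, hP, htwo, hd0, hD⟩ | hrk
  · set p : Matrix (Fin n) (Fin n) K := (P : Matrix (Fin n) (Fin n) K) with hp
    set q : Matrix (Fin n) (Fin n) K :=
      ((P⁻¹ : Matrix.GeneralLinearGroup (Fin n) K) : Matrix (Fin n) (Fin n) K) with hq
    have hpq : p * q = 1 := p_q P
    have hqp : q * p = 1 := q_p P
    have hcp : p * Matrix.diagonal (fun j => (s j : K)) =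
        Matrix.diagonal (fun j => (s j : K)) * p := by
      ext i j
      rw [Matrix.mul_diagonal, Matrix.diagonal_mul]
      by_cases h0 : p i j = 0
      · rw [h0, zero_mul, mul_zero]
      · rw [hP i j h0, mul_comm]
    have hcq : q * Matrix.diagonal (fun j => (s j : K)) =
        Matrix.diagonal (fun j => (s j : K)) * q := by
      calc q * Matrix.diagonal (fun j => (s j : K))
          = q * (Matrix.diagonal (fun j => (s j : K)) * p) * q := by
            rw [Matrix.mul_assoc, Matrix.mul_assoc, hpq, Matrix.mul_one]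
        _ = Matrix.diagonal (fun j => (s j : K)) * q := by
            rw [← hcp, ← Matrix.mul_assoc, hqp, Matrix.one_mul]
    have hQ : ∀ i j, q i j ≠ 0 → s i = s j := by
      intro i j h0
      have h1 := congrFun (congrFun hcq i) j
      rw [Matrix.mul_diagonal, Matrix.diagonal_mul, mul_comm] at h1
      have h2 := mul_right_cancel₀ h0 h1
      exact_mod_cast h2.symm
    have hcm : ∀ (X : Matrix (Fin n) (Fin n) K) (x : ℤ),
        p * cmp s x X * q = cmp s x (p * X * q) := by
      intro X x
      ext i j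
      simp only [cmp, Matrix.mul_apply, Matrix.of_apply]
      by_cases hx : s i - s j = x
      · rw [if_pos hx]
        refine Finset.sum_congr rfl fun l _ => ?_
        by_cases hl : q l j = 0
        · rw [hl, mul_zero, mul_zero]
        · congr 1
          refine Finset.sum_congr rfl fun k _ => ?_
          by_cases hk : p i k = 0
          · rw [hk, zero_mul, zero_mul]
          · have h1 := hQ l j hl
            have h2 := hP i k hk
            rw [if_pos (by omega)]
      · rw [if_neg hx]
        refine Finset.sum_eq_zero fun l _ => ?_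
        by_cases hl : q l j = 0
        · rw [hl, mul_zero]
        · have h3 : ∑ k, p i k * (if s k - s l = x then X k l else 0) = 0 := by
            refine Finset.sum_eq_zero fun k _ => ?_
            by_cases hk : p i k = 0
            · rw [hk, zero_mul]
            · have h1 := hQ l j hl
              have h2 := hP i k hk
              rw [if_neg (by omega), mul_zero]
          rw [h3, zero_mul]
    have hψs : ∀ i j, (p.transpose * ψ * p) i j ≠ 0 → s i + s j = 0 := by
      intro i j hij
      rw [Matrix.mul_apply] at hij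
      obtain ⟨l, -, hl⟩ := Finset.exists_ne_zero_of_sum_ne_zero hij
      have hl1 := left_ne_zero_of_mul hl
      rw [Matrix.mul_apply] at hl1
      obtain ⟨k, -, hk⟩ := Finset.exists_ne_zero_of_sum_ne_zero hl1
      have h1 := hP k i (left_ne_zero_of_mul hk)
      have h2 := gs.grad k l (right_ne_zero_of_mul hk)
      have h3 := hP l j (right_ne_zero_of_mul hl)
      omega
    have gs' := chg (s := s) P gs.unit gs.symm gs.sign gs.brk gs.irr gs.iso hψs (by
      intro A hA x
      show cjP P (cmp s x A) ∈ a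
      rw [cjP_apply, hcm]
      exact gs.comp _ hA x)
    have hD' : Matrix.diagonal (fun j => (d j : K)) ∈ a.comap (cjP P) := hD
    have hψd : ∀ i j, (p.transpose * ψ * p) i j ≠ 0 → d i + d j = 0 := by
      intro i j hij
      have h1 := congrFun (congrFun (gs'.iso _ hD') i) j
      rw [Matrix.diagonal_transpose, Matrix.add_apply, Matrix.diagonal_mul,
        Matrix.mul_diagonal, Matrix.zero_apply] at h1
      have h2 : ((d i + d j : ℤ) : K) * (p.transpose * ψ * p) i j = 0 := by
        rw [← h1]
        push_cast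
        ring
      have h3 := (mul_eq_zero.mp h2).resolve_right hij
      exact_mod_cast h3
    have gd' := chg (s := d) P gs.unit gs.symm gs.sign gs.brk gs.irr gs.iso hψd
      (hGRA K n _ d fun A hA => gs'.brk _ hD' _ hA)
    exact back P (gc5 K n ε _ s d _ gs' gd' hs1 hex hex0 hd0 htwo hcop)
  · rcases sc2 K n ε ψ s a gs hs1 hex hex0 hcop with ⟨X₀, hX⟩ | h
    · exfalso
      have h2 : Module.finrank K (gr s 2 a) ≤ 1 := by
        have h3 : ∀ z : gr s 2 a, ∃ c : K, (z : Matrix (Fin n) (Fin n) K) = c • X₀ := fun z =>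
          hX z z.2.1 (hm_iff.2 z.2.2)
        by_cases h4 : ∃ z : gr s 2 a, z ≠ 0
        · obtain ⟨z, hz⟩ := h4
          refine finrank_le_one z fun w => ?_
          obtain ⟨c, hc⟩ := h3 z
          obtain ⟨e, he⟩ := h3 w
          have hc0 : c ≠ 0 := by
            intro h
            rw [h, zero_smul] at hc
            exact hz (Subtype.ext hc)
          refine ⟨e * c⁻¹, Subtype.ext ?_⟩
          show (e * c⁻¹) • (z : Matrix (Fin n) (Fin n) K) = w
          rw [hc, he, smul_smul, mul_assoc, inv_mul_cancel₀ hc0, mul_one]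
        · push Not at h4
          have : Subsingleton (gr s 2 a) := ⟨fun x y => by rw [h4 x, h4 y]⟩
          rw [Module.finrank_zero_of_subsingleton]
          exact Nat.zero_le _
      exact wt5_arith _ _ _ _ _ hrk h2 (pos0 K n ε ψ s a gs hs1)
        (top_le spb tpi gs hs1 hex hex0) hlt
    · exact h

end MT
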