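import Pool.Agent.Helper21.MT9.Final9
import Pool.Agent.Helper21.WD.SPB
import Pool.Agent.Helper21.WD.GCD
import Pool.Agent.Helper21.WD.WT4
import Pool.Agent.Helper21.WD.WT5
import Pool.Agent.Helper21.WD.GC5
import Pool.Agent.Helper21.WD.V0I
import Pool.Agent.Helper21.WD.TOR5
import Pool.Agent.Helper5.WD.SC2
import Pool.Agent.Helper3.WD.ENG
import Pool.Agent.Helper21.WD.TOPW
import Pool.Agent.Helper21.WD.TOSW
import Pool.Agent.Helper21.WD.HSGW
import Pool.Agent.Helper21.WD.FULM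
import Pool.Agent.Helper21.WD.MAINM
import Pool.Agent.Helper21.WD.TOSEM
import Pool.Agent.Helper21.WD.EIGM
import Pool.Agent.Helper36.WD.ALG
import Pool.Agent.Helper72.WD.CNT
import Pool.Agent.Helper82.WD.RK1
import Pool.Agent.Helper82.WD.SPCM
import Pool.Agent.Helper84.WD.TR2
import Pool.Agent.Helper14.WD.FIN
import Pool.Agent.Helper3.WD.TRC
import Pool.Agent.Helper14.MT10.ONE
import Pool.Agent.Helper2.MT10.LIE9
import Pool.Agent.Helper3.MT10.DRV
import Pool.Agent.Helper36.MT10.ADD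
import Pool.Agent.Helper80.MT10.SHF
import Pool.Agent.Helper72.RM.ADS
import Pool.Agent.Helper21.RM.HLA
import Pool.Agent.Helper21.RM.HIR
import Pool.Agent.Helper21.RM.IRL
import Pool.Agent.Helper21.RM.HSM
import Pool.Agent.Helper21.RM.G07
import Pool.Agent.Helper21.RM.HDG7

/-!
# The final theorem (T13, T14, T16)
-/

set_option autoImplicit false

open NumberField MU

namespace MT

theorem wt4_of (bd3 : ST_BD3) : ST_WT4 :=
  st_WT4 st_GRA st_TR2 (st_GCD st_ALG st_CNT st_RK1 st_SPB st_TPI st_FIN) (st_ONE st_SPB) bd3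

theorem wt5_of (pos0 : ST_POS0) : ST_WT5 :=
  st_WT5 st_GRA (st_TOR5' st_ENG) pos0
    (st_GC5 st_ALG st_CNT st_RK1 st_SPB st_TPI st_FIN st_GRA st_V0I')
    (st_SC2 st_ALG st_CNT st_RK1 st_TRC st_SPB st_TPI st_FIN) st_SPB st_TPI

/-- the Lie theorem over a field of characteristic zero -/
theorem tosw_of (bd3 : ST_BD3) (pos0 : ST_POS0) : ST_TOSW := by
  have gcd : ST_GCD := st_GCD st_ALG st_CNT st_RK1 st_SPB st_TPI st_FIN
  have lie : ST_LIE9 := st_LIE9 (st_CMP (st_KIR st_RED st_TPI st_ABE)) (st_END st_GEN)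
  exact st_TOSW st_RED (st_TOPW lie (st_ADD st_DRV) st_SHF (st_ONE st_SPB) st_GRA gcd
    (wt4_of bd3) (wt5_of pos0))

end MT

namespace MR

open MT

theorem mainM_of (bd3 : ST_BD3) (pos0 : ST_POS0) : ST_MAINM := by
  have tos := tosw_of bd3 pos0
  have tosem : ST_TOSEM :=
    st_TOSEM st_RED (st_EIGM st_SPCM st_ADS st_DRV st_GRA (st_ONE st_SPB) (wt4_of bd3)
      (wt5_of pos0))
  have irl : MR.ST_IRL := MR.st_IRL st_LGP st_DEN st_OI1 st_OI2 st_ZAR MR.st_HSM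
  have hsg : ST_HSGW := st_HSGW MR.st_HLA (MR.st_HIR st_OI2) st_DEN tos st_TSC MR.st_HWT
    (MR.st_HDG7 st_TEN) MR.st_HSM
  exact st_MAINM (st_FULM irl tos tosem st_ZAR MR.st_HSM) hsg st_ZAR st_TEN st_SIM st_SIM7 st_ISM
    (MR.st_G07 st_TEN) (MR.st_HDG7 st_TEN) st_IDX st_FRE st_CYC

end MR
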