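import Pool.Agent.Helper21.WD.StmtsV
import Pool.Agent.Helper92.WD.BD3

/-!
# POSC and POS0: the inequalities given by the Casimir operator of the trace form
-/

set_option autoImplicit false

open Matrix

namespace MT

namespace POSx

open BND92

variable {K : Type} [Field K] {n : ℕ}

/-- the trace over a piece -/
def trk (s : Fin n → ℤ) (k : ℤ) (A : Matrix (Fin n) (Fin n) K) : K :=
  ∑ i ∈ Finset.univ.filter (fun i => s i = k), A i i

/-- the projection onto a piece -/
def pk (s : Fin n → ℤ) (k : ℤ) : Matrix (Fin n) (Fin n) K :=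
  Matrix.diagonal fun i => if s i = k then 1 else 0

theorem trk_eq (s : Fin n → ℤ) (k : ℤ) (A : Matrix (Fin n) (Fin n) K) :
    trk s k A = (pk s k * A).trace := by
  rw [trk, pk, Matrix.trace, Finset.sum_filter]
  refine Finset.sum_congr rfl fun i _ => ?_
  rw [Matrix.diag_apply, Matrix.diagonal_mul]
  by_cases h : s i = k <;> simp [h]

theorem tr1_eq (s : Fin n → ℤ) (A : Matrix (Fin n) (Fin n) K) : tr1 s A = (pk s 1 * A).trace :=
  trk_eq s 1 A

/-- elements of degree zero commute with the projections -/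
theorem pk_comm {s : Fin n → ℤ} (k : ℤ) {x : Matrix (Fin n) (Fin n) K} (hx : Hm s 0 x) :
    pk s k * x = x * pk s k := by
  ext i j
  rw [pk, Matrix.diagonal_mul, Matrix.mul_diagonal]
  by_cases h : x i j = 0
  · rw [h, mul_zero, zero_mul]
  · have h1 := hx i j h
    have h2 : s i = s j := by omega
    rw [h2, mul_comm]

/-- the trace form is nondegenerate on the elements of degree zero -/
theorem nd0 [CharZero K] [IsAlgClosed K] (trc : ST_TRC) {ε : K} {ψ : Matrix (Fin n) (Fin n) K}
    {s : Fin n → ℤ} {a : Submodule K (Matrix (Fin n) (Fin n) K)} (gs : GrD ε ψ s a)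
    {z : Matrix (Fin n) (Fin n) K} (hz : z ∈ gr s 0 a)
    (h : ∀ y ∈ gr s 0 a, (z * y).trace = 0) : z = 0 := by
  apply trc K n ψ a gs.unit gs.brk gs.irr gs.iso z hz.1
  intro y hy
  have e : (z * y).trace = (z * cmp s 0 y).trace := by
    rw [Matrix.trace, Matrix.trace]
    apply Finset.sum_congr rfl
    intro i _
    rw [Matrix.diag_apply, Matrix.diag_apply, Matrix.mul_apply, Matrix.mul_apply]
    apply Finset.sum_congr rfl
    intro j _
    by_cases h : z i j = 0
    · rw [h, zero_mul, zero_mul]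
    · have h1 := hz.2 i j h
      congr 1
      rw [cmp, Matrix.of_apply, if_pos (by omega)]
  rw [e]
  refine h _ ⟨gs.comp y hy 0, ?_⟩
  intro i j hij
  rw [cmp, Matrix.of_apply] at hij
  by_contra h4
  exact hij (if_neg h4)

/-- the trace over the lowest piece -/
theorem tr_low {ε : K} {ψ : Matrix (Fin n) (Fin n) K} {s : Fin n → ℤ}
    {a : Submodule K (Matrix (Fin n) (Fin n) K)} (gs : GrD ε ψ s a)
    {x y : Matrix (Fin n) (Fin n) K} (hx : x ∈ gr s 0 a) (hy : y ∈ gr s 0 a) :
    trk s (-1) (x * y) = trk s 1 (x * y) := by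
  have hu := isUnit_iff_ne_zero.2 gs.unit
  have h1 : ψ * pk s 1 = pk s (-1) * ψ := by
    ext i j
    rw [pk, pk, Matrix.diagonal_mul, Matrix.mul_diagonal]
    by_cases h : ψ i j = 0
    · rw [h, mul_zero, zero_mul]
    · have h1 := gs.grad i j h
      by_cases h2 : s j = 1
      · rw [if_pos h2, if_pos (by omega), mul_comm]
      · rw [if_neg h2, if_neg (by omega), mul_zero, zero_mul]
  have h2 : (x * y).transpose = ψ * (y * x) * ψ⁻¹ := by
    have hx1 : x.transpose * ψ = -(ψ * x) := eq_neg_of_add_eq_zero_left (gs.iso x hx.1)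
    have hy1 : y.transpose * ψ = -(ψ * y) := eq_neg_of_add_eq_zero_left (gs.iso y hy.1)
    have h3 : (x * y).transpose * ψ = ψ * (y * x) := by
      rw [Matrix.transpose_mul, Matrix.mul_assoc, hx1, Matrix.mul_neg, ← Matrix.mul_assoc, hy1,
        Matrix.neg_mul, neg_neg, Matrix.mul_assoc]
    rw [← h3, Matrix.mul_assoc, Matrix.mul_nonsing_inv ψ hu, Matrix.mul_one]
  rw [trk_eq, trk_eq, ← Matrix.trace_transpose, Matrix.transpose_mul, h2, pk,
    Matrix.diagonal_transpose]
  change (ψ * (y * x) * ψ⁻¹ * pk s (-1)).trace = _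
  rw [Matrix.mul_assoc, Matrix.trace_mul_comm, Matrix.mul_assoc, ← Matrix.mul_assoc (pk s (-1)),
    ← h1]
  have h4 : ψ⁻¹ * (ψ * pk s 1 * (y * x)) = pk s 1 * (y * x) := by
    rw [Matrix.mul_assoc, ← Matrix.mul_assoc, Matrix.nonsing_inv_mul ψ hu, Matrix.one_mul]
  rw [h4, ← Matrix.mul_assoc, pk_comm 1 hy.2, Matrix.mul_assoc, Matrix.trace_mul_comm,
    Matrix.mul_assoc]

/-- the eigenvectors of `φ` and additive functions -/
theorem eig_core [CharZero K] [IsAlgClosed K] (trc : ST_TRC) (eng : ST_ENG) (repk : ST_REPK)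
    {ε : K} {ψ : Matrix (Fin n) (Fin n) K}
    {s : Fin n → ℤ} {a : Submodule K (Matrix (Fin n) (Fin n) K)} (gs : GrD ε ψ s a)
    (hs : ∀ j, |s j| ≤ 1) (φ : Module.End K (gr s 0 a))
    (hφ : ∀ x y : gr s 0 a, ((φ x : Matrix (Fin n) (Fin n) K) *
      (y : Matrix (Fin n) (Fin n) K)).trace =
        tr1 s ((x : Matrix (Fin n) (Fin n) K) * (y : Matrix (Fin n) (Fin n) K)))
    (ρ : K) (hρ : φ.HasEigenvalue ρ) :
    ∃ w : Fin n → K, w ≠ 0 ∧ (∀ f : K →+ K,
      ∑ j ∈ Finset.univ.filter (fun j => s j = 1), w j * f (w j) = ρ * ∑ j, w j * f (w j)) ∧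
      ∀ f : K →+ K, ∑ j ∈ Finset.univ.filter (fun j => s j = 0), w j * f (w j) =
        (1 - 2 * ρ) * ∑ j, w j * f (w j) := by
  set I : Submodule K (Matrix (Fin n) (Fin n) K) :=
    (Module.End.eigenspace φ ρ).map (gr s 0 a).subtype with hI
  have hle : I ≤ gr s 0 a := by
    rintro _ ⟨x, -, rfl⟩
    exact x.2
  have hb : I ≠ ⊥ := by
    intro h
    obtain ⟨v, hv1, hv2⟩ := hρ.exists_hasEigenvector
    have h1 : (v : Matrix (Fin n) (Fin n) K) ∈ I := ⟨v, hv1, rfl⟩
    rw [h, Submodule.mem_bot] at h1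
    exact hv2 (Subtype.ext h1)
  have hmul : ∀ x ∈ gr s 0 a, ∀ y ∈ gr s 0 a, x * y - y * x ∈ gr s 0 a := by
    intro x hx y hy
    refine ⟨gs.brk x hx.1 y hy.1, ?_⟩
    intro i j hij
    by_contra hne
    apply hij
    rw [Matrix.sub_apply, Matrix.mul_apply, Matrix.mul_apply, Finset.sum_eq_zero,
      Finset.sum_eq_zero, sub_zero]
    · intro k _
      by_cases h1 : y i k = 0
      · rw [h1, zero_mul]
      · by_cases h2 : x k j = 0
        · rw [h2, mul_zero]
        · have := hy.2 i k h1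
          have := hx.2 k j h2
          omega
    · intro k _
      by_cases h1 : x i k = 0
      · rw [h1, zero_mul]
      · by_cases h2 : y k j = 0
        · rw [h2, mul_zero]
        · have := hx.2 i k h1
          have := hy.2 k j h2
          omega
  have hid : ∀ x ∈ gr s 0 a, ∀ y ∈ I, x * y - y * x ∈ I := by
    rintro x hx _ ⟨y, hy, rfl⟩
    have hy1 : φ y = ρ • y := Module.End.mem_eigenspace_iff.mp hy
    refine ⟨⟨_, hmul x hx y.1 y.2⟩, ?_, rfl⟩
    change _ ∈ Module.End.eigenspace φ ρ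
    rw [Module.End.mem_eigenspace_iff, ← sub_eq_zero]
    apply Subtype.ext
    rw [Submodule.coe_zero]
    refine nd0 trc gs (Submodule.coe_mem _) fun z hz => ?_
    rw [Submodule.coe_sub, Matrix.sub_mul, Matrix.trace_sub, Submodule.coe_smul,
      Matrix.smul_mul, Matrix.trace_smul, hφ _ ⟨z, hz⟩, sub_eq_zero]
    have h1 := hφ y ⟨_, hmul z hz x hx⟩
    rw [hy1, Submodule.coe_smul, Matrix.smul_mul, Matrix.trace_smul] at h1
    have h2 : ∀ q : Matrix (Fin n) (Fin n) K, q * x = x * q →
        (q * ((x * (y : Matrix (Fin n) (Fin n) K) - (y : Matrix (Fin n) (Fin n) K) * x) *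
          z)).trace = (q * ((y : Matrix (Fin n) (Fin n) K) * (z * x - x * z))).trace := by
      intro q hq
      have e1 : (q * (x * (y : Matrix (Fin n) (Fin n) K) * z)).trace =
          (q * ((y : Matrix (Fin n) (Fin n) K) * (z * x))).trace := by
        calc (q * (x * (y : Matrix (Fin n) (Fin n) K) * z)).trace
            = (x * (q * ((y : Matrix (Fin n) (Fin n) K) * z))).trace := by
              rw [Matrix.mul_assoc x, ← Matrix.mul_assoc q, hq, Matrix.mul_assoc]
          _ = (q * ((y : Matrix (Fin n) (Fin n) K) * z) * x).trace := Matrix.trace_mul_comm _ _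
          _ = _ := by simp only [Matrix.mul_assoc]
      rw [Matrix.sub_mul, Matrix.mul_sub q, Matrix.trace_sub, e1,
        Matrix.mul_sub (y : Matrix (Fin n) (Fin n) K), Matrix.mul_sub q, Matrix.trace_sub]
      simp only [Matrix.mul_assoc]
    have h3 := h2 1 (by rw [Matrix.one_mul, Matrix.mul_one])
    rw [Matrix.one_mul, Matrix.one_mul] at h3
    rw [h3, h1, tr1_eq, tr1_eq]
    exact h2 _ (pk_comm 1 hx.2)
  obtain ⟨x, hx, hxn⟩ := eng K n ε ψ s a gs I hle hb hid
  obtain ⟨w, hw, hf⟩ := repk K n ε ψ s a gs x (hle hx) hxn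
  obtain ⟨x', hx', rfl⟩ := hx
  have hx1 : φ x' = ρ • x' := Module.End.mem_eigenspace_iff.mp hx'
  have key : ∀ f : K →+ K,
      ∑ j ∈ Finset.univ.filter (fun j => s j = 1), w j * f (w j) = ρ * ∑ j, w j * f (w j) ∧
      ∑ j ∈ Finset.univ.filter (fun j => s j = 1), w j * f (w j) =
        ∑ j ∈ Finset.univ.filter (fun j => s j = -1), w j * f (w j) ∧
      ∑ j, w j * f (w j) = ∑ j ∈ Finset.univ.filter (fun j => s j = 1), w j * f (w j) +
        ∑ j ∈ Finset.univ.filter (fun j => s j = 0), w j * f (w j) +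
        ∑ j ∈ Finset.univ.filter (fun j => s j = -1), w j * f (w j) := by
    intro f
    obtain ⟨D, hD, hk⟩ := hf f
    have hsplit : ∀ g : Fin n → K, ∑ j, g j =
        ∑ j ∈ Finset.univ.filter (fun j => s j = 1), g j +
        ∑ j ∈ Finset.univ.filter (fun j => s j = 0), g j +
        ∑ j ∈ Finset.univ.filter (fun j => s j = -1), g j := by
      intro g
      rw [Finset.sum_filter, Finset.sum_filter, Finset.sum_filter, ← Finset.sum_add_distrib,
        ← Finset.sum_add_distrib]
      refine Finset.sum_congr rfl fun j _ => ?_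
      have h1 := abs_le.mp (hs j)
      rcases (show s j = 1 ∨ s j = 0 ∨ s j = -1 by omega) with h | h | h <;> simp [h]
    have h1 := hφ x' ⟨D, hD⟩
    rw [hx1, Submodule.coe_smul, Matrix.smul_mul, Matrix.trace_smul] at h1
    have h2 : ((x' : Matrix (Fin n) (Fin n) K) * D).trace = ∑ j, w j * f (w j) := by
      rw [hsplit (fun j => w j * f (w j)), ← hk 1, ← hk 0, ← hk (-1), ← hsplit]
      rfl
    refine ⟨?_, ?_, hsplit _⟩
    · rw [← hk 1, ← h2, ← smul_eq_mul]
      exact h1.symm
    · rw [← hk 1, ← hk (-1)]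
      exact (tr_low gs x'.2 hD).symm
  refine ⟨w, hw, fun f => (key f).1, fun f => ?_⟩
  obtain ⟨k1, k2, k3⟩ := key f
  have k4 : ∑ j ∈ Finset.univ.filter (fun j => s j = 0), w j * f (w j) =
      ∑ j, w j * f (w j) - 2 * ∑ j ∈ Finset.univ.filter (fun j => s j = 1), w j * f (w j) := by
    rw [k3, ← k2]
    ring
  rw [k4, k1]
  ring

end POSx

open BND92 POSx

/-- POSC: the inequality -/
theorem st_POSC' (trc : ST_TRC) (cas : ST_CAS) (repk : ST_REPK) (eng : ST_ENG) (tnn1 : ST_TNN1)
    (tnn2 : ST_TNN2) (drv : ST_DRV) : ST_POSC := by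
  intro K _ _ _ n ε ψ s a gs hs hex
  obtain ⟨φ, hφ, hc⟩ := cas K n ε ψ s a gs hs
  have hsp : φ.charpoly.Splits := IsAlgClosed.splits _
  have htr := Module.End.trace_eq_sum_roots_charpoly_of_splits hsp
  have hch : φ.charpoly ≠ 0 := (LinearMap.charpoly_monic φ).ne_zero
  have htnn : ∀ ρ ∈ φ.charpoly.roots, TNN ρ := by
    intro ρ hρ
    have h1 : φ.HasEigenvalue ρ := (Module.End.hasEigenvalue_iff_isRoot_charpoly φ ρ).mpr
      ((Polynomial.mem_roots hch).mp hρ)
    obtain ⟨w, hw, h2, -⟩ := eig_core trc eng repk gs hs φ hφ ρ h1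
    exact tnn1 K n _ w ρ hw h2
  have h20 : (2 : K) ≠ 0 := two_ne_zero
  -- `1 / 2` is an eigenvalue
  have hC : Matrix.diagonal (fun j => (s j : K)) ∈ gr s 0 a := by
    refine ⟨drv K n ψ a gs.unit gs.brk gs.irr gs.iso _ ?_ ?_, ?_⟩
    · ext i j
      rw [Matrix.diagonal_transpose, Matrix.add_apply, Matrix.diagonal_mul, Matrix.mul_diagonal,
        Matrix.zero_apply]
      by_cases h : ψ i j = 0
      · rw [h, mul_zero, zero_mul, add_zero]
      · have h1 := gs.grad i j h
        have h2 : (s i : K) = -(s j : K) := by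
          rw [← Int.cast_neg]
          congr 1
          omega
        rw [h2]
        ring
    · intro A hA
      have h1 : Matrix.diagonal (fun j => (s j : K)) * A - A * Matrix.diagonal (fun j => (s j : K)) =
          ∑ x ∈ (Finset.univ.image fun p : Fin n × Fin n => s p.1 - s p.2),
            (x : K) • cmp s x A := by
        ext i j
        rw [Matrix.sub_apply, Matrix.diagonal_mul, Matrix.mul_diagonal, Matrix.sum_apply,
          Finset.sum_eq_single (s i - s j)]
        · rw [Matrix.smul_apply, cmp, Matrix.of_apply, if_pos rfl, smul_eq_mul]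
          push_cast
          ring
        · intro x _ hx
          rw [Matrix.smul_apply, cmp, Matrix.of_apply, if_neg fun h => hx h.symm, smul_zero]
        · intro hc
          exact absurd (Finset.mem_image_of_mem (fun p : Fin n × Fin n => s p.1 - s p.2)
            (Finset.mem_univ (i, j))) hc
      rw [h1]
      exact Submodule.sum_mem _ fun x _ => Submodule.smul_mem _ _ (gs.comp A hA x)
    · intro i j h
      by_cases hij : i = j
      · rw [hij, sub_self]
      · exact absurd (Matrix.diagonal_apply_ne _ hij) h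
  have heig : φ ⟨_, hC⟩ = (1 / 2 : K) • ⟨_, hC⟩ := by
    rw [← sub_eq_zero]
    apply Subtype.ext
    rw [Submodule.coe_zero]
    refine nd0 trc gs (Submodule.coe_mem _) fun y hy => ?_
    rw [Submodule.coe_sub, Matrix.sub_mul, Matrix.trace_sub, Submodule.coe_smul,
      Matrix.smul_mul, Matrix.trace_smul, hφ _ ⟨y, hy⟩, sub_eq_zero]
    change tr1 s (Matrix.diagonal (fun j => (s j : K)) * y) =
      (1 / 2 : K) • (Matrix.diagonal (fun j => (s j : K)) * y).trace
    have h1 : tr1 s (Matrix.diagonal (fun j => (s j : K)) * y) = trk s 1 y := by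
      rw [tr1, trk]
      refine Finset.sum_congr rfl fun i hi => ?_
      rw [Matrix.diagonal_mul, (Finset.mem_filter.mp hi).2, Int.cast_one, one_mul]
    have h2 : trk s (-1) y = -trk s 1 y := by
      have hu := isUnit_iff_ne_zero.2 gs.unit
      have h1 : ψ * pk s 1 = pk s (-1) * ψ := by
        ext i j
        rw [pk, pk, Matrix.diagonal_mul, Matrix.mul_diagonal]
        by_cases h : ψ i j = 0
        · rw [h, mul_zero, zero_mul]
        · have h1 := gs.grad i j h
          by_cases h2 : s j = 1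
          · rw [if_pos h2, if_pos (by omega), mul_comm]
          · rw [if_neg h2, if_neg (by omega), mul_zero, zero_mul]
      have h2 : y.transpose = -(ψ * y * ψ⁻¹) := by
        have hy1 : y.transpose * ψ = -(ψ * y) := eq_neg_of_add_eq_zero_left (gs.iso y hy.1)
        rw [← Matrix.neg_mul, ← hy1, Matrix.mul_assoc, Matrix.mul_nonsing_inv ψ hu,
          Matrix.mul_one]
      rw [trk_eq, trk_eq, ← Matrix.trace_transpose, Matrix.transpose_mul, h2, pk,
        Matrix.diagonal_transpose]
      change (-(ψ * y * ψ⁻¹) * pk s (-1)).trace = _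
      rw [Matrix.neg_mul, Matrix.trace_neg, Matrix.mul_assoc, Matrix.trace_mul_comm,
        Matrix.mul_assoc, ← Matrix.mul_assoc (pk s (-1)), ← h1]
      have h4 : ψ⁻¹ * (ψ * pk s 1 * y) = pk s 1 * y := by
        rw [Matrix.mul_assoc, ← Matrix.mul_assoc, Matrix.nonsing_inv_mul ψ hu, Matrix.one_mul]
      rw [h4]
    have h3 : (Matrix.diagonal (fun j => (s j : K)) * y).trace = trk s 1 y - trk s (-1) y := by
      rw [Matrix.trace, trk, trk, Finset.sum_filter, Finset.sum_filter, ← Finset.sum_sub_distrib]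
      refine Finset.sum_congr rfl fun j _ => ?_
      rw [Matrix.diag_apply, Matrix.diagonal_mul]
      have h1 := abs_le.mp (hs j)
      rcases (show s j = 1 ∨ s j = 0 ∨ s j = -1 by omega) with h | h | h <;> simp [h]
    rw [h1, h3, h2, smul_eq_mul]
    field_simp
    ring
  have hhalf : (1 / 2 : K) ∈ φ.charpoly.roots := by
    rw [Polynomial.mem_roots hch]
    refine (Module.End.hasEigenvalue_iff_isRoot_charpoly φ _).mp
      (Module.End.hasEigenvalue_of_hasEigenvector (x := ⟨_, hC⟩) ⟨?_, ?_⟩)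
    · exact Module.End.mem_eigenspace_iff.mpr heig
    · intro h
      obtain ⟨j, hj⟩ := hex
      have h0 : Matrix.diagonal (fun j => (s j : K)) = 0 := congrArg Subtype.val h
      have h1 := congrFun (congrFun h0 j) j
      rw [Matrix.zero_apply, Matrix.diagonal_apply_eq, hj, Int.cast_one] at h1
      exact one_ne_zero h1
  obtain ⟨S, hS⟩ := Multiset.exists_cons_of_mem hhalf
  have hn : 0 < n := by
    obtain ⟨j, -⟩ := hex
    exact Fin.pos j
  have hnK : (n : K) ≠ 0 := Nat.cast_ne_zero.mpr hn.ne'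
  have hnQ : (n : ℚ) ≠ 0 := Nat.cast_ne_zero.mpr hn.ne'
  set A := (Finset.univ.filter fun j => s j = 1).card with hA
  set d := Module.finrank K (gr s 1 a) with hd
  set d2 := Module.finrank K (gr s 2 a) with hd2
  set N := Module.finrank K a with hN
  have hq := tnn2 K S ((2 * N * A / n - d - 2 * d2) / 2 - 1 / 2 : ℚ)
    (fun ρ hρ => htnn ρ (by rw [hS]; exact Multiset.mem_cons_of_mem hρ)) (by
    have h1 : LinearMap.trace K (gr s 0 a) φ = 1 / 2 + S.sum := by
      rw [htr, hS, Multiset.sum_cons]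
    rw [h1] at hc
    push_cast
    field_simp
    linear_combination -hc)
  have h5 : (n : ℚ) * (d + 1 + 2 * d2) ≤ 2 * A * N := by
    have h6 : (0 : ℚ) ≤ n * 2 * ((2 * N * A / n - d - 2 * d2) / 2 - 1 / 2) := by positivity
    have h7 : (n : ℚ) * 2 * ((2 * N * A / n - d - 2 * d2) / 2 - 1 / 2) =
        2 * A * N - n * (d + 1 + 2 * d2) := by
      field_simp
      ring
    linarith
  exact_mod_cast h5

/-- POS0: the inequality for the middle piece -/
theorem st_POS0' (trc : ST_TRC) (cas : ST_CAS) (repk : ST_REPK) (eng : ST_ENG) (tnn1 : ST_TNN1)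
    (tnn2 : ST_TNN2) (dim : ST_DIM) : ST_POS0 := by
  intro K _ _ _ n ε ψ s a gs hs
  obtain ⟨φ, hφ, hc⟩ := cas K n ε ψ s a gs hs
  have hsp : φ.charpoly.Splits := IsAlgClosed.splits _
  have htr := Module.End.trace_eq_sum_roots_charpoly_of_splits hsp
  have hch : φ.charpoly ≠ 0 := (LinearMap.charpoly_monic φ).ne_zero
  have htnn : ∀ ρ ∈ φ.charpoly.roots, TNN (1 - 2 * ρ) := by
    intro ρ hρ
    have h1 : φ.HasEigenvalue ρ := (Module.End.hasEigenvalue_iff_isRoot_charpoly φ ρ).mpr
      ((Polynomial.mem_roots hch).mp hρ)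
    obtain ⟨w, hw, -, h2⟩ := eig_core trc eng repk gs hs φ hφ ρ h1
    exact tnn1 K n _ w _ hw h2
  have hcard : φ.charpoly.roots.card = Module.finrank K (gr s 0 a) := by
    rw [← hsp.natDegree_eq_card_roots, LinearMap.charpoly_natDegree]
  rcases Nat.eq_zero_or_pos n with hn | hn
  · subst hn
    simp
  have hnK : (n : K) ≠ 0 := Nat.cast_ne_zero.mpr hn.ne'
  have hnQ : (n : ℚ) ≠ 0 := Nat.cast_ne_zero.mpr hn.ne'
  obtain ⟨π, hπ⟩ := Top9.exists_perm ψ s gs.unit gs.grad
  have hcm := BD392.card_neg π hπ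
  have hct := BD392.card_tot hs
  obtain ⟨-, hdim⟩ := dim K n ε ψ s a gs hs
  set A := (Finset.univ.filter fun j => s j = 1).card with hA
  set B := (Finset.univ.filter fun j => s j = 0).card with hB
  set l := Module.finrank K (gr s 0 a) with hl
  set d := Module.finrank K (gr s 1 a) with hd
  set d2 := Module.finrank K (gr s 2 a) with hd2
  set N := Module.finrank K a with hN
  have hq := tnn2 K (φ.charpoly.roots.map fun ρ => 1 - 2 * ρ)
    (l - (2 * N * A / n - d - 2 * d2) : ℚ)
    (fun ρ hρ => by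
      obtain ⟨ρ', h1, rfl⟩ := Multiset.mem_map.mp hρ
      exact htnn ρ' h1) (by
    have h1 : (φ.charpoly.roots.map fun ρ => 1 - 2 * ρ).sum = (l : K) - 2 *
        LinearMap.trace K (gr s 0 a) φ := by
      rw [Multiset.sum_map_sub, Multiset.sum_map_mul_left, htr, Multiset.map_id', ← hcard]
      simp
    rw [h1]
    push_cast
    field_simp
    linear_combination hc)
  have h5 : 2 * (A : ℚ) * N ≤ n * (l + d + 2 * d2) := by
    have h6 : (0 : ℚ) ≤ n * (l - (2 * N * A / n - d - 2 * d2)) := by positivity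
    have h7 : (n : ℚ) * (l - (2 * N * A / n - d - 2 * d2)) =
        n * (l + d + 2 * d2) - 2 * A * N := by
      field_simp
      ring
    linarith
  have h8 : 2 * A * N ≤ n * (l + d + 2 * d2) := by exact_mod_cast h5
  rw [hdim, ← hct, hcm] at h8
  nlinarith

end MT
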