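import Pool.Agent.Helper21.WD.StmtsQ
import Mathlib.FieldTheory.AlgebraicClosure
import Mathlib.FieldTheory.IsAlgClosed.Basic
import Mathlib.Analysis.Complex.Polynomial.Basic

/-!
# TNN2: a rational sum of totally nonnegative algebraic numbers (T14)
-/

set_option autoImplicit false

open Polynomial

namespace MT

theorem st_TNN2 : ST_TNN2 := by
  intro K _ _ _ S q hS hq
  let F : IntermediateField ℚ K := algebraicClosure ℚ K
  have hF : Algebra.IsAlgebraic ℚ F := algebraicClosure.isAlgebraic ℚ K
  let σ : F →ₐ[ℚ] ℂ := IsAlgClosed.lift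
  have key : ∀ S : Multiset K, (∀ ρ ∈ S, TNN ρ) →
      ∃ x : F, (x : K) = S.sum ∧ (σ x).im = 0 ∧ 0 ≤ (σ x).re := by
    intro S
    induction S using Multiset.induction_on with
    | empty =>
      intro _
      refine ⟨0, ?_, ?_, ?_⟩
      · simp
      · simp
      · simp
    | cons a S ih =>
      intro h
      obtain ⟨x, hx, him, hre⟩ := ih fun ρ hρ => h ρ (Multiset.mem_cons_of_mem hρ)
      obtain ⟨P, hP0, hPa, hPz⟩ := h a (Multiset.mem_cons_self a S)
      have ha : a ∈ F := by
        rw [mem_algebraicClosure_iff]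
        exact ⟨P, hP0, hPa⟩
      let y : F := ⟨a, ha⟩
      have hy : aeval y P = 0 := by
        apply (algebraMap F K).injective
        rw [← aeval_algebraMap_apply, map_zero]
        exact hPa
      have hσ : aeval (σ y) P = 0 := by
        rw [aeval_algHom_apply, hy, map_zero]
      obtain ⟨h1, h2⟩ := hPz _ hσ
      refine ⟨y + x, ?_, ?_, ?_⟩
      · rw [Multiset.sum_cons, ← hx]
        rfl
      · rw [map_add, Complex.add_im, h1, him, add_zero]
      · rw [map_add, Complex.add_re]
        exact add_nonneg h2 hre
  obtain ⟨x, hx, -, hre⟩ := key S hS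
  have hxq : x = (q : F) := by
    apply (algebraMap F K).injective
    rw [map_ratCast]
    exact hx.trans hq
  rw [hxq, map_ratCast, Complex.ratCast_re] at hre
  exact_mod_cast hre

end MT
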