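import Pool.Agent.Helper21.WD.FinalR
import Pool.Agent.Helper21.WD.TNN2
import Pool.Agent.Helper21.WD.POS
import Pool.Agent.Helper36.WD.TNN1
import Pool.Agent.Helper82.WD.CAS
import Pool.Agent.Helper5.WD.DIM
import Pool.Agent.Helper92.WD.BD3
import Pool.Agent.Helper3.WD.ENG
import Pool.Agent.Helper84.WD.REPK

/-!
# The final theorem (T14, T16)
-/

set_option autoImplicit false

namespace MT

theorem bd3_final : ST_BD3 :=
  st_BD3 (st_POSC' st_TRC (st_CAS st_TRC) st_REPK st_ENG st_TNN1 st_TNN2 st_DRV) (st_DIM st_TRC)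
    st_SPB

theorem pos0_final : ST_POS0 :=
  st_POS0' st_TRC (st_CAS st_TRC) st_REPK st_ENG st_TNN1 st_TNN2 (st_DIM st_TRC)

theorem tosw_final : ST_TOSW := tosw_of bd3_final pos0_final

end MT

namespace MR

theorem mainM_final : ST_MAINM := mainM_of MT.bd3_final MT.pos0_final

end MR
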