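import Pool.Agent.Helper21.RM.IRL
import Pool.Agent.Helper21.WD.TOSW
import Pool.Agent.Helper21.WD.StmtsR

/-!
# T12: FUL: the Lie algebra is large
-/

set_option autoImplicit false

open NumberField MU MT

namespace MR

/-- FUL -/
theorem st_FULW (irl : ST_IRL) (tos : ST_TOSW) (tose : ST_TOSE) (zar : ST_ZAR) (hsm : ST_HSM) :
    ST_FULW := by
  intro F _ _ n w h M l _ hw hM hT H hH A hA
  have hdet := bas_det ℚ_[l] M.ψ M.ψ_det
  have hsym := bas_sym ℚ_[l] M.ψ w M.ψ_sym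
  rcases hT with hT | ⟨hn, σ, C, _, _, _, c, a, hc, hE⟩
  · obtain ⟨C, _, _, _, P, hP⟩ := M.sen_span l
    have : CharZero C := charZero_of_injective_algebraMap (algebraMap ℚ_[l] C).injective
    obtain ⟨zbr, -, -, zsim, -⟩ := zar ℚ_[l] n (H.map (M.ρ l))
    refine tos ℚ_[l] C n w h (bas ℚ_[l] M.ψ) P (LieZ (H.map (M.ρ l))) hT hdet hsym zbr
      (zsim _ hdet ?_) (hsm F n w h M) (irl F n w h M l hw hM H hH C) (hP H hH) A hA
    rintro _ ⟨g, -, rfl⟩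
    exact ⟨_, M.gal_sim l g⟩
  · have : CharZero C := charZero_of_injective_algebraMap (algebraMap ℚ_[l] C).injective
    obtain ⟨H₁, hle, hnor, hopen, -⟩ := exists_core H hH
    obtain ⟨zbr, zad, -, zsim, -⟩ := zar ℚ_[l] n (H₁.map (M.ρ l))
    refine LieZ_mono (Subgroup.map_mono hle) ?_
    refine tose ℚ_[l] C n w (bas ℚ_[l] M.ψ) (M.ρ l σ) c a (LieZ (H₁.map (M.ρ l))) hn hdet hsym
      zbr (zsim _ hdet ?_) (irl F n w h M l hw hM H₁ hopen C) hc hE (zad _ ?_) A hA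
    · rintro _ ⟨g, -, rfl⟩
      exact ⟨_, M.gal_sim l g⟩
    · rintro _ ⟨g, hg, rfl⟩
      refine ⟨σ * g * σ⁻¹, hnor.conj_mem g hg σ, ?_⟩
      rw [map_mul, map_mul, map_inv]

end MR
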