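import Pool.Agent.Helper21.WD.GCD
import Pool.Agent.Helper21.WD.StmtsV

/-!
# GC5, part 1: spaces of blocks
-/

set_option autoImplicit false

open Matrix

namespace MT

namespace GC5x

open GCDx (blk_apply blk_mul blk_zero cmp_ne cmp_at Hom hom_cmp)

variable {K : Type} [Field K] {n : ℕ}

/-- hypotheses on the gradings -/
structure Dat (s d : Fin n → ℤ) (a : Submodule K (Matrix (Fin n) (Fin n) K)) : Prop where
  brk : Brk a
  cs : ∀ A ∈ a, ∀ x, cmp s x A ∈ a
  cd : ∀ A ∈ a, ∀ x, cmp d x A ∈ a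
  s1 : ∀ j, -1 ≤ s j ∧ s j ≤ 1
  sd : ∀ j, s j = 0 → d j = 0

/-- the pieces of the top piece -/
abbrev P (s d : Fin n → ℤ) (z : ℤ) : Fin n → Prop := fun j => s j = 1 ∧ d j = z

/-- the middle piece -/
abbrev Q (s : Fin n → ℤ) : Fin n → Prop := fun j => s j = 0

/-- maps from the middle piece to a piece of the top piece -/
def Bp (s d : Fin n → ℤ) (a : Submodule K (Matrix (Fin n) (Fin n) K)) (z : ℤ) :
    Submodule K (Matrix {j // P s d z j} {j // Q s j} K) := a.map (GCDx.blk (P s d z) (Q s))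

/-- maps from a piece of the top piece to the middle piece -/
def Bm (s d : Fin n → ℤ) (a : Submodule K (Matrix (Fin n) (Fin n) K)) (z : ℤ) :
    Submodule K (Matrix {j // Q s j} {j // P s d z j} K) := a.map (GCDx.blk (Q s) (P s d z))

/-- products -/
def G (s d : Fin n → ℤ) (a : Submodule K (Matrix (Fin n) (Fin n) K)) (z u : ℤ) :
    Submodule K (Matrix {j // P s d z j} {j // P s d u j} K) :=
  Submodule.span K {m | ∃ x ∈ Bp s d a z, ∃ y ∈ Bm s d a u, m = x * y}

/-- the algebra -/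
def F (s d : Fin n → ℤ) (a : Submodule K (Matrix (Fin n) (Fin n) K)) (u z : ℤ) :
    Submodule K (Matrix {j // P s d u j} {j // P s d u j} K) :=
  Submodule.span K {m | ∃ x ∈ G s d a u z, ∃ y ∈ G s d a z u, m = x * y}

/-- maps from a piece of the top piece to itself -/
def Ls (s d : Fin n → ℤ) (a : Submodule K (Matrix (Fin n) (Fin n) K)) (u : ℤ) :
    Submodule K (Matrix {j // P s d u j} {j // P s d u j} K) :=
  a.map (GCDx.blk (P s d u) (P s d u))

variable {s d : Fin n → ℤ} {a : Submodule K (Matrix (Fin n) (Fin n) K)}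

theorem Bp_hom (D : Dat s d a) {z : ℤ} {m : Matrix {j // P s d z j} {j // Q s j} K}
    (hm : m ∈ Bp s d a z) : ∃ X ∈ a, Hom s d 1 z X ∧ GCDx.blk (P s d z) (Q s) X = m := by
  obtain ⟨A, hA, rfl⟩ := Submodule.mem_map.mp hm
  refine ⟨cmp s 1 (cmp d z A), D.cs _ (D.cd _ hA _) _, hom_cmp _ _ _ _ _, ?_⟩
  ext ⟨i, hi, hi'⟩ ⟨j, hj⟩
  have hj' : s j = 0 := hj
  have h0 := D.sd j hj'
  rw [blk_apply, blk_apply, cmp_at (by show s i - s j = 1; omega),
    cmp_at (by show d i - d j = z; omega)]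

theorem Bm_hom (D : Dat s d a) {z : ℤ} {m : Matrix {j // Q s j} {j // P s d z j} K}
    (hm : m ∈ Bm s d a z) : ∃ X ∈ a, Hom s d (-1) (-z) X ∧ GCDx.blk (Q s) (P s d z) X = m := by
  obtain ⟨A, hA, rfl⟩ := Submodule.mem_map.mp hm
  refine ⟨cmp s (-1) (cmp d (-z) A), D.cs _ (D.cd _ hA _) _, hom_cmp _ _ _ _ _, ?_⟩
  ext ⟨j, hj⟩ ⟨i, hi, hi'⟩
  have hj' : s j = 0 := hj
  have h0 := D.sd j hj'
  rw [blk_apply, blk_apply, cmp_at (by show s j - s i = -1; omega),
    cmp_at (by show d j - d i = -z; omega)]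

theorem Ls_hom (D : Dat s d a) {u : ℤ} {m : Matrix {j // P s d u j} {j // P s d u j} K}
    (hm : m ∈ Ls s d a u) : ∃ X ∈ a, Hom s d 0 0 X ∧ GCDx.blk (P s d u) (P s d u) X = m := by
  obtain ⟨A, hA, rfl⟩ := Submodule.mem_map.mp hm
  refine ⟨cmp s 0 (cmp d 0 A), D.cs _ (D.cd _ hA _) _, hom_cmp _ _ _ _ _, ?_⟩
  ext ⟨j, hj, hj'⟩ ⟨i, hi, hi'⟩
  rw [blk_apply, blk_apply, cmp_at (by show s j - s i = 0; omega),
    cmp_at (by show d j - d i = 0; omega)]

theorem C1 (D : Dat s d a) {z u : ℤ} (h1 : z ≠ u)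
    {x : Matrix {j // P s d z j} {j // Q s j} K} {y : Matrix {j // Q s j} {j // P s d u j} K}
    {x' : Matrix {j // P s d u j} {j // Q s j} K} (hx : x ∈ Bp s d a z) (hy : y ∈ Bm s d a u)
    (hx' : x' ∈ Bp s d a u) : x * y * x' ∈ Bp s d a z := by
  obtain ⟨X', hX', gX', rfl⟩ := Bp_hom D hx'
  obtain ⟨Y, hY, gY, rfl⟩ := Bm_hom D hy
  obtain ⟨X, hX, gX, rfl⟩ := Bp_hom D hx
  refine Submodule.mem_map.mpr ⟨(X * Y - Y * X) * X' - X' * (X * Y - Y * X),
    D.brk _ (D.brk _ hX _ hY) _ hX', ?_⟩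
  have e1 : GCDx.blk (P s d z) (Q s) (X * Y * X') = GCDx.blk (P s d z) (Q s) X *
      GCDx.blk (Q s) (P s d u) Y * GCDx.blk (P s d u) (Q s) X' := by
    rw [Matrix.mul_assoc X Y X', blk_mul (P s d z) (Q s) (Q s) X (Y * X') ?_,
      blk_mul (Q s) (Q s) (P s d u) Y X' ?_, Matrix.mul_assoc]
    · intro i j k hi hj _ hkj
      obtain ⟨g1, g2⟩ := gX' k j hkj
      have hj' : s j = 0 := hj
      have h0 := D.sd j hj'
      exact ⟨by omega, by omega⟩
    · intro i j k hi hj hik _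
      obtain ⟨g1, g2⟩ := gX i k hik
      have := hi.1
      show s k = 0
      omega
  have e2 : GCDx.blk (P s d z) (Q s) (Y * X * X') = 0 := by
    refine blk_zero _ _ _ _ _ fun i j k l hi hj hik _ _ => ?_
    obtain ⟨g1, g2⟩ := gY i k hik
    have := hi.1
    have := D.s1 k
    omega
  have e3 : GCDx.blk (P s d z) (Q s) (X' * X * Y) = 0 := by
    refine blk_zero _ _ _ _ _ fun i j k l hi hj hik _ _ => ?_
    obtain ⟨g1, g2⟩ := gX' i k hik
    obtain ⟨hi1, hi2⟩ := hi
    have h0 := D.sd k (by omega)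
    omega
  have e4 : GCDx.blk (P s d z) (Q s) (X' * Y * X) = 0 := by
    refine blk_zero _ _ _ _ _ fun i j k l hi hj hik _ _ => ?_
    obtain ⟨g1, g2⟩ := gX' i k hik
    obtain ⟨hi1, hi2⟩ := hi
    have h0 := D.sd k (by omega)
    omega
  simp only [Matrix.sub_mul, Matrix.mul_sub, ← Matrix.mul_assoc, map_sub, e1, e2, e3, e4,
    sub_zero]

theorem C2 (D : Dat s d a) {z u : ℤ} (h1 : z ≠ u)
    {y' : Matrix {j // Q s j} {j // P s d z j} K} {x : Matrix {j // P s d z j} {j // Q s j} K}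
    {y : Matrix {j // Q s j} {j // P s d u j} K} (hy' : y' ∈ Bm s d a z) (hx : x ∈ Bp s d a z)
    (hy : y ∈ Bm s d a u) : y' * x * y ∈ Bm s d a u := by
  obtain ⟨X, hX, gX, rfl⟩ := Bp_hom D hx
  obtain ⟨Y', hY', gY', rfl⟩ := Bm_hom D hy'
  obtain ⟨Y, hY, gY, rfl⟩ := Bm_hom D hy
  refine Submodule.mem_map.mpr ⟨Y' * (X * Y - Y * X) - (X * Y - Y * X) * Y',
    D.brk _ hY' _ (D.brk _ hX _ hY), ?_⟩
  have e1 : GCDx.blk (Q s) (P s d u) (Y' * X * Y) = GCDx.blk (Q s) (P s d z) Y' *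
      GCDx.blk (P s d z) (Q s) X * GCDx.blk (Q s) (P s d u) Y := by
    rw [Matrix.mul_assoc Y' X Y, blk_mul (Q s) (P s d u) (P s d z) Y' (X * Y) ?_,
      blk_mul (P s d z) (P s d u) (Q s) X Y ?_, Matrix.mul_assoc]
    · intro i j k hi hj hik _
      obtain ⟨g1, g2⟩ := gX i k hik
      have := hi.1
      show s k = 0
      omega
    · intro i j k hi hj hik _
      obtain ⟨g1, g2⟩ := gY' i k hik
      have hi' : s i = 0 := hi
      have h0 := D.sd i hi'
      exact ⟨by omega, by omega⟩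
  have e2 : GCDx.blk (Q s) (P s d u) (Y' * Y * X) = 0 := by
    refine blk_zero _ _ _ _ _ fun i j k l hi hj _ _ hlj => ?_
    obtain ⟨g1, g2⟩ := gX l j hlj
    have := hj.1
    have := D.s1 l
    omega
  have e3 : GCDx.blk (Q s) (P s d u) (X * Y * Y') = 0 := by
    refine blk_zero _ _ _ _ _ fun i j k l hi hj hik hkl hlj => ?_
    obtain ⟨g3, g4⟩ := gY' l j hlj
    obtain ⟨hj1, hj2⟩ := hj
    have h3 := D.sd l (by omega)
    omega
  have e4 : GCDx.blk (Q s) (P s d u) (Y * X * Y') = 0 := by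
    refine blk_zero _ _ _ _ _ fun i j k l hi hj hik hkl hlj => ?_
    obtain ⟨g3, g4⟩ := gY' l j hlj
    obtain ⟨hj1, hj2⟩ := hj
    have h3 := D.sd l (by omega)
    omega
  simp only [Matrix.sub_mul, Matrix.mul_sub, ← Matrix.mul_assoc, map_sub, e1, e2, e3, e4,
    sub_zero]

/-- `G z u * Bp u ≤ Bp z` -/
theorem GB (D : Dat s d a) {z u : ℤ} (h1 : z ≠ u)
    {g : Matrix {j // P s d z j} {j // P s d u j} K} {x : Matrix {j // P s d u j} {j // Q s j} K}
    (hg : g ∈ G s d a z u) (hx : x ∈ Bp s d a u) : g * x ∈ Bp s d a z := by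
  induction hg using Submodule.span_induction with
  | mem m hm =>
    obtain ⟨x', hx', y, hy, rfl⟩ := hm
    exact C1 D h1 hx' hy hx
  | zero => rw [Matrix.zero_mul]; exact Submodule.zero_mem _
  | add u v _ _ hu hv => rw [Matrix.add_mul]; exact Submodule.add_mem _ hu hv
  | smul c u _ hu => rw [Matrix.smul_mul]; exact Submodule.smul_mem _ c hu

/-- `Bm z * G z u ≤ Bm u` -/
theorem BG (D : Dat s d a) {z u : ℤ} (h1 : z ≠ u)
    {g : Matrix {j // P s d z j} {j // P s d u j} K} {y : Matrix {j // Q s j} {j // P s d z j} K}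
    (hg : g ∈ G s d a z u) (hy : y ∈ Bm s d a z) : y * g ∈ Bm s d a u := by
  induction hg using Submodule.span_induction with
  | mem m hm =>
    obtain ⟨x', hx', y', hy', rfl⟩ := hm
    rw [← Matrix.mul_assoc]
    exact C2 D h1 hy hx' hy'
  | zero => rw [Matrix.mul_zero]; exact Submodule.zero_mem _
  | add u v _ _ hu hv => rw [Matrix.mul_add]; exact Submodule.add_mem _ hu hv
  | smul c u _ hu => rw [Matrix.mul_smul]; exact Submodule.smul_mem _ c hu

/-- `G z u * G u v ≤ G z v` -/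
theorem GG (D : Dat s d a) {z u v : ℤ} (h1 : z ≠ u ∨ u ≠ v)
    {g : Matrix {j // P s d z j} {j // P s d u j} K}
    {h : Matrix {j // P s d u j} {j // P s d v j} K}
    (hg : g ∈ G s d a z u) (hh : h ∈ G s d a u v) : g * h ∈ G s d a z v := by
  rcases h1 with h1 | h1
  · induction hh using Submodule.span_induction with
    | mem m hm =>
      obtain ⟨x, hx, y, hy, rfl⟩ := hm
      rw [← Matrix.mul_assoc]
      exact Submodule.subset_span ⟨_, GB D h1 hg hx, y, hy, rfl⟩
    | zero => rw [Matrix.mul_zero]; exact Submodule.zero_mem _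
    | add u v _ _ hu hv => rw [Matrix.mul_add]; exact Submodule.add_mem _ hu hv
    | smul c u _ hu => rw [Matrix.mul_smul]; exact Submodule.smul_mem _ c hu
  · induction hg using Submodule.span_induction with
    | mem m hm =>
      obtain ⟨x, hx, y, hy, rfl⟩ := hm
      rw [Matrix.mul_assoc]
      exact Submodule.subset_span ⟨x, hx, _, BG D h1 hh hy, rfl⟩
    | zero => rw [Matrix.zero_mul]; exact Submodule.zero_mem _
    | add u v _ _ hu hv => rw [Matrix.add_mul]; exact Submodule.add_mem _ hu hv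
    | smul c u _ hu => rw [Matrix.smul_mul]; exact Submodule.smul_mem _ c hu

/-- `F ≤ G u u` -/
theorem F_le (D : Dat s d a) {u z : ℤ} (h1 : u ≠ z)
    {x : Matrix {j // P s d u j} {j // P s d u j} K} (hx : x ∈ F s d a u z) :
    x ∈ G s d a u u := by
  induction hx using Submodule.span_induction with
  | mem m hm =>
    obtain ⟨x, hx, y, hy, rfl⟩ := hm
    exact GG D (Or.inl h1) hx hy
  | zero => exact Submodule.zero_mem _
  | add u v _ _ hu hv => exact Submodule.add_mem _ hu hv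
  | smul c u _ hu => exact Submodule.smul_mem _ c hu

/-- `F * G u v ≤ G u v` -/
theorem FG (D : Dat s d a) {u z v : ℤ} (h1 : u ≠ z)
    {x : Matrix {j // P s d u j} {j // P s d u j} K}
    {g : Matrix {j // P s d u j} {j // P s d v j} K} (hx : x ∈ F s d a u z)
    (hg : g ∈ G s d a u v) : x * g ∈ G s d a u v := by
  induction hx using Submodule.span_induction with
  | mem m hm =>
    obtain ⟨x, hx, y, hy, rfl⟩ := hm
    rw [Matrix.mul_assoc]
    exact GG D (Or.inl h1) hx (GG D (Or.inl h1.symm) hy hg)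
  | zero => rw [Matrix.zero_mul]; exact Submodule.zero_mem _
  | add u v _ _ hu hv => rw [Matrix.add_mul]; exact Submodule.add_mem _ hu hv
  | smul c u _ hu => rw [Matrix.smul_mul]; exact Submodule.smul_mem _ c hu

/-- `G v u * F ≤ G v u` -/
theorem GF (D : Dat s d a) {u z v : ℤ} (h1 : u ≠ z)
    {x : Matrix {j // P s d u j} {j // P s d u j} K}
    {g : Matrix {j // P s d v j} {j // P s d u j} K} (hx : x ∈ F s d a u z)
    (hg : g ∈ G s d a v u) : g * x ∈ G s d a v u := by
  induction hx using Submodule.span_induction with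
  | mem m hm =>
    obtain ⟨x, hx, y, hy, rfl⟩ := hm
    rw [← Matrix.mul_assoc]
    exact GG D (Or.inr h1.symm) (GG D (Or.inr h1) hg hx) hy
  | zero => rw [Matrix.mul_zero]; exact Submodule.zero_mem _
  | add u v _ _ hu hv => rw [Matrix.mul_add]; exact Submodule.add_mem _ hu hv
  | smul c u _ hu => rw [Matrix.mul_smul]; exact Submodule.smul_mem _ c hu

/-- `F * G u u ≤ F` -/
theorem FGu (D : Dat s d a) {u z : ℤ} (h1 : u ≠ z)
    {x g : Matrix {j // P s d u j} {j // P s d u j} K} (hx : x ∈ F s d a u z)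
    (hg : g ∈ G s d a u u) : x * g ∈ F s d a u z := by
  induction hx using Submodule.span_induction with
  | mem m hm =>
    obtain ⟨x, hx, y, hy, rfl⟩ := hm
    rw [Matrix.mul_assoc]
    exact Submodule.subset_span ⟨x, hx, _, GG D (Or.inl h1.symm) hy hg, rfl⟩
  | zero => rw [Matrix.zero_mul]; exact Submodule.zero_mem _
  | add u v _ _ hu hv => rw [Matrix.add_mul]; exact Submodule.add_mem _ hu hv
  | smul c u _ hu => rw [Matrix.smul_mul]; exact Submodule.smul_mem _ c hu

theorem FF (D : Dat s d a) {u z : ℤ} (h1 : u ≠ z)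
    {x y : Matrix {j // P s d u j} {j // P s d u j} K} (hx : x ∈ F s d a u z)
    (hy : y ∈ F s d a u z) : x * y ∈ F s d a u z := FGu D h1 hx (F_le D h1 hy)

/-- `F * Bp u ≤ Bp u` -/
theorem FB (D : Dat s d a) {u z : ℤ} (h1 : u ≠ z)
    {x : Matrix {j // P s d u j} {j // P s d u j} K} (hx : x ∈ F s d a u z)
    {y : Matrix {j // P s d u j} {j // Q s j} K} (hy : y ∈ Bp s d a u) :
    x * y ∈ Bp s d a u := by
  induction hx using Submodule.span_induction with
  | mem m hm =>
    obtain ⟨x, hx, x', hx', rfl⟩ := hm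
    rw [Matrix.mul_assoc]
    exact GB D h1 hx (GB D h1.symm hx' hy)
  | zero => rw [Matrix.zero_mul]; exact Submodule.zero_mem _
  | add u v _ _ hu hv => rw [Matrix.add_mul]; exact Submodule.add_mem _ hu hv
  | smul c u _ hu => rw [Matrix.smul_mul]; exact Submodule.smul_mem _ c hu

/-- `Bm u * F ≤ Bm u` -/
theorem BF (D : Dat s d a) {u z : ℤ} (h1 : u ≠ z)
    {x : Matrix {j // P s d u j} {j // P s d u j} K} (hx : x ∈ F s d a u z)
    {y : Matrix {j // Q s j} {j // P s d u j} K} (hy : y ∈ Bm s d a u) :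
    y * x ∈ Bm s d a u := by
  induction hx using Submodule.span_induction with
  | mem m hm =>
    obtain ⟨x, hx, x', hx', rfl⟩ := hm
    rw [← Matrix.mul_assoc]
    exact BG D h1.symm hx' (BG D h1 hx hy)
  | zero => rw [Matrix.mul_zero]; exact Submodule.zero_mem _
  | add u v _ _ hu hv => rw [Matrix.mul_add]; exact Submodule.add_mem _ hu hv
  | smul c u _ hu => rw [Matrix.mul_smul]; exact Submodule.smul_mem _ c hu

/-- the elements of bidegree `(0, 0)` normalise the spaces `G` -/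
theorem LG (D : Dat s d a) {z u : ℤ} {Z : Matrix (Fin n) (Fin n) K} (hZ : Z ∈ a)
    (gZ : Hom s d 0 0 Z) {g : Matrix {j // P s d z j} {j // P s d u j} K}
    (hg : g ∈ G s d a z u) :
    GCDx.blk (P s d z) (P s d z) Z * g - g * GCDx.blk (P s d u) (P s d u) Z ∈ G s d a z u := by
  induction hg using Submodule.span_induction with
  | mem m hm =>
    obtain ⟨x, hx, y, hy, rfl⟩ := hm
    obtain ⟨X, hX, gX, rfl⟩ := Bp_hom D hx
    obtain ⟨Y, hY, gY, rfl⟩ := Bm_hom D hy
    have e1 : GCDx.blk (P s d z) (Q s) (Z * X - X * Z) =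
        GCDx.blk (P s d z) (P s d z) Z * GCDx.blk (P s d z) (Q s) X -
        GCDx.blk (P s d z) (Q s) X * GCDx.blk (Q s) (Q s) Z := by
      rw [map_sub, blk_mul (P s d z) (Q s) (P s d z) Z X, blk_mul (P s d z) (Q s) (Q s) X Z]
      · intro i j k hi hj hik _
        obtain ⟨g1, g2⟩ := gX i k hik
        have := hi.1
        show s k = 0
        omega
      · intro i j k hi hj hik _
        obtain ⟨g1, g2⟩ := gZ i k hik
        obtain ⟨hi1, hi2⟩ := hi
        exact ⟨by omega, by omega⟩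
    have e2 : GCDx.blk (Q s) (P s d u) (Z * Y - Y * Z) = GCDx.blk (Q s) (Q s) Z *
        GCDx.blk (Q s) (P s d u) Y - GCDx.blk (Q s) (P s d u) Y * GCDx.blk (P s d u) (P s d u) Z := by
      rw [map_sub, blk_mul (Q s) (P s d u) (Q s) Z Y, blk_mul (Q s) (P s d u) (P s d u) Y Z]
      · intro i j k hi hj _ hkj
        obtain ⟨g1, g2⟩ := gZ k j hkj
        obtain ⟨hj1, hj2⟩ := hj
        exact ⟨by omega, by omega⟩
      · intro i j k hi hj hik _
        obtain ⟨g1, g2⟩ := gZ i k hik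
        have hi' : s i = 0 := hi
        show s k = 0
        omega
    have e3 : GCDx.blk (P s d z) (P s d z) Z * (GCDx.blk (P s d z) (Q s) X * GCDx.blk (Q s) (P s d u) Y) -
        GCDx.blk (P s d z) (Q s) X * GCDx.blk (Q s) (P s d u) Y * GCDx.blk (P s d u) (P s d u) Z =
        GCDx.blk (P s d z) (Q s) (Z * X - X * Z) * GCDx.blk (Q s) (P s d u) Y +
        GCDx.blk (P s d z) (Q s) X * GCDx.blk (Q s) (P s d u) (Z * Y - Y * Z) := by
      rw [e1, e2]
      simp only [Matrix.sub_mul, Matrix.mul_sub, Matrix.mul_assoc]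
      abel
    rw [e3]
    refine Submodule.add_mem _ ?_ ?_
    · exact Submodule.subset_span ⟨_, Submodule.mem_map_of_mem (D.brk _ hZ _ hX), _, hy, rfl⟩
    · exact Submodule.subset_span ⟨_, hx, _, Submodule.mem_map_of_mem (D.brk _ hZ _ hY), rfl⟩
  | zero => rw [Matrix.mul_zero, Matrix.zero_mul, sub_zero]; exact Submodule.zero_mem _
  | add x y _ _ hu hv =>
    have h1 : GCDx.blk (P s d z) (P s d z) Z * (x + y) - (x + y) * GCDx.blk (P s d u) (P s d u) Z =
        (GCDx.blk (P s d z) (P s d z) Z * x - x * GCDx.blk (P s d u) (P s d u) Z) +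
        (GCDx.blk (P s d z) (P s d z) Z * y - y * GCDx.blk (P s d u) (P s d u) Z) := by
      rw [Matrix.mul_add, Matrix.add_mul]; abel
    rw [h1]
    exact Submodule.add_mem _ hu hv
  | smul c x _ hu =>
    have h1 : GCDx.blk (P s d z) (P s d z) Z * (c • x) - (c • x) * GCDx.blk (P s d u) (P s d u) Z =
        c • (GCDx.blk (P s d z) (P s d z) Z * x - x * GCDx.blk (P s d u) (P s d u) Z) := by
      rw [Matrix.mul_smul, Matrix.smul_mul, smul_sub]
    rw [h1]
    exact Submodule.smul_mem _ c hu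

theorem LF (D : Dat s d a) {u z : ℤ} {m x : Matrix {j // P s d u j} {j // P s d u j} K}
    (hm : m ∈ Ls s d a u) (hx : x ∈ F s d a u z) : m * x - x * m ∈ F s d a u z := by
  obtain ⟨Z, hZ, gZ, rfl⟩ := Ls_hom D hm
  induction hx using Submodule.span_induction with
  | mem x hx =>
    obtain ⟨x, hx, y, hy, rfl⟩ := hx
    have h1 : GCDx.blk (P s d u) (P s d u) Z * (x * y) - x * y * GCDx.blk (P s d u) (P s d u) Z =
        (GCDx.blk (P s d u) (P s d u) Z * x - x * GCDx.blk (P s d z) (P s d z) Z) * y +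
        x * (GCDx.blk (P s d z) (P s d z) Z * y - y * GCDx.blk (P s d u) (P s d u) Z) := by
      simp only [Matrix.sub_mul, Matrix.mul_sub, Matrix.mul_assoc]
      abel
    rw [h1]
    exact Submodule.add_mem _ (Submodule.subset_span ⟨_, LG D hZ gZ hx, _, hy, rfl⟩)
      (Submodule.subset_span ⟨_, hx, _, LG D hZ gZ hy, rfl⟩)
  | zero => rw [Matrix.mul_zero, Matrix.zero_mul, sub_zero]; exact Submodule.zero_mem _
  | add x y _ _ hu hv =>
    have h1 : GCDx.blk (P s d u) (P s d u) Z * (x + y) - (x + y) * GCDx.blk (P s d u) (P s d u) Z =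
        (GCDx.blk (P s d u) (P s d u) Z * x - x * GCDx.blk (P s d u) (P s d u) Z) +
        (GCDx.blk (P s d u) (P s d u) Z * y - y * GCDx.blk (P s d u) (P s d u) Z) := by
      rw [Matrix.mul_add, Matrix.add_mul]; abel
    rw [h1]
    exact Submodule.add_mem _ hu hv
  | smul c x _ hu =>
    have h1 : GCDx.blk (P s d u) (P s d u) Z * (c • x) - (c • x) * GCDx.blk (P s d u) (P s d u) Z =
        c • (GCDx.blk (P s d u) (P s d u) Z * x - x * GCDx.blk (P s d u) (P s d u) Z) := by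
      rw [Matrix.mul_smul, Matrix.smul_mul, smul_sub]
    rw [h1]
    exact Submodule.smul_mem _ c hu

end GC5x

end MT
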