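import Pool.Agent.Helper21.WD.GC5a

/-!
# GC5, part 2: spanning and kernels
-/

set_option autoImplicit false

open Matrix

namespace MT

namespace GC5x

open GCDx (blk_apply blk_mul blk_zero cmp_ne cmp_at Hom hom_cmp ex re ex_apply ex_ne re_ex ex_re
  blk_mulVec)

variable {K : Type} [Field K] {n : ℕ}

/-- homogeneous vectors -/
def HV (s d : Fin n → ℤ) (c e : ℤ) (v : Fin n → K) : Prop := ∀ j, v j ≠ 0 → s j = c ∧ d j = e

theorem HV_mul {s d : Fin n → ℤ} {x y c e : ℤ} {A : Matrix (Fin n) (Fin n) K} {v : Fin n → K}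
    (hA : Hom s d x y A) (hv : HV s d c e v) : HV s d (x + c) (y + e) (A.mulVec v) := by
  intro i h
  unfold Matrix.mulVec dotProduct at h
  obtain ⟨k, -, hk⟩ := Finset.exists_ne_zero_of_sum_ne_zero h
  obtain ⟨h1, h2⟩ := hA i k (left_ne_zero_of_mul hk)
  obtain ⟨h3, h4⟩ := hv k (right_ne_zero_of_mul hk)
  exact ⟨by omega, by omega⟩

theorem Hom_mul {s d : Fin n → ℤ} {x y x' y' : ℤ} {A B : Matrix (Fin n) (Fin n) K}
    (hA : Hom s d x y A) (hB : Hom s d x' y' B) : Hom s d (x + x') (y + y') (A * B) := by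
  intro i j h
  rw [Matrix.mul_apply] at h
  obtain ⟨k, -, hk⟩ := Finset.exists_ne_zero_of_sum_ne_zero h
  obtain ⟨h1, h2⟩ := hA i k (left_ne_zero_of_mul hk)
  obtain ⟨h3, h4⟩ := hB k j (right_ne_zero_of_mul hk)
  exact ⟨by omega, by omega⟩

theorem Hom_brk {s d : Fin n → ℤ} {x y x' y' : ℤ} {A B : Matrix (Fin n) (Fin n) K}
    (hA : Hom s d x y A) (hB : Hom s d x' y' B) {p q : ℤ} (hp : x + x' = p) (hq : y + y' = q) :
    Hom s d p q (A * B - B * A) := by
  intro i j h
  by_cases h1 : (A * B) i j = 0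
  · by_cases h2 : (B * A) i j = 0
    · exact absurd (by rw [Matrix.sub_apply, h1, h2, sub_zero]) h
    · obtain ⟨h3, h4⟩ := Hom_mul hB hA i j h2
      exact ⟨by omega, by omega⟩
  · obtain ⟨h3, h4⟩ := Hom_mul hA hB i j h1
    exact ⟨by omega, by omega⟩

theorem cmp_of_Hom {s d : Fin n → ℤ} {x y : ℤ} {A : Matrix (Fin n) (Fin n) K}
    (h : Hom s d x y A) : cmp s x A = A ∧ cmp d y A = A := by
  constructor
  · ext i j
    by_cases hA : A i j = 0
    · by_contra hne
      exact (cmp_ne (d := s) (x := x) (A := A) (i := i) (j := j)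
        (fun h0 => hne (by rw [h0, hA]))).2 hA
    · exact cmp_at (h i j hA).1
  · ext i j
    by_cases hA : A i j = 0
    · by_contra hne
      exact (cmp_ne (d := d) (x := y) (A := A) (i := i) (j := j)
        (fun h0 => hne (by rw [h0, hA]))).2 hA
    · exact cmp_at (h i j hA).2

theorem Hom_of_cmp {s d : Fin n → ℤ} {x y : ℤ} {A : Matrix (Fin n) (Fin n) K}
    (h1 : cmp s x A = A) (h2 : cmp d y A = A) : Hom s d x y A := by
  intro i j hA
  constructor
  · rw [← h1] at hA
    exact (cmp_ne hA).1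
  · rw [← h2] at hA
    exact (cmp_ne hA).1


theorem HV_zero0 {s d : Fin n → ℤ} (hsd : ∀ j, s j = 0 → d j = 0) {e : ℤ} {v : Fin n → K}
    (hv : HV s d 0 e v) (he : e ≠ 0) : v = 0 := by
  funext j
  by_contra hne
  obtain ⟨h1, h2⟩ := hv j hne
  have := hsd j h1
  omega

theorem HV_zero1 {s d : Fin n → ℤ} (hs : ∀ j, -1 ≤ s j ∧ s j ≤ 1) {c e : ℤ} {v : Fin n → K}
    (hv : HV s d c e v) (hc : c < -1 ∨ 1 < c) : v = 0 := by
  funext j
  by_contra hne
  obtain ⟨h1, h2⟩ := hv j hne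
  have := hs j
  omega

theorem HV0 {s d : Fin n → ℤ} (hsd : ∀ j, s j = 0 → d j = 0) {v : Fin n → K}
    (hv : ∀ j, v j ≠ 0 → s j = 0) : HV s d 0 0 v := fun j hj => ⟨hv j hj, hsd j (hv j hj)⟩

variable {s d : Fin n → ℤ} {a : Submodule K (Matrix (Fin n) (Fin n) K)}

/-- the components of a matrix, on a homogeneous vector -/
theorem cmp_mulVec (s : Fin n → ℤ) (x c : ℤ) (A : Matrix (Fin n) (Fin n) K) (v : Fin n → K)
    (hv : ∀ j, v j ≠ 0 → s j = c) (i : Fin n) (hi : s i = x + c) :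
    (cmp s x A).mulVec v i = A.mulVec v i := by
  unfold Matrix.mulVec dotProduct
  refine Finset.sum_congr rfl fun j _ => ?_
  by_cases hj : v j = 0
  · rw [hj, mul_zero, mul_zero]
  · have h1 := hv j hj
    change cmp s x A i j * v j = A i j * v j
    rw [cmp_at (by omega)]

theorem brkv (A B : Matrix (Fin n) (Fin n) K) (u : Fin n → K) :
    A.mulVec (B.mulVec u) = (A * B - B * A).mulVec u + B.mulVec (A.mulVec u) := by
  rw [Matrix.sub_mulVec, Matrix.mulVec_mulVec, Matrix.mulVec_mulVec, sub_add_cancel]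

/-- `V_1 = L_1 V_0` -/
theorem top_span (tpi : ST_TPI) (hi : LIrr a) (D : Dat s d a)
    (sp2 : ∀ v : Fin n → K, (∀ j, v j ≠ 0 → s j = 0) →
      (∀ A ∈ a, cmp s 1 A = A → A.mulVec v = 0) → v = 0) (hex0 : ∃ j, s j = 0) (z : ℤ)
    (v : {j // P s d z j} → K) :
    v ∈ Submodule.span K {u | ∃ x ∈ Bp s d a z, ∃ u' : {j // Q s j} → K, u = x.mulVec u'} := by
  classical
  set U : Submodule K (Fin n → K) := Submodule.span K {w | ∃ A ∈ a, cmp s 1 A = A ∧
    ∃ x : Fin n → K, (∀ j, x j ≠ 0 → s j = 0) ∧ w = A.mulVec x} with hU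
  have hU1 : ∀ v ∈ U, ∀ j, v j ≠ 0 → s j = 1 := by
    intro v hv
    induction hv using Submodule.span_induction with
    | mem v hv =>
      obtain ⟨A, hA, hA1, x, hx, rfl⟩ := hv
      intro j hj
      have h1 : HV s s 1 1 (A.mulVec x) := by
        have := HV_mul (s := s) (d := s) (c := 0) (e := 0) (Hom_of_cmp hA1 hA1)
          (fun j hj => ⟨hx j hj, hx j hj⟩) (v := x)
        simpa using this
      exact (h1 j hj).1
    | zero => intro j hj; exact absurd rfl hj
    | add x y _ _ hx hy =>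
      intro j hj
      by_cases h : x j = 0
      · refine hy j fun h' => hj ?_
        rw [Pi.add_apply, h, h', add_zero]
      · exact hx j h
    | smul c x _ hx =>
      intro j hj
      exact hx j fun h => hj (by rw [Pi.smul_apply, h, smul_zero])
  have hUs : ∀ A ∈ a, cmp s 0 A = A → ∀ v ∈ U, A.mulVec v ∈ U := by
    intro A hA hA0 v hv
    induction hv using Submodule.span_induction with
    | mem v hv =>
      obtain ⟨B, hB, hB1, x, hx, rfl⟩ := hv
      rw [brkv]
      have h1 : Hom s s 1 1 (A * B - B * A) :=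
        Hom_brk (Hom_of_cmp hA0 hA0) (Hom_of_cmp hB1 hB1) (by norm_num) (by norm_num)
      refine Submodule.add_mem _ (Submodule.subset_span ⟨_, D.brk _ hA _ hB,
        (cmp_of_Hom h1).1, x, hx, rfl⟩) (Submodule.subset_span ⟨B, hB, hB1, _, ?_, rfl⟩)
      intro j hj
      have h2 := HV_mul (s := s) (d := s) (c := 0) (e := 0) (v := x) (Hom_of_cmp hA0 hA0)
        (fun j hj => ⟨hx j hj, hx j hj⟩)
      have h3 := (h2 j hj).1
      omega
    | zero => rw [Matrix.mulVec_zero]; exact Submodule.zero_mem _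
    | add x y _ _ hx hy => rw [Matrix.mulVec_add]; exact Submodule.add_mem _ hx hy
    | smul c x _ hx => rw [Matrix.mulVec_smul]; exact Submodule.smul_mem _ c hx
  rcases tpi K n a s 1 D.brk hi D.cs (fun j => (D.s1 j).2) U hU1 hUs with h | h
  · exfalso
    obtain ⟨j₀, hj₀⟩ := hex0
    have h1 : (Pi.single j₀ 1 : Fin n → K) = 0 := by
      refine sp2 _ ?_ ?_
      · intro j hj
        by_cases hjj : j = j₀
        · rw [hjj, hj₀]
        · exact absurd (Pi.single_eq_of_ne hjj 1) hj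
      · intro A hA hA1
        have h2 : A.mulVec (Pi.single j₀ 1) ∈ U := by
          refine Submodule.subset_span ⟨A, hA, hA1, _, ?_, rfl⟩
          intro j hj
          by_cases hjj : j = j₀
          · rw [hjj, hj₀]
          · exact absurd (Pi.single_eq_of_ne hjj 1) hj
        rw [h, Submodule.mem_bot] at h2
        exact h2
    have h2 := congrFun h1 j₀
    rw [Pi.single_eq_same] at h2
    exact one_ne_zero h2
  · have h1 := h (ex (P s d z) v) (fun j hj => (ex_ne _ v hj).1)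
    have h3 : v ∈ U.map (re (P s d z)) := ⟨_, h1, re_ex _ v⟩
    rw [hU, Submodule.map_span] at h3
    refine Submodule.span_mono ?_ h3
    rintro _ ⟨_, ⟨A, hA, -, x, hx, rfl⟩, rfl⟩
    refine ⟨_, Submodule.mem_map_of_mem hA, re (Q s) x, ?_⟩
    rw [blk_mulVec, ex_re (Q s) x hx]

/-- no vector of `V_1` is killed by `L_(-1)` -/
theorem top_ker (tpi : ST_TPI) (hi : LIrr a) (D : Dat s d a)
    (sp1 : ∀ v : Fin n → K, (∀ j, v j ≠ 0 → s j = 0) →
      v ∈ Submodule.span K {u | ∃ A ∈ a, cmp s (-1) A = A ∧ ∃ x : Fin n → K,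
        (∀ j, x j ≠ 0 → s j = 1) ∧ u = A.mulVec x}) (hex0 : ∃ j, s j = 0) (z : ℤ)
    (v : {j // P s d z j} → K) (hv : ∀ y ∈ Bm s d a z, y.mulVec v = 0) : v = 0 := by
  classical
  let N : Submodule K (Fin n → K) :=
    { carrier := {u | (∀ j, u j ≠ 0 → s j = 1) ∧ ∀ A ∈ a, cmp s (-1) A = A → A.mulVec u = 0}
      add_mem' := by
        rintro x y ⟨hx, hx'⟩ ⟨hy, hy'⟩
        refine ⟨fun j hj => ?_, fun A hA hA1 => ?_⟩
        · by_cases h : x j = 0
          · refine hy j fun h' => hj ?_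
            rw [Pi.add_apply, h, h', add_zero]
          · exact hx j h
        · rw [Matrix.mulVec_add, hx' A hA hA1, hy' A hA hA1, add_zero]
      zero_mem' := ⟨fun j hj => absurd rfl hj, fun A _ _ => Matrix.mulVec_zero A⟩
      smul_mem' := by
        rintro c x ⟨hx, hx'⟩
        refine ⟨fun j hj => hx j fun h => hj ?_, fun A hA hA1 => ?_⟩
        · rw [Pi.smul_apply, h, smul_zero]
        · rw [Matrix.mulVec_smul, hx' A hA hA1, smul_zero] }
  have hNs : ∀ A ∈ a, cmp s 0 A = A → ∀ v ∈ N, A.mulVec v ∈ N := by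
    rintro A hA hA0 v ⟨hv1, hv2⟩
    refine ⟨fun j hj => ?_, fun B hB hB1 => ?_⟩
    · have h2 := HV_mul (s := s) (d := s) (c := 1) (e := 1) (v := v) (Hom_of_cmp hA0 hA0)
        (fun j hj => ⟨hv1 j hj, hv1 j hj⟩)
      have h3 := (h2 j hj).1
      omega
    · have h1 : Hom s s (-1) (-1) (B * A - A * B) :=
        Hom_brk (Hom_of_cmp hB1 hB1) (Hom_of_cmp hA0 hA0) (by norm_num) (by norm_num)
      rw [brkv, hv2 _ (D.brk _ hB _ hA) (cmp_of_Hom h1).1, hv2 B hB hB1, Matrix.mulVec_zero,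
        add_zero]
  rcases tpi K n a s 1 D.brk hi D.cs (fun j => (D.s1 j).2) N (fun v hv => hv.1) hNs with h | h
  · have h1 : ex (P s d z) v ∈ N := by
      refine ⟨fun j hj => (ex_ne _ v hj).1, fun A hA hA1 => ?_⟩
      funext i
      by_cases hi0 : s i = 0
      · have h2 := congrFun (hv _ (Submodule.mem_map_of_mem hA)) ⟨i, hi0⟩
        rw [blk_mulVec] at h2
        exact h2
      · by_contra hne
        have h2 := HV_mul (s := s) (d := s) (c := 1) (e := 1) (v := ex (P s d z) v)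
          (Hom_of_cmp hA1 hA1) (fun j hj => ⟨(ex_ne _ v hj).1, (ex_ne _ v hj).1⟩)
        have h3 := (h2 i hne).1
        omega
    rw [h, Submodule.mem_bot] at h1
    rw [← re_ex (P s d z) v, h1, map_zero]
  · exfalso
    obtain ⟨j₀, hj₀⟩ := hex0
    have h1 := sp1 (Pi.single j₀ 1) (by
      intro j hj
      by_cases hjj : j = j₀
      · rw [hjj, hj₀]
      · exact absurd (Pi.single_eq_of_ne hjj 1) hj)
    have h2 : (Pi.single j₀ 1 : Fin n → K) ∈ (⊥ : Submodule K (Fin n → K)) := by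
      refine Submodule.span_le.mpr ?_ h1
      rintro _ ⟨A, hA, hA1, x, hx, rfl⟩
      rw [SetLike.mem_coe, Submodule.mem_bot]
      exact (h x hx).2 A hA hA1
    rw [Submodule.mem_bot] at h2
    have h3 := congrFun h2 j₀
    rw [Pi.single_eq_same] at h3
    exact one_ne_zero h3

end GC5x

end MT
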