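import Pool.Agent.Helper21.WD.GCD

/-!
# WT2: the types `(a, b, a)`
-/

set_option autoImplicit false

open Matrix

namespace MT

namespace Wtx

variable {K : Type} [Field K] {n : ℕ}

/-- conjugation -/
def cjP (P : Matrix.GeneralLinearGroup (Fin n) K) :
    Matrix (Fin n) (Fin n) K →ₗ[K] Matrix (Fin n) (Fin n) K where
  toFun X := (P : Matrix (Fin n) (Fin n) K) * X *
    ((P⁻¹ : Matrix.GeneralLinearGroup (Fin n) K) : Matrix (Fin n) (Fin n) K)
  map_add' X Y := by rw [Matrix.mul_add, Matrix.add_mul]
  map_smul' r X := by rw [Matrix.mul_smul, Matrix.smul_mul, RingHom.id_apply]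

theorem cjP_apply (P : Matrix.GeneralLinearGroup (Fin n) K) (X : Matrix (Fin n) (Fin n) K) :
    cjP P X = (P : Matrix (Fin n) (Fin n) K) * X *
      ((P⁻¹ : Matrix.GeneralLinearGroup (Fin n) K) : Matrix (Fin n) (Fin n) K) := rfl

theorem p_q (P : Matrix.GeneralLinearGroup (Fin n) K) : (P : Matrix (Fin n) (Fin n) K) *
    ((P⁻¹ : Matrix.GeneralLinearGroup (Fin n) K) : Matrix (Fin n) (Fin n) K) = 1 := by
  rw [← Matrix.GeneralLinearGroup.coe_mul, mul_inv_cancel, Matrix.GeneralLinearGroup.coe_one]

theorem q_p (P : Matrix.GeneralLinearGroup (Fin n) K) :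
    ((P⁻¹ : Matrix.GeneralLinearGroup (Fin n) K) : Matrix (Fin n) (Fin n) K) *
      (P : Matrix (Fin n) (Fin n) K) = 1 := by
  rw [← Matrix.GeneralLinearGroup.coe_mul, inv_mul_cancel, Matrix.GeneralLinearGroup.coe_one]

/-- change of basis, for a grading compatible with the change -/
theorem chg {ε : K} {ψ : Matrix (Fin n) (Fin n) K} {s : Fin n → ℤ}
    {a : Submodule K (Matrix (Fin n) (Fin n) K)} (P : Matrix.GeneralLinearGroup (Fin n) K)
    (hdet : ψ.det ≠ 0) (hsym : ψ.transpose = ε • ψ) (hsign : ε = 1 ∨ ε = -1) (hbrk : Brk a)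
    (hirr : LIrr a) (hiso : ∀ A ∈ a, A.transpose * ψ + ψ * A = 0)
    (hgrad : ∀ i j, ((P : Matrix (Fin n) (Fin n) K).transpose * ψ *
      (P : Matrix (Fin n) (Fin n) K)) i j ≠ 0 → s i + s j = 0)
    (hcomp : ∀ A ∈ a.comap (cjP P), ∀ x : ℤ, cmp s x A ∈ a.comap (cjP P)) :
    GrD ε ((P : Matrix (Fin n) (Fin n) K).transpose * ψ * (P : Matrix (Fin n) (Fin n) K)) s
      (a.comap (cjP P)) := by
  set p : Matrix (Fin n) (Fin n) K := (P : Matrix (Fin n) (Fin n) K) with hp
  set q : Matrix (Fin n) (Fin n) K :=
    ((P⁻¹ : Matrix.GeneralLinearGroup (Fin n) K) : Matrix (Fin n) (Fin n) K) with hq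
  have hpq : p * q = 1 := p_q P
  have hqp : q * p = 1 := q_p P
  have hpq' : ∀ X : Matrix (Fin n) (Fin n) K, p * (q * X) = X := fun X => by
    rw [← Matrix.mul_assoc, hpq, Matrix.one_mul]
  have hqp' : ∀ X : Matrix (Fin n) (Fin n) K, q * (p * X) = X := fun X => by
    rw [← Matrix.mul_assoc, hqp, Matrix.one_mul]
  have hTqp : p.transpose * q.transpose = 1 := by
    rw [← Matrix.transpose_mul, hqp, Matrix.transpose_one]
  have hTqp' : ∀ X : Matrix (Fin n) (Fin n) K, p.transpose * (q.transpose * X) = X := fun X => by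
    rw [← Matrix.mul_assoc, hTqp, Matrix.one_mul]
  have hmem : ∀ X, X ∈ a.comap (cjP P) ↔ p * X * q ∈ a := fun X => Iff.rfl
  exact
    { unit := by
        rw [Matrix.det_mul, Matrix.det_mul, Matrix.det_transpose]
        have hpd : p.det ≠ 0 := by
          intro h0
          have := congrArg Matrix.det hpq
          rw [Matrix.det_mul, h0, zero_mul, Matrix.det_one] at this
          exact zero_ne_one this
        exact mul_ne_zero (mul_ne_zero hpd hdet) hpd
      symm := by
        rw [Matrix.transpose_mul, Matrix.transpose_mul, Matrix.transpose_transpose, hsym,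
          Matrix.smul_mul, Matrix.mul_smul, Matrix.mul_assoc]
      sign := hsign
      grad := hgrad
      brk := by
        intro A hA B hB
        rw [hmem] at hA hB ⊢
        have h1 := hbrk _ hA _ hB
        have h2 : p * (A * B - B * A) * q = p * A * q * (p * B * q) - p * B * q * (p * A * q) := by
          simp only [Matrix.mul_sub, Matrix.sub_mul, Matrix.mul_assoc, hqp']
        rw [h2]
        exact h1
      iso := by
        intro A hA
        have h1 := hiso _ ((hmem A).mp hA)
        have h2 : p.transpose * ((p * A * q).transpose * ψ + ψ * (p * A * q)) * p = 0 := by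
          rw [h1, Matrix.mul_zero, Matrix.zero_mul]
        rw [Matrix.transpose_mul, Matrix.transpose_mul] at h2
        rw [← h2]
        simp only [Matrix.mul_add, Matrix.add_mul, Matrix.mul_assoc, hTqp', hqp, Matrix.mul_one]
      irr := by
        intro U hU
        have h1 := hirr (U.comap q.mulVecLin) (by
          intro A hA v hv
          rw [Submodule.mem_comap, Matrix.mulVecLin_apply] at hv ⊢
          have h2 : q * A * p ∈ a.comap (cjP P) := by
            rw [hmem]
            have : p * (q * A * p) * q = A := by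
              rw [Matrix.mul_assoc q, hpq', Matrix.mul_assoc, hpq, Matrix.mul_one]
            rw [this]
            exact hA
          have h3 := hU _ h2 _ hv
          rw [Matrix.mulVec_mulVec, Matrix.mul_assoc, Matrix.mul_assoc, hpq, Matrix.mul_one] at h3
          rw [Matrix.mulVec_mulVec]
          exact h3)
        rcases h1 with h1 | h1
        · left
          rw [Submodule.eq_bot_iff]
          intro u hu
          have h2 : p.mulVec u ∈ U.comap q.mulVecLin := by
            rw [Submodule.mem_comap, Matrix.mulVecLin_apply, Matrix.mulVec_mulVec, hqp,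
              Matrix.one_mulVec]
            exact hu
          rw [h1, Submodule.mem_bot] at h2
          have h3 := congrArg q.mulVec h2
          rwa [Matrix.mulVec_mulVec, hqp, Matrix.one_mulVec, Matrix.mulVec_zero] at h3
        · right
          rw [Submodule.eq_top_iff']
          intro u
          have h2 : p.mulVec u ∈ U.comap q.mulVecLin := by
            rw [h1]
            exact Submodule.mem_top
          rwa [Submodule.mem_comap, Matrix.mulVecLin_apply, Matrix.mulVec_mulVec, hqp,
            Matrix.one_mulVec] at h2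
      comp := hcomp }

/-- back -/
theorem back {ψ : Matrix (Fin n) (Fin n) K} {a : Submodule K (Matrix (Fin n) (Fin n) K)}
    (P : Matrix.GeneralLinearGroup (Fin n) K)
    (h : ∀ A : Matrix (Fin n) (Fin n) K, A.transpose * ((P : Matrix (Fin n) (Fin n) K).transpose *
      ψ * (P : Matrix (Fin n) (Fin n) K)) + (P : Matrix (Fin n) (Fin n) K).transpose *
        ψ * (P : Matrix (Fin n) (Fin n) K) * A = 0 → A ∈ a.comap (cjP P))
    (A : Matrix (Fin n) (Fin n) K) (hA : A.transpose * ψ + ψ * A = 0) : A ∈ a := by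
  set p : Matrix (Fin n) (Fin n) K := (P : Matrix (Fin n) (Fin n) K) with hp
  set q : Matrix (Fin n) (Fin n) K :=
    ((P⁻¹ : Matrix.GeneralLinearGroup (Fin n) K) : Matrix (Fin n) (Fin n) K) with hq
  have hpq : p * q = 1 := p_q P
  have hpq' : ∀ X : Matrix (Fin n) (Fin n) K, p * (q * X) = X := fun X => by
    rw [← Matrix.mul_assoc, hpq, Matrix.one_mul]
  have h4 : p * (q * A * p) * q ∈ a := by
    refine h _ ?_
    have h5 : p.transpose * (A.transpose * ψ + ψ * A) * p = 0 := by
      rw [hA, Matrix.mul_zero, Matrix.zero_mul]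
    rw [← h5]
    simp only [Matrix.mul_add, Matrix.add_mul, Matrix.mul_assoc, Matrix.transpose_mul, hpq']
    congr 1
    have h6 : q.transpose * (p.transpose * (ψ * p)) = ψ * p := by
      rw [← Matrix.mul_assoc, ← Matrix.transpose_mul, hpq, Matrix.transpose_one, Matrix.one_mul]
    rw [h6]
  have h7 : p * (q * A * p) * q = A := by
    rw [Matrix.mul_assoc q, hpq', Matrix.mul_assoc, hpq, Matrix.mul_one]
  rwa [h7] at h4

/-- a torus on a piece of odd dimension has a fixed vector -/
theorem odd_fix [CharZero K] {ψ : Matrix (Fin n) (Fin n) K} {s d : Fin n → ℤ}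
    (hdet : ψ.det ≠ 0) (hsym : ψ.transpose = (1 : K) • ψ)
    (hs : ∀ i j, ψ i j ≠ 0 → s i + s j = 0) (hd : ∀ i j, ψ i j ≠ 0 → d i + d j = 0)
    (hodd : Odd (Finset.univ.filter fun j => s j = 0).card) : ∃ i, s i = 0 ∧ d i = 0 := by
  by_contra hno
  push Not at hno
  rw [one_smul] at hsym
  let M : Matrix {j // s j = 0} {j // s j = 0} K :=
    Matrix.of fun i j => ψ i.1 j.1 * (d j.1 : K)
  have hM : M.transpose = -M := by
    ext i j
    show ψ j.1 i.1 * (d i.1 : K) = -(ψ i.1 j.1 * (d j.1 : K))
    have h1 : ψ j.1 i.1 = ψ i.1 j.1 := by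
      have := congrFun (congrFun hsym i.1) j.1
      rw [Matrix.transpose_apply] at this
      exact this
    rw [h1]
    by_cases h0 : ψ i.1 j.1 = 0
    · rw [h0, zero_mul, zero_mul, neg_zero]
    · have h2 := hd i.1 j.1 h0
      have h3 : (d i.1 : K) = -(d j.1 : K) := by
        have h4 : d i.1 = -d j.1 := by omega
        rw [h4]
        push_cast
        rfl
      rw [h3, mul_neg]
  have hdM : M.det = 0 := by
    have h1 := congrArg Matrix.det hM
    rw [Matrix.det_transpose, Matrix.det_neg, Fintype.card_subtype, hodd.neg_one_pow,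
      neg_one_mul] at h1
    have h2 : (2 : K) * M.det = 0 := by
      rw [two_mul]
      nth_rw 1 [h1]
      exact neg_add_cancel _
    exact (mul_eq_zero.mp h2).resolve_left two_ne_zero
  obtain ⟨v, hv, hMv⟩ := Matrix.exists_mulVec_eq_zero_iff.mpr hdM
  apply hv
  have h1 : ψ.mulVec (GCDx.ex (fun j => s j = 0) fun j => (d j.1 : K) * v j) = 0 := by
    funext i
    by_cases hi : s i = 0
    · have h2 : M.mulVec v ⟨i, hi⟩ = 0 := congrFun hMv ⟨i, hi⟩
      have h3 : (GCDx.blk (fun j => s j = 0) (fun j => s j = 0) ψ).mulVec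
          (fun j => (d j.1 : K) * v j) ⟨i, hi⟩ = 0 := by
        rw [← h2]
        show ∑ j : {j // s j = 0}, ψ i j.1 * ((d j.1 : K) * v j) =
          ∑ j : {j // s j = 0}, ψ i j.1 * (d j.1 : K) * v j
        exact Finset.sum_congr rfl fun j _ => by ring
      rw [GCDx.blk_mulVec] at h3
      exact h3
    · show ∑ j, ψ i j * _ = 0
      apply Finset.sum_eq_zero
      intro j _
      by_contra hne
      have h3 := hs i j (left_ne_zero_of_mul hne)
      have h4 := GCDx.ex_ne _ _ (right_ne_zero_of_mul hne)
      have h4' : s j = 0 := h4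
      omega
  have h2 := Matrix.eq_zero_of_mulVec_eq_zero hdet h1
  funext j
  have h3 : GCDx.re (fun j => s j = 0) (GCDx.ex (fun j => s j = 0)
      fun j => (d j.1 : K) * v j) j = 0 := by
    rw [h2]
    rfl
  rw [GCDx.re_ex] at h3
  have h4 : ((d j.1 : ℤ) : K) ≠ 0 := Int.cast_ne_zero.mpr (hno j.1 j.2)
  exact (mul_eq_zero.mp h3).resolve_left h4

end Wtx

open Wtx

theorem st_WT2 (hGRA : ST_GRA) (tor : ST_TOR) (gcd : ST_GCD) (scp : ST_SCP) (bnd : ST_BND) :
    ST_WT2 := by
  intro K _ _ _ n ψ s a gs hs1 hodd1 hodd0 hlt hcop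
  have hex : ∃ j, s j = 1 := by
    obtain ⟨j, hj⟩ := Finset.card_pos.mp hodd1.pos
    exact ⟨j, (Finset.mem_filter.mp hj).2⟩
  have hex0 : ∃ j, s j = 0 := by
    obtain ⟨j, hj⟩ := Finset.card_pos.mp hodd0.pos
    exact ⟨j, (Finset.mem_filter.mp hj).2⟩
  by_cases hc : ∃ z ∈ a, z ≠ 0 ∧ ∀ i j, z i j ≠ 0 → s i = 0 ∧ s j = 0
  · obtain ⟨P, d, hP, ⟨i₁, hi₁⟩, hd0, hD⟩ := tor K n 1 ψ s a gs hc
    set p : Matrix (Fin n) (Fin n) K := (P : Matrix (Fin n) (Fin n) K) with hp
    set q : Matrix (Fin n) (Fin n) K :=
      ((P⁻¹ : Matrix.GeneralLinearGroup (Fin n) K) : Matrix (Fin n) (Fin n) K) with hq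
    have hpq : p * q = 1 := p_q P
    have hqp : q * p = 1 := q_p P
    have hcp : p * Matrix.diagonal (fun j => (s j : K)) =
        Matrix.diagonal (fun j => (s j : K)) * p := by
      ext i j
      rw [Matrix.mul_diagonal, Matrix.diagonal_mul]
      by_cases h0 : p i j = 0
      · rw [h0, zero_mul, mul_zero]
      · rw [hP i j h0, mul_comm]
    have hcq : q * Matrix.diagonal (fun j => (s j : K)) =
        Matrix.diagonal (fun j => (s j : K)) * q := by
      calc q * Matrix.diagonal (fun j => (s j : K))
          = q * (Matrix.diagonal (fun j => (s j : K)) * p) * q := by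
            rw [Matrix.mul_assoc, Matrix.mul_assoc, hpq, Matrix.mul_one]
        _ = Matrix.diagonal (fun j => (s j : K)) * q := by
            rw [← hcp, ← Matrix.mul_assoc, hqp, Matrix.one_mul]
    have hQ : ∀ i j, q i j ≠ 0 → s i = s j := by
      intro i j h0
      have h1 := congrFun (congrFun hcq i) j
      rw [Matrix.mul_diagonal, Matrix.diagonal_mul, mul_comm] at h1
      have h2 := mul_right_cancel₀ h0 h1
      exact_mod_cast h2.symm
    have hcm : ∀ (X : Matrix (Fin n) (Fin n) K) (x : ℤ),
        p * cmp s x X * q = cmp s x (p * X * q) := by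
      intro X x
      ext i j
      simp only [cmp, Matrix.mul_apply, Matrix.of_apply]
      by_cases hx : s i - s j = x
      · rw [if_pos hx]
        refine Finset.sum_congr rfl fun l _ => ?_
        by_cases hl : q l j = 0
        · rw [hl, mul_zero, mul_zero]
        · congr 1
          refine Finset.sum_congr rfl fun k _ => ?_
          by_cases hk : p i k = 0
          · rw [hk, zero_mul, zero_mul]
          · have h1 := hQ l j hl
            have h2 := hP i k hk
            rw [if_pos (by omega)]
      · rw [if_neg hx]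
        refine Finset.sum_eq_zero fun l _ => ?_
        by_cases hl : q l j = 0
        · rw [hl, mul_zero]
        · have h3 : ∑ k, p i k * (if s k - s l = x then X k l else 0) = 0 := by
            refine Finset.sum_eq_zero fun k _ => ?_
            by_cases hk : p i k = 0
            · rw [hk, zero_mul]
            · have h1 := hQ l j hl
              have h2 := hP i k hk
              rw [if_neg (by omega), mul_zero]
          rw [h3, zero_mul]
    have hψs : ∀ i j, (p.transpose * ψ * p) i j ≠ 0 → s i + s j = 0 := by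
      intro i j hij
      rw [Matrix.mul_apply] at hij
      obtain ⟨l, -, hl⟩ := Finset.exists_ne_zero_of_sum_ne_zero hij
      have hl1 := left_ne_zero_of_mul hl
      rw [Matrix.mul_apply] at hl1
      obtain ⟨k, -, hk⟩ := Finset.exists_ne_zero_of_sum_ne_zero hl1
      have h1 := hP k i (left_ne_zero_of_mul hk)
      have h2 := gs.grad k l (right_ne_zero_of_mul hk)
      have h3 := hP l j (right_ne_zero_of_mul hl)
      omega
    have gs' := chg (s := s) P gs.unit gs.symm gs.sign gs.brk gs.irr gs.iso hψs (by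
      intro A hA x
      show cjP P (cmp s x A) ∈ a
      rw [cjP_apply, hcm]
      exact gs.comp _ hA x)
    have hD' : Matrix.diagonal (fun j => (d j : K)) ∈ a.comap (cjP P) := hD
    have hψd : ∀ i j, (p.transpose * ψ * p) i j ≠ 0 → d i + d j = 0 := by
      intro i j hij
      have h1 := congrFun (congrFun (gs'.iso _ hD') i) j
      rw [Matrix.diagonal_transpose, Matrix.add_apply, Matrix.diagonal_mul,
        Matrix.mul_diagonal, Matrix.zero_apply] at h1
      have h2 : ((d i + d j : ℤ) : K) * (p.transpose * ψ * p) i j = 0 := by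
        rw [← h1]
        push_cast
        ring
      have h3 := (mul_eq_zero.mp h2).resolve_right hij
      exact_mod_cast h3
    have gd' := chg (s := d) P gs.unit gs.symm gs.sign gs.brk gs.irr gs.iso hψd
      (hGRA K n _ d fun A hA => gs'.brk _ hD' _ hA)
    obtain ⟨i₀, hi₀, hi₀'⟩ := odd_fix gs'.unit gs'.symm gs'.grad gd'.grad hodd0
    refine back P (gcd K n 1 _ s d _ gs' gd' hs1 hex hd0 ⟨i₀, i₁, hi₀, ?_, ?_, ?_⟩ ?_)
    · by_contra h
      exact hi₁ (hd0 i₁ h)
    · rw [hi₀']
      exact fun h => hi₁ h.symm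
    · rw [hi₀', zero_add]
      exact hi₁
    · intro u hu1 hu0
      refine hcop u hu1 ?_
      rw [Finset.card_eq_sum_card_fiberwise (f := d) (t := Finset.univ.image d)
        (fun j _ => Finset.mem_coe.mpr (Finset.mem_image_of_mem d (Finset.mem_univ j)))]
      refine Finset.dvd_sum fun x _ => ?_
      rw [Finset.filter_filter]
      exact hu0 x
  · push Not at hc
    by_cases h2 : ∃ z ∈ a, cmp s 2 z = z ∧ z ≠ 0
    · exact scp K n ψ s a gs hs1 hex0 h2 hodd1 hcop
    · push Not at h2
      exfalso
      have h3 := bnd K n 1 ψ s a gs hs1 hex (by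
        intro z hz hz'
        by_contra h0
        obtain ⟨i, j, hij, h4⟩ := hc z hz h0
        obtain ⟨h5, h6⟩ := hz' i j hij
        exact h4 h5 h6) (fun z hz hz' => h2 z hz hz')
      omega

end MT
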