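import Pool.Agent.Helper21.WD.WT2
import Pool.Agent.Helper21.WD.Stmts2

/-!
# WT3: the types `(a, b, a)` with `b` large
-/

set_option autoImplicit false

open Matrix

namespace MT

open Wtx

theorem st_WT3 (hGRA : ST_GRA) (tr2 : ST_TR2) (gcd : ST_GCD) (sc2 : ST_SC2) (bd2 : ST_BD2) :
    ST_WT3 := by
  intro K _ _ _ n ε ψ s a gs hs1 hex hlt hcop
  have hex0 : ∃ j, s j = 0 := by
    obtain ⟨j, hj⟩ := Finset.card_pos.mp (lt_of_le_of_lt (Nat.zero_le _) hlt)
    exact ⟨j, (Finset.mem_filter.mp hj).2⟩
  rcases tr2 K n ε ψ s a gs with ⟨P, d, hP, htwo, hd0, hD⟩ | hrk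
  · set p : Matrix (Fin n) (Fin n) K := (P : Matrix (Fin n) (Fin n) K) with hp
    set q : Matrix (Fin n) (Fin n) K :=
      ((P⁻¹ : Matrix.GeneralLinearGroup (Fin n) K) : Matrix (Fin n) (Fin n) K) with hq
    have hpq : p * q = 1 := p_q P
    have hqp : q * p = 1 := q_p P
    have hcp : p * Matrix.diagonal (fun j => (s j : K)) =
        Matrix.diagonal (fun j => (s j : K)) * p := by
      ext i j
      rw [Matrix.mul_diagonal, Matrix.diagonal_mul]
      by_cases h0 : p i j = 0
      · rw [h0, zero_mul, mul_zero]
      · rw [hP i j h0, mul_comm]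
    have hcq : q * Matrix.diagonal (fun j => (s j : K)) =
        Matrix.diagonal (fun j => (s j : K)) * q := by
      calc q * Matrix.diagonal (fun j => (s j : K))
          = q * (Matrix.diagonal (fun j => (s j : K)) * p) * q := by
            rw [Matrix.mul_assoc, Matrix.mul_assoc, hpq, Matrix.mul_one]
        _ = Matrix.diagonal (fun j => (s j : K)) * q := by
            rw [← hcp, ← Matrix.mul_assoc, hqp, Matrix.one_mul]
    have hQ : ∀ i j, q i j ≠ 0 → s i = s j := by
      intro i j h0
      have h1 := congrFun (congrFun hcq i) j
      rw [Matrix.mul_diagonal, Matrix.diagonal_mul, mul_comm] at h1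
      have h2 := mul_right_cancel₀ h0 h1
      exact_mod_cast h2.symm
    have hcm : ∀ (X : Matrix (Fin n) (Fin n) K) (x : ℤ),
        p * cmp s x X * q = cmp s x (p * X * q) := by
      intro X x
      ext i j
      simp only [cmp, Matrix.mul_apply, Matrix.of_apply]
      by_cases hx : s i - s j = x
      · rw [if_pos hx]
        refine Finset.sum_congr rfl fun l _ => ?_
        by_cases hl : q l j = 0
        · rw [hl, mul_zero, mul_zero]
        · congr 1
          refine Finset.sum_congr rfl fun k _ => ?_
          by_cases hk : p i k = 0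
          · rw [hk, zero_mul, zero_mul]
          · have h1 := hQ l j hl
            have h2 := hP i k hk
            rw [if_pos (by omega)]
      · rw [if_neg hx]
        refine Finset.sum_eq_zero fun l _ => ?_
        by_cases hl : q l j = 0
        · rw [hl, mul_zero]
        · have h3 : ∑ k, p i k * (if s k - s l = x then X k l else 0) = 0 := by
            refine Finset.sum_eq_zero fun k _ => ?_
            by_cases hk : p i k = 0
            · rw [hk, zero_mul]
            · have h1 := hQ l j hl
              have h2 := hP i k hk
              rw [if_neg (by omega), mul_zero]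
          rw [h3, zero_mul]
    have hψs : ∀ i j, (p.transpose * ψ * p) i j ≠ 0 → s i + s j = 0 := by
      intro i j hij
      rw [Matrix.mul_apply] at hij
      obtain ⟨l, -, hl⟩ := Finset.exists_ne_zero_of_sum_ne_zero hij
      have hl1 := left_ne_zero_of_mul hl
      rw [Matrix.mul_apply] at hl1
      obtain ⟨k, -, hk⟩ := Finset.exists_ne_zero_of_sum_ne_zero hl1
      have h1 := hP k i (left_ne_zero_of_mul hk)
      have h2 := gs.grad k l (right_ne_zero_of_mul hk)
      have h3 := hP l j (right_ne_zero_of_mul hl)
      omega
    have gs' := chg (s := s) P gs.unit gs.symm gs.sign gs.brk gs.irr gs.iso hψs (by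
      intro A hA x
      show cjP P (cmp s x A) ∈ a
      rw [cjP_apply, hcm]
      exact gs.comp _ hA x)
    have hD' : Matrix.diagonal (fun j => (d j : K)) ∈ a.comap (cjP P) := hD
    have hψd : ∀ i j, (p.transpose * ψ * p) i j ≠ 0 → d i + d j = 0 := by
      intro i j hij
      have h1 := congrFun (congrFun (gs'.iso _ hD') i) j
      rw [Matrix.diagonal_transpose, Matrix.add_apply, Matrix.diagonal_mul,
        Matrix.mul_diagonal, Matrix.zero_apply] at h1
      have h2 : ((d i + d j : ℤ) : K) * (p.transpose * ψ * p) i j = 0 := by
        rw [← h1]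
        push_cast
        ring
      have h3 := (mul_eq_zero.mp h2).resolve_right hij
      exact_mod_cast h3
    have gd' := chg (s := d) P gs.unit gs.symm gs.sign gs.brk gs.irr gs.iso hψd
      (hGRA K n _ d fun A hA => gs'.brk _ hD' _ hA)
    refine back P (gcd K n ε _ s d _ gs' gd' hs1 hex hd0 htwo ?_)
    intro u hu1 hu0
    refine hcop u hu1 ?_
    rw [Finset.card_eq_sum_card_fiberwise (f := d) (t := Finset.univ.image d)
      (fun j _ => Finset.mem_coe.mpr (Finset.mem_image_of_mem d (Finset.mem_univ j)))]
    refine Finset.dvd_sum fun x _ => ?_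
    rw [Finset.filter_filter]
    exact hu0 x
  · rcases sc2 K n ε ψ s a gs hs1 hex hex0 hcop with h2 | h2
    · exfalso
      have h3 := bd2 K n ε ψ s a gs hs1 hex h2
      have h4 : (Finset.univ.filter fun j => s j = 1).card *
          ((Finset.univ.filter fun j => s j = 1).card ^ 2 +
            Module.finrank K (Mid0 s a) + 1) ≤
          (Finset.univ.filter fun j => s j = 1).card ^ 3 +
            4 * (Finset.univ.filter fun j => s j = 1).card := by
        calc (Finset.univ.filter fun j => s j = 1).card *
              ((Finset.univ.filter fun j => s j = 1).card ^ 2 +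
                Module.finrank K (Mid0 s a) + 1)
            ≤ (Finset.univ.filter fun j => s j = 1).card *
              ((Finset.univ.filter fun j => s j = 1).card ^ 2 + 3 + 1) :=
              Nat.mul_le_mul_left _ (by omega)
          _ = _ := by ring
      omega
    · exact h2

end MT
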